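import Mathlib
import Pool.Agent.Helper78.SM.SliceA

/-! Project SG (MP_9ee088_an): geometry of noisy standard maps at hyperbolic times. Definitions. -/

set_option autoImplicit false
open Real

namespace Pool.Agent.Helper18.SG

open Pool.Agent.Helper78.SM (psi phi dphi)

/-- Orbit of the noisy standard map as a second order recursion: `Z 0 = y`, `Z 1 = x`; the state at
time `k` is the pair `(Z (k+1), Z k)`. -/
noncomputable def Z (a : ℝ) (c : ℕ → ℝ) (y x : ℝ) : ℕ → ℝ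
  | 0 => y
  | 1 => x
  | k + 2 => psi a (Z a c y x (k+1)) - Z a c y x k + c k

/-- The derivative of `Z` with respect to `x` (continuants). -/
noncomputable def v (a : ℝ) (c : ℕ → ℝ) (y x : ℝ) : ℕ → ℝ
  | 0 => 0
  | 1 => 1
  | k + 2 => phi a (Z a c y x (k+1)) * v a c y x (k+1) - v a c y x k

/-- sup norm of the state vector of a sequence -/
noncomputable def mx (u : ℕ → ℝ) (k : ℕ) : ℝ := max |u (k+1)| |u k|

/-- size of the transported horizontal vector at time `k` -/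
noncomputable def W (a : ℝ) (c : ℕ → ℝ) (y x : ℝ) (k : ℕ) : ℝ := mx (v a c y x) k

/-- `n` is a hyperbolic time of the sequence of sizes `V` (here `|a| = b ^ 10`): between `j` and `i`
the size grows by `b ^ (9 (i-j))` up to the total loss `b ^ (2 (n-j))`. -/
def HypS (b : ℝ) (V : ℕ → ℝ) (n : ℕ) : Prop :=
  ∀ j i, j ≤ i → i ≤ n → V j * b ^ (9 * (i - j)) ≤ b ^ (2 * (n - j)) * V i

/-- reversed noise of an orbit piece with `N` steps -/
def rev (c : ℕ → ℝ) (N : ℕ) (j : ℕ) : ℝ := c (N - 1 - j)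

lemma Z_zero (a : ℝ) (c : ℕ → ℝ) (y x : ℝ) : Z a c y x 0 = y := by rw [Z]

lemma Z_one (a : ℝ) (c : ℕ → ℝ) (y x : ℝ) : Z a c y x 1 = x := by rw [Z]

lemma Z_rec (a : ℝ) (c : ℕ → ℝ) (y x : ℝ) (k : ℕ) :
    Z a c y x (k+2) = psi a (Z a c y x (k+1)) - Z a c y x k + c k := by rw [Z]

lemma v_zero (a : ℝ) (c : ℕ → ℝ) (y x : ℝ) : v a c y x 0 = 0 := by rw [v]

lemma v_one (a : ℝ) (c : ℕ → ℝ) (y x : ℝ) : v a c y x 1 = 1 := by rw [v]

lemma v_rec (a : ℝ) (c : ℕ → ℝ) (y x : ℝ) (k : ℕ) :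
    v a c y x (k+2) = phi a (Z a c y x (k+1)) * v a c y x (k+1) - v a c y x k := by rw [v]

end Pool.Agent.Helper18.SG
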