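import Mathlib
import Pool.Agent.Helper18.SG.Defs

/-! Block SG-CALCA: derivative, continuity, uniform continuity of the orbit functions.

Proofs. Inductions with the recursions (`Helper78.SM.hasDerivAt_psi`, `hasDerivAt_phi`); joint
continuity by induction (`psi a`, `phi a` are continuous, `fun_prop`); `unif` is uniform continuity
of the finitely many continuous functions `(c', t) ↦ Z a c c' t k`, `v a c c' t k` on the compact
`[0,1] × [0,1]` (take the minimum of finitely many radii, or use the continuous function into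
`Fin (m+2) → ℝ × ℝ`). `v_abs_le`: `|v (k+1)|, |v k| <= (10 |a|) ^ k` by induction with
`Helper78.SM.abs_phi_le`. -/

set_option autoImplicit false
open Real Set

namespace Pool.Agent.Helper18.SG

open Pool.Agent.Helper78.SM (psi phi dphi)

private lemma two22 {P : ℕ → Prop} (h0 : P 0) (h1 : P 1) (h2 : ∀ k, P k → P (k+1) → P (k+2)) :
    ∀ k, P k := by
  intro k
  have h : P k ∧ P (k+1) := by
    induction k with
    | zero => exact ⟨h0, h1⟩
    | succ k ih => exact ⟨ih.2, h2 k ih.1 ih.2⟩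
  exact h.1

private lemma continuous_psi22 (a : ℝ) : Continuous (psi a) := by
  unfold psi; fun_prop

private lemma continuous_phi22 (a : ℝ) : Continuous (phi a) := by
  unfold phi; fun_prop

theorem hasDerivAt_Z (a : ℝ) (c : ℕ → ℝ) (y : ℝ) (k : ℕ) (x : ℝ) :
    HasDerivAt (fun x : ℝ => Z a c y x k) (v a c y x k) x := by
  revert k
  apply two22
  · simp only [Z_zero, v_zero]
    exact hasDerivAt_const x y
  · simp only [Z_one, v_one]
    exact hasDerivAt_id x
  · intro k ih1 ih2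
    simp only [Z_rec, v_rec]
    exact (((Helper78.SM.hasDerivAt_psi a (Z a c y x (k+1))).comp x ih2).sub ih1).add_const (c k)

private lemma continuous_Zc22 (a : ℝ) (k : ℕ) :
    Continuous (fun q : (ℕ → ℝ) × (ℝ × ℝ) => Z a q.1 q.2.1 q.2.2 k) := by
  revert k
  apply two22
  · simp only [Z_zero]; fun_prop
  · simp only [Z_one]; fun_prop
  · intro k ih1 ih2
    simp only [Z_rec]
    exact (((continuous_psi22 a).comp ih2).sub ih1).add ((continuous_apply k).comp continuous_fst)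

private lemma continuous_vc22 (a : ℝ) (k : ℕ) :
    Continuous (fun q : (ℕ → ℝ) × (ℝ × ℝ) => v a q.1 q.2.1 q.2.2 k) := by
  revert k
  apply two22
  · simp only [v_zero]; fun_prop
  · simp only [v_one]; fun_prop
  · intro k ih1 ih2
    simp only [v_rec]
    exact (((continuous_phi22 a).comp (continuous_Zc22 a (k+1))).mul ih2).sub ih1

theorem continuous_Z (a : ℝ) (c : ℕ → ℝ) (k : ℕ) : Continuous (fun p : ℝ × ℝ => Z a c p.1 p.2 k) :=
  (continuous_Zc22 a k).comp (Continuous.prodMk_right c)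

theorem continuous_v (a : ℝ) (c : ℕ → ℝ) (k : ℕ) : Continuous (fun p : ℝ × ℝ => v a c p.1 p.2 k) :=
  (continuous_vc22 a k).comp (Continuous.prodMk_right c)

/-- joint continuity, also in the noise -/
theorem continuous_Zc (a : ℝ) (k : ℕ) :
    Continuous (fun q : (ℕ → ℝ) × (ℝ × ℝ) => Z a q.1 q.2.1 q.2.2 k) :=
  continuous_Zc22 a k

theorem continuous_vc (a : ℝ) (k : ℕ) :
    Continuous (fun q : (ℕ → ℝ) × (ℝ × ℝ) => v a q.1 q.2.1 q.2.2 k) :=
  continuous_vc22 a k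

theorem v_abs_le {a : ℝ} (ha : 1 ≤ |a|) (c : ℕ → ℝ) (y x : ℝ) (k : ℕ) :
    W a c y x k ≤ (10 * |a|) ^ k := by
  unfold W mx
  induction k with
  | zero =>
    rw [v_one, v_zero]
    simp
  | succ k ih =>
    have h0 : (0:ℝ) ≤ (10 * |a|) ^ k := by positivity
    have h1 := Helper78.SM.abs_phi_le ha (Z a c y x (k+1))
    have i1 := (le_max_left _ _).trans ih
    have i2 := (le_max_right _ _).trans ih
    rw [pow_succ]
    apply max_le
    · rw [v_rec]
      calc |phi a (Z a c y x (k+1)) * v a c y x (k+1) - v a c y x k|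
          ≤ |phi a (Z a c y x (k+1)) * v a c y x (k+1)| + |v a c y x k| := abs_sub _ _
        _ = |phi a (Z a c y x (k+1))| * |v a c y x (k+1)| + |v a c y x k| := by rw [abs_mul]
        _ ≤ (9 * |a|) * (10 * |a|) ^ k + (10 * |a|) ^ k := by gcongr
        _ ≤ (10 * |a|) ^ k * (10 * |a|) := by nlinarith
    · refine i1.trans ?_
      nlinarith

/-- only the noise values before the time matter -/
theorem Z_congr {a : ℝ} {c c' : ℕ → ℝ} {k : ℕ} (h : ∀ i, i + 1 < k → c i = c' i) (y x : ℝ) :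
    ∀ j, j ≤ k → Z a c y x j = Z a c' y x j := by
  apply two22
  · intro _; rw [Z_zero, Z_zero]
  · intro _; rw [Z_one, Z_one]
  · intro j ih1 ih2 hj
    rw [Z_rec, Z_rec, ih1 (by omega), ih2 (by omega), h j (by omega)]

theorem v_congr {a : ℝ} {c c' : ℕ → ℝ} {k : ℕ} (h : ∀ i, i + 1 < k → c i = c' i) (y x : ℝ) :
    ∀ j, j ≤ k + 1 → v a c y x j = v a c' y x j := by
  apply two22
  · intro _; rw [v_zero, v_zero]
  · intro _; rw [v_one, v_one]
  · intro j ih1 ih2 hj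
    rw [v_rec, v_rec, ih1 (by omega), ih2 (by omega), Z_congr h y x (j+1) (by omega)]

private lemma unif22 {f : ℝ × ℝ → ℝ} (hf : Continuous f) {η : ℝ} (hη : 0 < η) :
    ∃ ρ : ℝ, 0 < ρ ∧ ∀ c' ∈ Icc (0:ℝ) 1, ∀ cs ∈ Icc (0:ℝ) 1, |c' - cs| ≤ ρ → ∀ t ∈ Icc (0:ℝ) 1,
      |f (c', t) - f (cs, t)| ≤ η := by
  have hK : IsCompact (Icc (0:ℝ) 1 ×ˢ Icc (0:ℝ) 1) := isCompact_Icc.prod isCompact_Icc
  have hu := hK.uniformContinuousOn_of_continuous hf.continuousOn
  rw [Metric.uniformContinuousOn_iff] at hu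
  obtain ⟨δ, hδ, h⟩ := hu η hη
  refine ⟨δ / 2, by positivity, ?_⟩
  intro c' hc' cs hcs hd t ht
  have h1 := h (c', t) ⟨hc', ht⟩ (cs, t) ⟨hcs, ht⟩ (by
    rw [Prod.dist_eq]
    simp only [dist_self, Real.dist_eq]
    exact max_lt (by linarith) hδ)
  rw [Real.dist_eq] at h1
  exact h1.le

theorem unif (a : ℝ) (c : ℕ → ℝ) (m : ℕ) {η : ℝ} (hη : 0 < η) :
    ∃ ρ : ℝ, 0 < ρ ∧ ∀ c' ∈ Icc (0:ℝ) 1, ∀ cs ∈ Icc (0:ℝ) 1, |c' - cs| ≤ ρ → ∀ t ∈ Icc (0:ℝ) 1,
      ∀ k, k ≤ m + 1 → |Z a c c' t k - Z a c cs t k| ≤ η ∧ |v a c c' t k - v a c cs t k| ≤ η := by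
  have key : ∀ N : ℕ, ∃ ρ : ℝ, 0 < ρ ∧ ∀ c' ∈ Icc (0:ℝ) 1, ∀ cs ∈ Icc (0:ℝ) 1, |c' - cs| ≤ ρ →
      ∀ t ∈ Icc (0:ℝ) 1, ∀ k, k < N →
        |Z a c c' t k - Z a c cs t k| ≤ η ∧ |v a c c' t k - v a c cs t k| ≤ η := by
    intro N
    induction N with
    | zero => exact ⟨1, one_pos, fun _ _ _ _ _ _ _ k hk => absurd hk (Nat.not_lt_zero k)⟩
    | succ N ih =>
      obtain ⟨ρ, hρ, h⟩ := ih
      obtain ⟨ρ1, hρ1, h1⟩ := unif22 (continuous_Z a c N) hη
      obtain ⟨ρ2, hρ2, h2⟩ := unif22 (continuous_v a c N) hη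
      refine ⟨min ρ (min ρ1 ρ2), lt_min hρ (lt_min hρ1 hρ2), ?_⟩
      intro c' hc' cs hcs hd t ht k hk
      have d1 := hd.trans (min_le_left _ _)
      have d2 := hd.trans ((min_le_right _ _).trans (min_le_left _ _))
      have d3 := hd.trans ((min_le_right _ _).trans (min_le_right _ _))
      rcases Nat.lt_succ_iff_lt_or_eq.1 hk with hk | rfl
      · exact h c' hc' cs hcs d1 t ht k hk
      · exact ⟨h1 c' hc' cs hcs d2 t ht, h2 c' hc' cs hcs d3 t ht⟩
  obtain ⟨ρ, hρ, h⟩ := key (m + 2)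
  exact ⟨ρ, hρ, fun c' hc' cs hcs hd t ht k hk => h c' hc' cs hcs hd t ht k (by omega)⟩

end Pool.Agent.Helper18.SG
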