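import Mathlib
import Pool.Agent.Helper18.SG.Defs

/-! Block SG-MAX: maximal inequality and hyperbolic times.

`max_ineq` (rising sun lemma): strong induction on `T`. If `T` is not in the bad set, remove it. If
`T` is bad with `r`, then `lam * r < ∑_{k ∈ [T-r, T)} ℓ k`; at most `r` bad `n` lie in `(T-r, T]`; apply
the induction hypothesis to `T - r`.

`hyp_of_good`: `log V i - log V j = ∑_{k ∈ [j,i)} G k >= 9 (i-j) log b - ∑_{k ∈ [j,n)} loss k
>= (9 (i-j) - 2 (n-j)) log b`. -/

set_option autoImplicit false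
open Real

namespace Pool.Agent.Helper18.SG

open Classical in
theorem max_ineq {ℓ : ℕ → ℝ} (h : ∀ k, 0 ≤ ℓ k) {lam : ℝ} (hl : 0 < lam) (T : ℕ) :
    lam * (((Finset.Icc 1 T).filter (fun n => ∃ r, 1 ≤ r ∧ r ≤ n ∧
      lam * r < ∑ k ∈ Finset.Ico (n - r) n, ℓ k)).card : ℝ) ≤ ∑ k ∈ Finset.range T, ℓ k := by
  induction T using Nat.strong_induction_on with
  | _ T ih =>
    rcases Nat.eq_zero_or_pos T with rfl | hT
    · simp
    set P : ℕ → Prop := fun n => ∃ r, 1 ≤ r ∧ r ≤ n ∧
      lam * r < ∑ k ∈ Finset.Ico (n - r) n, ℓ k with hP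
    by_cases hbad : P T
    · obtain ⟨r, hr1, hrT, hr⟩ := hbad
      have hI := ih (T - r) (by omega)
      have hsub : (Finset.Icc 1 T).filter P ⊆
          ((Finset.Icc 1 (T - r)).filter P) ∪ Finset.Ioc (T - r) T := by
        intro n hn
        rw [Finset.mem_filter, Finset.mem_Icc] at hn
        rw [Finset.mem_union, Finset.mem_filter, Finset.mem_Icc, Finset.mem_Ioc]
        rcases Nat.lt_or_ge (T - r) n with h1 | h1
        · exact Or.inr ⟨h1, hn.1.2⟩
        · exact Or.inl ⟨⟨hn.1.1, h1⟩, hn.2⟩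
      have hcard : ((Finset.Icc 1 T).filter P).card ≤
          ((Finset.Icc 1 (T - r)).filter P).card + r := by
        refine (Finset.card_le_card hsub).trans ((Finset.card_union_le _ _).trans ?_)
        rw [Nat.card_Ioc]
        omega
      have hcard' : (((Finset.Icc 1 T).filter P).card : ℝ) ≤
          (((Finset.Icc 1 (T - r)).filter P).card : ℝ) + r := by exact_mod_cast hcard
      have hsplit : ∑ k ∈ Finset.range T, ℓ k =
          ∑ k ∈ Finset.range (T - r), ℓ k + ∑ k ∈ Finset.Ico (T - r) T, ℓ k := by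
        rw [Finset.range_eq_Ico, Finset.range_eq_Ico,
          Finset.sum_Ico_consecutive _ (Nat.zero_le _) (Nat.sub_le _ _)]
      have h2 : lam * (((Finset.Icc 1 T).filter P).card : ℝ) ≤
          lam * (((Finset.Icc 1 (T - r)).filter P).card : ℝ) + lam * r := by
        rw [← mul_add]
        exact mul_le_mul_of_nonneg_left hcard' hl.le
      rw [hsplit]
      linarith
    · have hI := ih (T - 1) (by omega)
      have hsub : (Finset.Icc 1 T).filter P ⊆ (Finset.Icc 1 (T - 1)).filter P := by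
        intro n hn
        rw [Finset.mem_filter, Finset.mem_Icc] at hn ⊢
        refine ⟨⟨hn.1.1, ?_⟩, hn.2⟩
        have : n ≠ T := fun h => hbad (h ▸ hn.2)
        omega
      have hcard : (((Finset.Icc 1 T).filter P).card : ℝ) ≤
          (((Finset.Icc 1 (T - 1)).filter P).card : ℝ) := by
        exact_mod_cast Finset.card_le_card hsub
      have hsum : ∑ k ∈ Finset.range (T - 1), ℓ k ≤ ∑ k ∈ Finset.range T, ℓ k :=
        Finset.sum_le_sum_of_subset_of_nonneg
          (Finset.range_subset_range.2 (Nat.sub_le _ _)) fun k _ _ => h k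
      have h2 := mul_le_mul_of_nonneg_left hcard hl.le
      linarith

/-- loss at step `k` -/
noncomputable def loss (b : ℝ) (V : ℕ → ℝ) (k : ℕ) : ℝ :=
  max (9 * Real.log b - (Real.log (V (k+1)) - Real.log (V k))) 0

theorem hyp_of_good {b : ℝ} (hb : 1 < b) {V : ℕ → ℝ} (hV : ∀ k, 0 < V k) {n : ℕ}
    (h : ∀ r, 1 ≤ r → r ≤ n → ∑ k ∈ Finset.Ico (n - r) n, loss b V k ≤ 2 * Real.log b * r) :
    HypS b V n := by
  intro j i hji hin
  rcases Nat.eq_or_lt_of_le (hji.trans hin) with hjn | hjn
  · have hi : i = n := by omega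
    subst hi
    subst hjn
    simp
  have hb0 : 0 < b := by linarith
  have h1 := h (n - j) (by omega) (Nat.sub_le _ _)
  have hnj : n - (n - j) = j := by omega
  rw [hnj] at h1
  have htel : ∑ k ∈ Finset.Ico j i, (Real.log (V (k+1)) - Real.log (V k)) =
      Real.log (V i) - Real.log (V j) := Finset.sum_Ico_sub (fun k => Real.log (V k)) hji
  have hge : ∑ k ∈ Finset.Ico j i, (9 * Real.log b - loss b V k) ≤
      ∑ k ∈ Finset.Ico j i, (Real.log (V (k+1)) - Real.log (V k)) := by
    apply Finset.sum_le_sum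
    intro k _
    have := le_max_left (9 * Real.log b - (Real.log (V (k+1)) - Real.log (V k))) 0
    unfold loss
    linarith
  have hlsub : ∑ k ∈ Finset.Ico j i, loss b V k ≤ ∑ k ∈ Finset.Ico j n, loss b V k := by
    apply Finset.sum_le_sum_of_subset_of_nonneg
    · exact Finset.Ico_subset_Ico_right hin
    · intro k _ _
      exact le_max_right _ _
  rw [Finset.sum_sub_distrib, Finset.sum_const, Nat.card_Ico, nsmul_eq_mul, htel] at hge
  have hlog : Real.log (V j * b ^ (9 * (i - j))) ≤ Real.log (b ^ (2 * (n - j)) * V i) := by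
    rw [Real.log_mul (hV j).ne' (pow_pos hb0 _).ne', Real.log_mul (pow_pos hb0 _).ne' (hV i).ne',
      Real.log_pow, Real.log_pow]
    push_cast
    nlinarith [h1, hge, hlsub]
  exact (Real.log_le_log_iff (mul_pos (hV j) (pow_pos hb0 _))
    (mul_pos (pow_pos hb0 _) (hV i))).1 hlog

open Classical in
theorem not_hyp_count {b : ℝ} (hb : 1 < b) {V : ℕ → ℝ} (hV : ∀ k, 0 < V k) (T : ℕ) :
    2 * Real.log b * (((Finset.Icc 1 T).filter (fun n => ¬ HypS b V n)).card : ℝ) ≤
      ∑ k ∈ Finset.range T, loss b V k := by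
  have hl : 0 < 2 * Real.log b := by
    have := Real.log_pos hb
    linarith
  refine le_trans ?_ (max_ineq (ℓ := loss b V) (fun k => le_max_right _ _) hl T)
  apply mul_le_mul_of_nonneg_left _ hl.le
  have hsub : (Finset.Icc 1 T).filter (fun n => ¬ HypS b V n) ⊆
      (Finset.Icc 1 T).filter (fun n => ∃ r, 1 ≤ r ∧ r ≤ n ∧
        2 * Real.log b * r < ∑ k ∈ Finset.Ico (n - r) n, loss b V k) := by
    intro n hn
    rw [Finset.mem_filter] at hn ⊢
    refine ⟨hn.1, ?_⟩
    by_contra hcon
    apply hn.2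
    apply hyp_of_good hb hV
    intro r hr1 hr2
    by_contra hlt
    exact hcon ⟨r, hr1, hr2, not_le.1 hlt⟩
  exact_mod_cast Finset.card_le_card hsub

end Pool.Agent.Helper18.SG
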