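import Mathlib
import Pool.Agent.Helper18.SG.Defs

/-! Block SG-CALCB: integer shifts, time reversal, composition of continuants.

Proofs.
* `Z_shift`: adding the integer sequence `i0 + k (i1 - i0)` to an orbit gives an orbit, as
  `psi a (z + i) = psi a z + 2 i` and `i_{k+2} = 2 i_{k+1} - i_k`; induction on `k`.
  `v_shift`: `phi a (z + i) = phi a z`.
* `Z_rev`: with `N` steps, the reversed sequence `k ↦ Z (N+1-k)` satisfies the recursion with noise
  `rev c N`: from `Z (j+2) = psi (Z (j+1)) - Z j + c j` with `j = N-1-k`. Induction on `k`.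
* `v_comp`: on the orbit `Z` of `N = n + m` steps let `v'` be the continuants of the reversed orbit.
  The sequences `k ↦ v k` and `k ↦ v' (N+1-k)` satisfy the same recursion
  `u (k+2) + u k = phi (Z (k+1)) u (k+1)`, so `v (k+1) v' (N+1-k) - v k v' (N-k)` does not depend on
  `k <= N`; compare `k = N` (`v' 1 = 1`, `v' 0 = 0`) and `k = n`. -/

set_option autoImplicit false
open Real Set

namespace Pool.Agent.Helper18.SG

open Pool.Agent.Helper78.SM (psi phi dphi)

lemma psi_add_int (a x : ℝ) (i : ℤ) : psi a (x + i) = psi a x + 2 * i := by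
  unfold psi
  have h : 2 * π * (x + i) = 2 * π * x + (i : ℝ) * (2 * π) := by ring
  rw [h, Real.sin_add_int_mul_two_pi]
  ring

lemma phi_add_int (a x : ℝ) (i : ℤ) : phi a (x + i) = phi a x := by
  unfold phi
  have h : 2 * π * (x + i) = 2 * π * x + (i : ℝ) * (2 * π) := by ring
  rw [h, Real.cos_add_int_mul_two_pi]

private lemma two_step50 (P : ℕ → Prop) (h0 : P 0) (h1 : P 1)
    (h2 : ∀ k, P k → P (k+1) → P (k+2)) (k : ℕ) : P k := by
  have key : P k ∧ P (k+1) := by
    induction k with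
    | zero => exact ⟨h0, h1⟩
    | succ k ih => exact ⟨ih.2, h2 k ih.1 ih.2⟩
  exact key.1

theorem Z_shift (a : ℝ) (c : ℕ → ℝ) (y x : ℝ) (i0 i1 : ℤ) (k : ℕ) :
    Z a c (y + i0) (x + i1) k = Z a c y x k + (i0 + k * (i1 - i0)) := by
  refine two_step50 (fun k => Z a c (y + i0) (x + i1) k = Z a c y x k + (i0 + k * (i1 - i0)))
    ?_ ?_ ?_ k
  · simp only [Z_zero]; push_cast; ring
  · simp only [Z_one]; push_cast; ring
  · intro k hk hk1
    rw [Z_rec, Z_rec, hk, hk1]
    have h : (Z a c y x (k+1) + ((i0 : ℝ) + ((k + 1 : ℕ) : ℝ) * ((i1 : ℝ) - (i0 : ℝ)))) =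
        Z a c y x (k+1) + ((i0 + ((k : ℤ) + 1) * (i1 - i0) : ℤ) : ℝ) := by
      push_cast; ring
    rw [h, psi_add_int]
    push_cast
    ring

theorem v_shift (a : ℝ) (c : ℕ → ℝ) (y x : ℝ) (i0 i1 : ℤ) (k : ℕ) :
    v a c (y + i0) (x + i1) k = v a c y x k := by
  refine two_step50 (fun k => v a c (y + i0) (x + i1) k = v a c y x k) ?_ ?_ ?_ k
  · simp only [v_zero]
  · simp only [v_one]
  · intro k hk hk1
    rw [v_rec, v_rec, hk, hk1, Z_shift]
    have h : (Z a c y x (k+1) + ((i0 : ℝ) + ((k + 1 : ℕ) : ℝ) * ((i1 : ℝ) - (i0 : ℝ)))) =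
        Z a c y x (k+1) + ((i0 + ((k : ℤ) + 1) * (i1 - i0) : ℤ) : ℝ) := by
      push_cast; ring
    rw [h, phi_add_int]

theorem W_shift (a : ℝ) (c : ℕ → ℝ) (y x : ℝ) (i0 i1 : ℤ) (k : ℕ) :
    W a c (y + i0) (x + i1) k = W a c y x k := by
  unfold W mx
  rw [v_shift, v_shift]

theorem Z_rev (a : ℝ) (c : ℕ → ℝ) (y x : ℝ) (N : ℕ) {k : ℕ} (hk : k ≤ N + 1) :
    Z a (rev c N) (Z a c y x (N+1)) (Z a c y x N) k = Z a c y x (N + 1 - k) := by
  revert hk
  refine two_step50 (fun k => k ≤ N + 1 →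
    Z a (rev c N) (Z a c y x (N+1)) (Z a c y x N) k = Z a c y x (N + 1 - k)) ?_ ?_ ?_ k
  · intro _
    simp only [Z_zero, Nat.sub_zero]
  · intro _
    simp only [Z_one, Nat.add_sub_cancel]
  · intro k hk hk1 hle
    obtain ⟨j, rfl⟩ : ∃ j, N = j + 1 + k := ⟨N - 1 - k, by omega⟩
    have e0 := hk (by omega)
    have e1 := hk1 (by omega)
    rw [Z_rec, e0, e1]
    have a0 : j + 1 + k + 1 - k = j + 2 := by omega
    have a1 : j + 1 + k + 1 - (k + 1) = j + 1 := by omega
    have a2 : j + 1 + k + 1 - (k + 2) = j := by omega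
    have a3 : rev c (j + 1 + k) k = c j := by
      unfold rev
      congr 1
      omega
    rw [a0, a1, a2, a3, Z_rec]
    ring

theorem v_comp (a : ℝ) (c : ℕ → ℝ) (y x : ℝ) (n m : ℕ) :
    v a c y x (n+m+1) =
      v a c y x (n+1) * v a (rev c (n+m)) (Z a c y x (n+m+1)) (Z a c y x (n+m)) (m+1) -
      v a c y x n * v a (rev c (n+m)) (Z a c y x (n+m+1)) (Z a c y x (n+m)) m := by
  have key : ∀ m n : ℕ, ∀ N, N = n + m → v a c y x (N+1) =
      v a c y x (n+1) * v a (rev c N) (Z a c y x (N+1)) (Z a c y x N) (m+1) -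
      v a c y x n * v a (rev c N) (Z a c y x (N+1)) (Z a c y x N) m := by
    intro m
    induction m with
    | zero =>
      intro n N hN
      rw [v_one, v_zero, hN, Nat.add_zero]
      ring
    | succ m ih =>
      intro n N hN
      have h := ih (n+1) N (by omega)
      have hz : Z a (rev c N) (Z a c y x (N+1)) (Z a c y x N) (m+1) = Z a c y x (n+1) := by
        rw [Z_rev a c y x N (k := m+1) (by omega)]
        congr 1
        omega
      rw [h, v_rec a c, v_rec a (rev c N) _ _ m, hz]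
      ring
  exact key m n (n+m) rfl

/-- the full continuant is invariant under time reversal -/
theorem v_rev (a : ℝ) (c : ℕ → ℝ) (y x : ℝ) (N : ℕ) :
    v a (rev c N) (Z a c y x (N+1)) (Z a c y x N) (N+1) = v a c y x (N+1) := by
  have h := v_comp a c y x 0 N
  simp only [Nat.zero_add, v_one, v_zero] at h
  rw [h]
  ring

/-- the middle state can be reconstructed from the final state: if `(c', t)` is any point, the orbit
started at time `n` in the state `(Z' (m+1), Z' m)` (read backwards) ends in `(c', t)` after `m`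
steps. Here `Z'` is the orbit of `(y, x) = (c', t)` with noise `rev c (n+m)`. -/
theorem Z_unrev (a : ℝ) (c : ℕ → ℝ) (y x c' t : ℝ) (n m : ℕ)
    (h1 : Z a c y x (n+1) = Z a (rev c (n+m)) c' t m)
    (h0 : Z a c y x n = Z a (rev c (n+m)) c' t (m+1)) {k : ℕ} (hk : k ≤ m + 1) :
    Z a c y x (n + m + 1 - k) = Z a (rev c (n+m)) c' t k := by
  have key : ∀ l, l ≤ m + 1 → Z a c y x (n + l) = Z a (rev c (n+m)) c' t (m + 1 - l) := by
    intro l
    refine two_step50 (fun l => l ≤ m + 1 →
      Z a c y x (n + l) = Z a (rev c (n+m)) c' t (m + 1 - l)) ?_ ?_ ?_ l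
    · intro _
      simpa using h0
    · intro _
      simpa using h1
    · intro l hl hl1 hle
      obtain ⟨j, rfl⟩ : ∃ j, m = j + 1 + l := ⟨m - 1 - l, by omega⟩
      have e0 := hl (by omega)
      have e1 := hl1 (by omega)
      have a0 : j + 1 + l + 1 - l = j + 2 := by omega
      have a1 : j + 1 + l + 1 - (l + 1) = j + 1 := by omega
      have a2 : j + 1 + l + 1 - (l + 2) = j := by omega
      have a3 : rev c (n + (j + 1 + l)) j = c (n + l) := by
        unfold rev
        congr 1
        omega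
      rw [a0, Z_rec, a3] at e0
      rw [a1] at e1
      have e2 : Z a c y x (n + (l + 2)) =
          psi a (Z a c y x (n + (l + 1))) - Z a c y x (n + l) + c (n + l) := Z_rec a c y x (n + l)
      rw [e2, a2, e0, e1]
      ring
  have h := key (m + 1 - k) (by omega)
  have b1 : n + m + 1 - k = n + (m + 1 - k) := by omega
  have b2 : m + 1 - (m + 1 - k) = k := by omega
  rw [b1, h, b2]

end Pool.Agent.Helper18.SG
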