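import Mathlib

/-! Block SG-CROSS: a nearly horizontal curve and a nearly vertical curve cross.

Proof. By symmetry (replace `U` by `-U`, `X` by `-X`) assume `U x0 < U x1`. For `t` in the interval
`X t` lies in `[U x0, U x1]`, so there is `x(t)` in `[q0, q1]` with `U (x(t)) = X t` and `x(t)` is
continuous in `t` (inverse of a continuous strictly monotone function on an interval; or use
`exists_unique` plus `StrictMonoOn.orderIso`/`ContinuousOn` of the inverse). Then
`G t = Y t - H (x(t))` is continuous on `[t0, t1]` and changes sign by `hlow`, `hhigh`; intermediate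
value theorem. Alternatively avoid the inverse: apply the Poincare-Miranda theorem, or extend. -/

set_option autoImplicit false
open Set

namespace Pool.Agent.Helper18.SG

theorem crossing {U H X Y : ℝ → ℝ} {q0 q1 t0 t1 : ℝ} (hq : q0 ≤ q1) (ht : t0 ≤ t1)
    (hUc : ContinuousOn U (Icc q0 q1)) (hHc : ContinuousOn H (Icc q0 q1))
    (hXc : ContinuousOn X (Icc t0 t1)) (hYc : ContinuousOn Y (Icc t0 t1))
    (hU : StrictMonoOn U (Icc q0 q1) ∨ StrictAntiOn U (Icc q0 q1))
    (hX : ∀ t ∈ Icc t0 t1, X t ∈ uIcc (U q0) (U q1))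
    (hY : (∀ x ∈ Icc q0 q1, Y t0 ≤ H x ∧ H x ≤ Y t1) ∨ (∀ x ∈ Icc q0 q1, Y t1 ≤ H x ∧ H x ≤ Y t0)) :
    ∃ x ∈ Icc q0 q1, ∃ t ∈ Icc t0 t1, U x = X t ∧ H x = Y t := by
  have hinj : InjOn U (Icc q0 q1) := by
    rcases hU with h | h
    · exact h.injOn
    · exact h.injOn
  have hcU : Continuous ((Icc q0 q1).domRestrict U) := continuousOn_iff_continuous_domRestrict.1 hUc
  have hemb : Topology.IsClosedEmbedding ((Icc q0 q1).domRestrict U) :=
    hcU.isClosedEmbedding (injOn_iff_injective.1 hinj)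
  have hex : ∀ t : Icc t0 t1, ∃ x : Icc q0 q1, (Icc q0 q1).domRestrict U x = X t := by
    intro t
    have h1 := intermediate_value_uIcc (a := q0) (b := q1) (f := U) (by rwa [uIcc_of_le hq])
    obtain ⟨x, hx, hxe⟩ := h1 (hX t t.2)
    rw [uIcc_of_le hq] at hx
    exact ⟨⟨x, hx⟩, hxe⟩
  choose g hg using hex
  have hgc : Continuous g := by
    rw [hemb.isInducing.continuous_iff]
    have : (Icc q0 q1).domRestrict U ∘ g = (Icc t0 t1).domRestrict X := by
      funext t
      exact hg t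
    rw [this]
    exact continuousOn_iff_continuous_domRestrict.1 hXc
  have hGc : Continuous fun t : Icc t0 t1 => Y t - H (g t) := by
    have hY' : Continuous ((Icc t0 t1).domRestrict Y) := continuousOn_iff_continuous_domRestrict.1 hYc
    have hH' : Continuous ((Icc q0 q1).domRestrict H) := continuousOn_iff_continuous_domRestrict.1 hHc
    exact hY'.sub (hH'.comp hgc)
  have : PreconnectedSpace (Icc t0 t1) := Subtype.preconnectedSpace isPreconnected_Icc
  have ha : t0 ∈ Icc t0 t1 := left_mem_Icc.2 ht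
  have hb : t1 ∈ Icc t0 t1 := right_mem_Icc.2 ht
  have hz : (0 : ℝ) ∈ range fun t : Icc t0 t1 => Y t - H (g t) := by
    rcases hY with h | h
    · refine mem_range_of_exists_le_of_exists_ge hGc ⟨⟨t0, ha⟩, ?_⟩ ⟨⟨t1, hb⟩, ?_⟩
      · exact sub_nonpos.2 (h _ (g ⟨t0, ha⟩).2).1
      · exact sub_nonneg.2 (h _ (g ⟨t1, hb⟩).2).2
    · refine mem_range_of_exists_le_of_exists_ge hGc ⟨⟨t1, hb⟩, ?_⟩ ⟨⟨t0, ha⟩, ?_⟩
      · exact sub_nonpos.2 (h _ (g ⟨t1, hb⟩).2).1
      · exact sub_nonneg.2 (h _ (g ⟨t0, ha⟩).2).2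
  obtain ⟨t, htz⟩ := hz
  exact ⟨g t, (g t).2, t, t.2, hg t, (sub_eq_zero.1 htz).symm⟩

end Pool.Agent.Helper18.SG
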