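import Mathlib
import Pool.Agent.Helper18.SG.Defs

/-! Block SG-P: lower bound for the measure of the points of a good interval `Q = [q0, q1)` (length
`≈ b ^ 2 / W n`, `n` hyperbolic time) whose state after `n + m` steps lies (mod `ℤ ^ 2`) in a good
rectangle `C × V`, `C = [c0, c1)`, `V = [t0, t1)`: it is at least `(1 - 1 / b) |Q| |C| |V|`.

Notation: `U x = Z x (n+1)`, `H x = Z x n` (middle state); `Z' (c', t)` orbit with noise
`rev c (n+m)` started from `(y, x) = (c', t)` (the final state read backwards), `X (c', t) = Z' m`,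
`Y (c', t) = Z' (m+1)`; `w = W n` at the reference point `x0` of `Q`, `w' = W m` at the reference
point `(cs, ts)` of the rectangle.

Step 1 (`exists_cross`). Let `i j : ℤ` be such that `X t + i` is in the open interval between `U q0`
and `U q1` for all `t`, and `Y (c', ·) + j` goes from strictly below `H` to strictly above `H` on
`[t0, t1]`. Then by `crossing` there are `x ∈ Ico q0 q1`, `t ∈ Ico t0 t1` with `U x = X (c', t) + i`,
`H x = Y (c', t) + j`, and then (`Z_unrev`, `Z_shift`) the final state of `x` is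
`Z x (n+m+1) = c' + k1`, `Z x (n+m) = t + k2` with the integers
`k1 = i + m (i - j)`, `k2 = i + (m - 1) (i - j)` (the integer sequence which is `j` at time `n` and `i`
at time `n+1`). The map `(i, j) ↦ (k1, k2)` is injective.

Step 2 (counting). `|U q1 - U q0| >= (1 - 480 / b ^ 2) w |Q|` (`q_len`), `X (cs, ·)` varies by at most
`1 / b ^ 4` (`q_flat` for the reversed orbit) and `|X (c', t) - X (cs, t)| <= 1 / 100`: so all
`X (c', t)` lie in an interval of length `0.03`, and at least `|U q1 - U q0| - 2` integers `i` are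
admissible for all `c' ∈ C` at the same time. In the same way at least
`(1 - 480 / b ^ 2) w' |V| - 2` integers `j` are admissible for all `c' ∈ C` (`H` varies by at most
`1 / b ^ 4` on `Q`, `Y (cs, ·)` has increment `>= (1 - 480 / b ^ 2) w' |V|` over `V` and
`|Y (c', t) - Y (cs, t)| <= 1 / 100`).

Step 3 (`E k1 k2`). Let `E (k1, k2)` be the set of `x ∈ Ico q0 q1` with `Z x (n+m+1) - k1 ∈ C` and
`Z x (n+m) - k2 ∈ V`. These sets are measurable and pairwise disjoint (`C, V ⊆ [0, 1)`). If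
`(k1, k2)` comes from an admissible `(i, j)`, then `x ↦ Z x (n+m+1) - k1` maps `E (k1, k2)` onto `C`,
and its derivative there, `v x (n+m+1)`, is in absolute value at most
`M = (1 + 2000 / b ^ 2) w w'` by `v_comp`: `|v x (n+1)| <= (1 + 480 / b ^ 2) w`,
`|v x n| <= w / b ^ 6`, `|v' (m+1)| <= (1 + 480 / b ^ 2) w' + 1 / b ^ 2`, `|v' m| <= w' / b ^ 6 + 1 / b ^ 2`
(`q_int` for both, `w' >= b ^ 7`). So `|C| <= M |E (k1, k2)|`
(`MeasureTheory.addHaar_image_le_lintegral_abs_det_fderiv` or the Lipschitz version).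

Step 4. Sum over at least `(w |Q| (1 - 484 / b ^ 2)) (w' |V| (1 - 484 / b ^ 2))` admissible pairs
(use `w |Q| > b ^ 2 / 2`, `w' |V| > b ^ 2 / 2`):
`|⋃ E| >= w |Q| w' |V| (1 - 484 / b ^ 2) ^ 2 |C| / ((1 + 2000 / b ^ 2) w w') >= (1 - 1 / b) |Q| |C| |V|`. -/

set_option autoImplicit false
open Real Set MeasureTheory

namespace Pool.Agent.Helper18.SG

/-- good rectangle for the (reversed) noise `c` and time `m` -/
structure GoodRect (a b : ℝ) (c : ℕ → ℝ) (m : ℕ) (c0 c1 t0 t1 : ℝ) : Prop where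
  hc0 : 0 ≤ c0
  hc : c0 < c1
  hc1 : c1 ≤ 1
  ht0 : 0 ≤ t0
  ht : t0 < t1
  ht1 : t1 ≤ 1
  ref : ∃ cs ∈ Ico c0 c1, ∃ ts ∈ Icc t0 t1, HypS b (W a c cs ts) m ∧
    b ^ 2 / 2 < W a c cs ts m * (t1 - t0) ∧ W a c cs ts m * (t1 - t0) ≤ b ^ 2 ∧
    ∀ c' ∈ Ico c0 c1, ∀ t ∈ Icc t0 t1,
      (|Z a c c' t m - Z a c cs t m| ≤ 1 / 100 ∧ |Z a c c' t (m+1) - Z a c cs t (m+1)| ≤ 1 / 100) ∧
      (|v a c c' t m - v a c cs t m| ≤ 1 / b ^ 2 ∧ |v a c c' t (m+1) - v a c cs t (m+1)| ≤ 1 / b ^ 2)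

end Pool.Agent.Helper18.SG
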