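import Mathlib
import Pool.Agent.Helper18.SG.PDef
import Pool.Agent.Helper18.SG.CalcA
import Pool.Agent.Helper18.SG.CalcB
import Pool.Agent.Helper18.SG.Cross

/-! Block SG-P1: Step 1 of the plan in `PDef.lean`. Use `crossing` (with `X t + i`, `Y t + j`), strictness gives
the open intervals; then `Z_unrev` for the orbit of `(c' + i0, t + i1)`, `i1 - i0 = j - i`, `i0 = i - m (j - i)`
(`Z_shift`). -/

set_option autoImplicit false
open Real Set MeasureTheory

namespace Pool.Agent.Helper18.SG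

/-- Step 1 -/
theorem exists_cross {a : ℝ} {c : ℕ → ℝ} {y q0 q1 t0 t1 : ℝ} {n m : ℕ} (hq : q0 < q1) (ht : t0 < t1)
    (c' : ℝ) (i j : ℤ)
    (hU : StrictMonoOn (fun x => Z a c y x (n+1)) (Icc q0 q1) ∨
      StrictAntiOn (fun x => Z a c y x (n+1)) (Icc q0 q1))
    (hX : ∀ t ∈ Icc t0 t1, (Z a c y q0 (n+1) < Z a (rev c (n+m)) c' t m + i ∧
        Z a (rev c (n+m)) c' t m + i < Z a c y q1 (n+1)) ∨
      (Z a c y q1 (n+1) < Z a (rev c (n+m)) c' t m + i ∧
        Z a (rev c (n+m)) c' t m + i < Z a c y q0 (n+1)))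
    (hY : (∀ x ∈ Icc q0 q1, Z a (rev c (n+m)) c' t0 (m+1) + j < Z a c y x n ∧
        Z a c y x n < Z a (rev c (n+m)) c' t1 (m+1) + j) ∨
      (∀ x ∈ Icc q0 q1, Z a (rev c (n+m)) c' t1 (m+1) + j < Z a c y x n ∧
        Z a c y x n < Z a (rev c (n+m)) c' t0 (m+1) + j)) :
    ∃ x ∈ Ioo q0 q1, ∃ t ∈ Ioo t0 t1,
      Z a c y x (n+m+1) = c' + ((i + m * (i - j) : ℤ) : ℝ) ∧
      Z a c y x (n+m) = t + ((i + ((m:ℤ) - 1) * (i - j) : ℤ) : ℝ) := by
  have hcx : ∀ k, Continuous (fun x : ℝ => Z a c y x k) := fun k =>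
    (continuous_Z a c k).comp (Continuous.prodMk_right y)
  have hct : ∀ k, Continuous (fun t : ℝ => Z a (rev c (n+m)) c' t k) := fun k =>
    (continuous_Z a (rev c (n+m)) k).comp (Continuous.prodMk_right c')
  obtain ⟨x, hx, t, htt, h1, h0⟩ := crossing (U := fun x => Z a c y x (n+1))
    (H := fun x => Z a c y x n) (X := fun t => Z a (rev c (n+m)) c' t m + i)
    (Y := fun t => Z a (rev c (n+m)) c' t (m+1) + j) hq.le ht.le
    (hcx (n+1)).continuousOn (hcx n).continuousOn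
    ((hct m).add continuous_const).continuousOn ((hct (m+1)).add continuous_const).continuousOn
    hU
    (by
      intro t htt
      rcases hX t htt with h | h
      · exact mem_uIcc.2 (Or.inl ⟨h.1.le, h.2.le⟩)
      · exact mem_uIcc.2 (Or.inr ⟨h.1.le, h.2.le⟩))
    (by
      rcases hY with h | h
      · exact Or.inl fun x hx => ⟨(h x hx).1.le, (h x hx).2.le⟩
      · exact Or.inr fun x hx => ⟨(h x hx).1.le, (h x hx).2.le⟩)
  have hx0 : x ≠ q0 := by
    rintro rfl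
    rcases hX t htt with h | h <;> linarith [h.1, h.2]
  have hx1 : x ≠ q1 := by
    rintro rfl
    rcases hX t htt with h | h <;> linarith [h.1, h.2]
  have ht0 : t ≠ t0 := by
    rintro rfl
    rcases hY with h | h <;> linarith [(h x hx).1, (h x hx).2]
  have ht1 : t ≠ t1 := by
    rintro rfl
    rcases hY with h | h <;> linarith [(h x hx).1, (h x hx).2]
  have hs : ∀ k : ℕ, Z a (rev c (n+m)) (c' + ((i + m * (i - j) : ℤ) : ℝ))
      (t + ((i + ((m:ℤ) - 1) * (i - j) : ℤ) : ℝ)) k =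
      Z a (rev c (n+m)) c' t k + ((i : ℝ) + m * (i - j) - k * (i - j)) := by
    intro k
    rw [Z_shift]
    push_cast
    ring
  have e1 : Z a c y x (n+1) = Z a (rev c (n+m)) (c' + ((i + m * (i - j) : ℤ) : ℝ))
      (t + ((i + ((m:ℤ) - 1) * (i - j) : ℤ) : ℝ)) m := by
    rw [hs, h1]; ring
  have e0 : Z a c y x n = Z a (rev c (n+m)) (c' + ((i + m * (i - j) : ℤ) : ℝ))
      (t + ((i + ((m:ℤ) - 1) * (i - j) : ℤ) : ℝ)) (m+1) := by
    rw [hs, h0]; push_cast; ring
  refine ⟨x, ⟨lt_of_le_of_ne hx.1 (Ne.symm hx0), lt_of_le_of_ne hx.2 hx1⟩, t,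
    ⟨lt_of_le_of_ne htt.1 (Ne.symm ht0), lt_of_le_of_ne htt.2 ht1⟩, ?_, ?_⟩
  · have := Z_unrev a c y x _ _ n m e1 e0 (k := 0) (by omega)
    rw [Z_zero] at this
    simpa using this
  · have := Z_unrev a c y x _ _ n m e1 e0 (k := 1) (by omega)
    rw [Z_one] at this
    simpa using this

end Pool.Agent.Helper18.SG
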