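import Mathlib
import Pool.Agent.Helper18.SG.Defs

/-! Block SG-LIN: linear perturbation lemma.

Proof. Put `V k = mx v k`, `w k = v (k+1) * g k - v k * g (k+1)` (Wronskian). Then `w 0 = 0` and
`w (k+1) = w k - r k * v (k+1)`, so `|w k| <= Wb k := ∑ j<k |r j| V j` (as `|v (j+1)| <= V j`).
`V k > 0` for all `k` (if `v (k+1) = v k = 0` then going back `v 1 = v 0 = 0`).
Choose at every `k` the pivot index `p = k+1` if `|v k| <= |v (k+1)|`, else `p = k`, so `|v p| = V k`,
and put `t k = g p / v p`. The remainders satisfy `|g (k+1) - t k * v (k+1)| <= |w k| / V k` and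
`|g k - t k * v k| <= |w k| / V k` (one of them is `0`, the other one is `± w k / v p`). Hence
`|g (k+1)|, |g k| <= V k |t k| + |w k| / V k`.
Step: `g (k+2) - t k v (k+2) = f (k+1) ρ1 - ρ2 + r k` with `|ρi| <= |w k| / V k`, hence
`|g (k+2) - t k v (k+2)| <= D |w k| / V k + |r k|`, and `|g (k+1) - t k v (k+1)| <= |w k| / V k` too;
dividing by the pivot `|v p'| = V (k+1)` of time `k+1`:
`|t (k+1) - t k| <= (D |w k| / V k + |r k|) / V (k+1)`. Sum up from `t 0 = 0` (`g 1 = 0`, `v 1 = 1`). -/

set_option autoImplicit false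
open Real

namespace Pool.Agent.Helper18.SG

lemma mx_pos {f u : ℕ → ℝ} (h1 : u 1 = 1) (hu : ∀ k, u (k+2) = f (k+1) * u (k+1) - u k) (k : ℕ) :
    0 < mx u k := by
  have key : ∀ k, ¬ (u (k+1) = 0 ∧ u k = 0) := by
    intro k
    induction k with
    | zero =>
      rintro ⟨h, _⟩
      rw [zero_add, h1] at h
      exact one_ne_zero h
    | succ k ih =>
      rintro ⟨h, h'⟩
      have h2 := hu k
      rw [show k + 1 + 1 = k + 2 from rfl] at h
      rw [h, h'] at h2
      exact ih ⟨h', by linarith⟩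
  unfold mx
  by_contra hn
  push Not at hn
  have ha := le_trans (le_max_left _ _) hn
  have hb := le_trans (le_max_right _ _) hn
  exact key k ⟨abs_eq_zero.1 (le_antisymm ha (abs_nonneg _)),
    abs_eq_zero.1 (le_antisymm hb (abs_nonneg _))⟩

private noncomputable def piv (v g : ℕ → ℝ) (k : ℕ) : ℝ :=
  if |v k| ≤ |v (k+1)| then g (k+1) / v (k+1) else g k / v k

private lemma piv_bd {v g : ℕ → ℝ} (k : ℕ) (hV : 0 < mx v k) :
    |g (k+1) - piv v g k * v (k+1)| ≤ |v (k+1) * g k - v k * g (k+1)| / mx v k ∧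
      |g k - piv v g k * v k| ≤ |v (k+1) * g k - v k * g (k+1)| / mx v k := by
  have h0 : 0 ≤ |v (k+1) * g k - v k * g (k+1)| / mx v k := div_nonneg (abs_nonneg _) hV.le
  unfold piv
  by_cases h : |v k| ≤ |v (k+1)|
  · rw [if_pos h]
    have hm : mx v k = |v (k+1)| := by unfold mx; exact max_eq_left h
    have hne : v (k+1) ≠ 0 := by
      intro h'
      rw [hm, h', abs_zero] at hV
      exact lt_irrefl _ hV
    constructor
    · rw [div_mul_cancel₀ _ hne, sub_self, abs_zero]; exact h0
    · rw [hm, ← abs_div]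
      apply le_of_eq
      congr 1
      field_simp
  · rw [if_neg h]
    push Not at h
    have hm : mx v k = |v k| := by unfold mx; exact max_eq_right h.le
    have hne : v k ≠ 0 := by
      intro h'
      rw [hm, h', abs_zero] at hV
      exact lt_irrefl _ hV
    constructor
    · rw [hm, ← abs_div, ← abs_neg]
      apply le_of_eq
      congr 1
      field_simp
      ring
    · rw [div_mul_cancel₀ _ hne, sub_self, abs_zero]; exact h0

private lemma piv_step {v g : ℕ → ℝ} (k : ℕ) (t B : ℝ) (hV : 0 < mx v k)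
    (h1 : |g (k+1) - t * v (k+1)| ≤ B) (h2 : |g k - t * v k| ≤ B) :
    |piv v g k - t| ≤ B / mx v k := by
  rw [le_div_iff₀ hV]
  unfold piv
  by_cases h : |v k| ≤ |v (k+1)|
  · rw [if_pos h]
    have hm : mx v k = |v (k+1)| := by unfold mx; exact max_eq_left h
    have hne : v (k+1) ≠ 0 := by
      intro h'
      rw [hm, h', abs_zero] at hV
      exact lt_irrefl _ hV
    rw [hm, ← abs_mul, sub_mul, div_mul_cancel₀ _ hne]
    exact h1
  · rw [if_neg h]
    push Not at h
    have hm : mx v k = |v k| := by unfold mx; exact max_eq_right h.le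
    have hne : v k ≠ 0 := by
      intro h'
      rw [hm, h', abs_zero] at hV
      exact lt_irrefl _ hV
    rw [hm, ← abs_mul, sub_mul, div_mul_cancel₀ _ hne]
    exact h2

theorem lin_pert {f v g r : ℕ → ℝ} {D : ℝ} (hD : ∀ k, |f k| + 1 ≤ D)
    (hv0 : v 0 = 0) (hv1 : v 1 = 1) (hv : ∀ k, v (k+2) = f (k+1) * v (k+1) - v k)
    (hg0 : g 0 = 0) (hg1 : g 1 = 0) (hg : ∀ k, g (k+2) = f (k+1) * g (k+1) - g k + r k) (k : ℕ) :
    mx g k ≤ mx v k * (∑ i ∈ Finset.range k,
      (D * (∑ j ∈ Finset.range i, |r j| * mx v j) / (mx v i * mx v (i+1)) + |r i| / mx v (i+1))) +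
      (∑ j ∈ Finset.range k, |r j| * mx v j) / mx v k := by
  have hV : ∀ k, 0 < mx v k := mx_pos hv1 hv
  have hD1 : 1 ≤ D := le_trans (by linarith [abs_nonneg (f 0)]) (hD 0)
  -- Wronskian
  have hw : ∀ k, |v (k+1) * g k - v k * g (k+1)| ≤ ∑ j ∈ Finset.range k, |r j| * mx v j := by
    intro k
    induction k with
    | zero => rw [hg0, hv0]; simp
    | succ k ih =>
      rw [Finset.sum_range_succ]
      have e : v (k+1+1) * g (k+1) - v (k+1) * g (k+1+1) =
          (v (k+1) * g k - v k * g (k+1)) - r k * v (k+1) := by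
        rw [show k+1+1 = k+2 from rfl, hv k, hg k]; ring
      rw [e]
      have h1 : |r k * v (k+1)| ≤ |r k| * mx v k := by
        rw [abs_mul]
        exact mul_le_mul_of_nonneg_left (le_max_left _ _) (abs_nonneg _)
      calc |(v (k+1) * g k - v k * g (k+1)) - r k * v (k+1)|
          ≤ |v (k+1) * g k - v k * g (k+1)| + |r k * v (k+1)| := abs_sub _ _
        _ ≤ _ := add_le_add ih h1
  have hstep : ∀ k, |piv v g (k+1) - piv v g k| ≤
      D * (∑ j ∈ Finset.range k, |r j| * mx v j) / (mx v k * mx v (k+1)) +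
        |r k| / mx v (k+1) := by
    intro k
    obtain ⟨b1, b2⟩ := piv_bd (g := g) k (hV k)
    set ρ := |v (k+1) * g k - v k * g (k+1)| / mx v k with hρ
    have hρ0 : 0 ≤ ρ := div_nonneg (abs_nonneg _) (hV k).le
    have c1 : |g (k+2) - piv v g k * v (k+2)| ≤ D * ρ + |r k| := by
      have e : g (k+2) - piv v g k * v (k+2) =
          f (k+1) * (g (k+1) - piv v g k * v (k+1)) - (g k - piv v g k * v k) + r k := by
        rw [hv k, hg k]; ring
      rw [e]
      have h1 : |f (k+1) * (g (k+1) - piv v g k * v (k+1))| ≤ |f (k+1)| * ρ := by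
        rw [abs_mul]
        exact mul_le_mul_of_nonneg_left b1 (abs_nonneg _)
      have h2 : (|f (k+1)| + 1) * ρ ≤ D * ρ := mul_le_mul_of_nonneg_right (hD (k+1)) hρ0
      calc |f (k+1) * (g (k+1) - piv v g k * v (k+1)) - (g k - piv v g k * v k) + r k|
          ≤ |f (k+1) * (g (k+1) - piv v g k * v (k+1)) - (g k - piv v g k * v k)| + |r k| :=
            abs_add_le _ _
        _ ≤ (|f (k+1) * (g (k+1) - piv v g k * v (k+1))| + |g k - piv v g k * v k|) + |r k| := by
            gcongr; exact abs_sub _ _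
        _ ≤ D * ρ + |r k| := by linarith
    have c2 : |g (k+1) - piv v g k * v (k+1)| ≤ D * ρ + |r k| := by
      have : ρ ≤ D * ρ := le_mul_of_one_le_left hρ0 hD1
      linarith [abs_nonneg (r k)]
    have h3 := piv_step (v := v) (g := g) (k+1) (piv v g k) (D * ρ + |r k|) (hV (k+1)) c1 c2
    refine le_trans h3 ?_
    rw [add_div]
    have h4 : D * ρ / mx v (k+1) ≤
        D * (∑ j ∈ Finset.range k, |r j| * mx v j) / (mx v k * mx v (k+1)) := by
      rw [hρ, mul_div_assoc', div_div]
      apply div_le_div_of_nonneg_right _ (mul_pos (hV k) (hV (k+1))).le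
      exact mul_le_mul_of_nonneg_left (hw k) (by linarith)
    linarith
  have ht : ∀ k, |piv v g k| ≤ ∑ i ∈ Finset.range k,
      (D * (∑ j ∈ Finset.range i, |r j| * mx v j) / (mx v i * mx v (i+1)) +
        |r i| / mx v (i+1)) := by
    intro k
    induction k with
    | zero =>
      have : piv v g 0 = 0 := by
        unfold piv
        rw [if_pos (by rw [hv0, abs_zero]; exact abs_nonneg _), zero_add, hg1, zero_div]
      rw [this]; simp
    | succ k ih =>
      rw [Finset.sum_range_succ]
      have h1 := hstep k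
      have h2 : |piv v g (k+1)| ≤ |piv v g k| + |piv v g (k+1) - piv v g k| := by
        have := abs_add_le (piv v g k) (piv v g (k+1) - piv v g k)
        rwa [add_sub_cancel] at this
      linarith
  obtain ⟨b1, b2⟩ := piv_bd (g := g) k (hV k)
  have hWk : |v (k+1) * g k - v k * g (k+1)| / mx v k ≤
      (∑ j ∈ Finset.range k, |r j| * mx v j) / mx v k :=
    div_le_div_of_nonneg_right (hw k) (hV k).le
  have htk := mul_le_mul_of_nonneg_left (ht k) (hV k).le
  have a1 : |g (k+1)| ≤ mx v k * |piv v g k| + |v (k+1) * g k - v k * g (k+1)| / mx v k := by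
    have h1 := abs_add_le (piv v g k * v (k+1)) (g (k+1) - piv v g k * v (k+1))
    rw [add_sub_cancel, abs_mul] at h1
    have h2 : |piv v g k| * |v (k+1)| ≤ |piv v g k| * mx v k :=
      mul_le_mul_of_nonneg_left (le_max_left _ _) (abs_nonneg _)
    linarith
  have a2 : |g k| ≤ mx v k * |piv v g k| + |v (k+1) * g k - v k * g (k+1)| / mx v k := by
    have h1 := abs_add_le (piv v g k * v k) (g k - piv v g k * v k)
    rw [add_sub_cancel, abs_mul] at h1
    have h2 : |piv v g k| * |v k| ≤ |piv v g k| * mx v k :=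
      mul_le_mul_of_nonneg_left (le_max_right _ _) (abs_nonneg _)
    linarith
  have : mx g k ≤ mx v k * |piv v g k| + |v (k+1) * g k - v k * g (k+1)| / mx v k :=
    max_le a1 a2
  linarith

end Pool.Agent.Helper18.SG
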