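import Mathlib
import Pool.Agent.Helper18.SG.Defs

/-! Block SG-NUM: the sums of the perturbation lemma at a hyperbolic time.

Proof. `HypS` with `(j, n)`: `V j / V n <= b ^ (-7 (n-j))`. With `(i, i+1)`:
`V i / V (i+1) <= b ^ (2 (n-i) - 9)`; with `(j, i)`: `V j / V i <= b ^ (2 (n-j) - 9 (i-j))`.
* `V i ^ 2 / V (i+1) <= V n * b ^ (-9 - 5 (n-i))`, `n - i >= 1`; the sum over `i < k <= n` is at most
  `V n * b ^ (-14) / (1 - b ^ (-5))`.
* `V j ^ 3 / (V i V (i+1)) <= V n * b ^ (-3 (n-j) - 18 (i-j) - 9)` for `j < i < k <= n`; the double sum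
  times `D <= 10 b ^ 10` is at most `20 b ^ (-23) V n`.
* `V j ^ 3 / V k ^ 2 <= V n * b ^ (-3 (n-j) - 18 (k-j))`, sum over `j < k` at most `2 b ^ (-21) V n`.
Total at most `3 V n / b ^ 14`. -/

set_option autoImplicit false
open Real

namespace Pool.Agent.Helper18.SG

private lemma geo26 {q : ℝ} (hq0 : 0 ≤ q) (hq : q ≤ 1 / 2) (k : ℕ) :
    ∑ i ∈ Finset.range k, q ^ (k - i) ≤ 2 * q := by
  induction k with
  | zero => simp; exact hq0
  | succ k ih =>
    rw [Finset.sum_range_succ]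
    have h1 : ∑ i ∈ Finset.range k, q ^ (k + 1 - i) = q * ∑ i ∈ Finset.range k, q ^ (k - i) := by
      rw [Finset.mul_sum]
      apply Finset.sum_congr rfl
      intro i hi
      have hik := Finset.mem_range.1 hi
      rw [show k + 1 - i = (k - i) + 1 by omega, pow_succ, mul_comm]
    rw [h1, show k + 1 - k = 1 by omega, pow_one]
    nlinarith

private lemma geo26' {q : ℝ} (hq0 : 0 ≤ q) (hq : q ≤ 1 / 2) {k n : ℕ} (hk : k ≤ n) :
    ∑ i ∈ Finset.range k, q ^ (n - i) ≤ 2 * q := by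
  refine le_trans (Finset.sum_le_sum fun i hi => ?_) (geo26 hq0 hq k)
  exact pow_le_pow_of_le_one hq0 (by linarith) (by omega)

theorem hyp_sum {b D : ℝ} {V : ℕ → ℝ} {n : ℕ} (hb : 1000 ≤ b) (hD0 : 0 ≤ D) (hD : D ≤ 10 * b ^ 10)
    (hV : ∀ k, 0 < V k) (hH : HypS b V n) {k : ℕ} (hk : k ≤ n) :
    (∑ i ∈ Finset.range k, (D * (∑ j ∈ Finset.range i, V j ^ 3) / (V i * V (i+1)) +
      V i ^ 2 / V (i+1))) + (∑ j ∈ Finset.range k, V j ^ 3) / V k ^ 2 ≤ 3 * V n / b ^ 14 := by
  have hb0 : 0 < b := by linarith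
  obtain ⟨r, hr⟩ : ∃ r, r = b⁻¹ := ⟨_, rfl⟩
  have hr0 : 0 < r := by rw [hr]; positivity
  have hbr : b * r = 1 := by rw [hr]; exact mul_inv_cancel₀ hb0.ne'
  have hrs : r ≤ 1 / 1000 := by
    rw [hr, one_div]
    exact inv_anti₀ (by norm_num) hb
  have hr1 : r ≤ 1 := by linarith
  have hpow : ∀ m : ℕ, b ^ m * r ^ m = 1 := fun m => by rw [← mul_pow, hbr, one_pow]
  have hVn := hV n
  -- growth between two times
  have hB : ∀ j i, j ≤ i → i ≤ n → V j ≤ b ^ (2 * (n - j)) * r ^ (9 * (i - j)) * V i := by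
    intro j i hji hin
    have h := hH j i hji hin
    have h2 := mul_le_mul_of_nonneg_right h (pow_pos hr0 (9 * (i - j))).le
    rw [mul_assoc, hpow, mul_one] at h2
    calc V j ≤ _ := h2
      _ = _ := by ring
  have hA : ∀ j, j ≤ n → V j ≤ V n * r ^ (7 * (n - j)) := by
    intro j hj
    have h := hB j n hj le_rfl
    have e : b ^ (2 * (n - j)) * r ^ (9 * (n - j)) = r ^ (7 * (n - j)) := by
      rw [show 9 * (n - j) = 2 * (n - j) + 7 * (n - j) by ring, pow_add, ← mul_assoc, hpow, one_mul]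
    rw [e] at h
    linarith
  -- the three types of terms
  have h1 : ∀ i, i < k → V i ^ 2 / V (i+1) ≤ V n * r ^ 9 * (r ^ 5) ^ (n - i) := by
    intro i hi
    rw [div_le_iff₀ (hV _)]
    have e1 := hB i (i+1) (by omega) (by omega)
    rw [show i + 1 - i = 1 by omega, mul_one] at e1
    have e2 := hA i (by omega)
    have e3 : b ^ (2 * (n - i)) * r ^ (7 * (n - i)) = (r ^ 5) ^ (n - i) := by
      rw [show 7 * (n - i) = 2 * (n - i) + 5 * (n - i) by ring, pow_add, ← mul_assoc, hpow, one_mul,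
        pow_mul]
    calc V i ^ 2 = V i * V i := by ring
      _ ≤ (V n * r ^ (7 * (n - i))) * (b ^ (2 * (n - i)) * r ^ 9 * V (i+1)) :=
          mul_le_mul e2 e1 (hV i).le (by positivity)
      _ = V n * r ^ 9 * (b ^ (2 * (n - i)) * r ^ (7 * (n - i))) * V (i+1) := by ring
      _ = _ := by rw [e3]
  have hkey : ∀ p : ℕ, b ^ (2 * p) * b ^ (2 * p) * r ^ (7 * p) = r ^ (3 * p) := by
    intro p
    rw [← pow_add, show 7 * p = (2 * p + 2 * p) + 3 * p by ring, pow_add r, ← mul_assoc, hpow, one_mul]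
  have h2 : ∀ i, i < k → ∀ j, j < i → V j ^ 3 ≤
      V n * r ^ 9 * (r ^ 3) ^ (n - i) * (r ^ 21) ^ (i - j) * (V i * V (i+1)) := by
    intro i hi j hj
    have e1 := hB j i hj.le (by omega)
    have e2 := hB j (i+1) (by omega) (by omega)
    have e3 := hA j (by omega)
    have hVi := hV i
    have hVi1 := hV (i+1)
    have hVj := hV j
    calc V j ^ 3 = V j * V j * V j := by ring
      _ ≤ (V n * r ^ (7 * (n - j))) * (b ^ (2 * (n - j)) * r ^ (9 * (i - j)) * V i) *
          (b ^ (2 * (n - j)) * r ^ (9 * (i + 1 - j)) * V (i+1)) := by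
          apply mul_le_mul _ e2 hVj.le (by positivity)
          exact mul_le_mul e3 e1 hVj.le (by positivity)
      _ = V n * (b ^ (2 * (n - j)) * b ^ (2 * (n - j)) * r ^ (7 * (n - j))) *
          (r ^ (9 * (i - j)) * r ^ (9 * (i + 1 - j))) * (V i * V (i+1)) := by ring
      _ = _ := by
          rw [hkey, ← pow_add, ← pow_mul, ← pow_mul]
          have e : V n * r ^ (3 * (n - j)) * r ^ (9 * (i - j) + 9 * (i + 1 - j)) =
              V n * (r ^ (3 * (n - j) + (9 * (i - j) + 9 * (i + 1 - j)))) := by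
            rw [pow_add r (3 * (n - j))]; ring
          rw [e]
          have e' : V n * r ^ 9 * r ^ (3 * (n - i)) * r ^ (21 * (i - j)) =
              V n * (r ^ (9 + (3 * (n - i)) + 21 * (i - j))) := by
            rw [pow_add, pow_add]; ring
          rw [e']
          congr 3
          omega
  have h3 : ∀ j, j < k → V j ^ 3 ≤ V n * (r ^ 21) ^ (k - j) * V k ^ 2 := by
    intro j hj
    have e1 := hB j k hj.le hk
    have e3 := hA j (by omega)
    have hVk := hV k
    have hVj := hV j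
    calc V j ^ 3 = V j * V j * V j := by ring
      _ ≤ (V n * r ^ (7 * (n - j))) * (b ^ (2 * (n - j)) * r ^ (9 * (k - j)) * V k) *
          (b ^ (2 * (n - j)) * r ^ (9 * (k - j)) * V k) := by
          apply mul_le_mul _ e1 hVj.le (by positivity)
          exact mul_le_mul e3 e1 hVj.le (by positivity)
      _ = V n * (b ^ (2 * (n - j)) * b ^ (2 * (n - j)) * r ^ (7 * (n - j))) *
          (r ^ (9 * (k - j)) * r ^ (9 * (k - j))) * V k ^ 2 := by ring
      _ ≤ _ := by
          rw [hkey, ← pow_add, ← pow_mul]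
          apply mul_le_mul_of_nonneg_right _ (by positivity)
          rw [mul_assoc, ← pow_add]
          apply mul_le_mul_of_nonneg_left _ hVn.le
          exact pow_le_pow_of_le_one hr0.le hr1 (by omega)
  have hq5 : r ^ 5 ≤ 1 / 2 := le_trans (pow_le_of_le_one hr0.le hr1 (by norm_num)) (by linarith)
  have hq3 : r ^ 3 ≤ 1 / 2 := le_trans (pow_le_of_le_one hr0.le hr1 (by norm_num)) (by linarith)
  have hq21 : r ^ 21 ≤ 1 / 2 := le_trans (pow_le_of_le_one hr0.le hr1 (by norm_num)) (by linarith)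
  -- first sum
  have s1 : ∑ i ∈ Finset.range k, V i ^ 2 / V (i+1) ≤ V n * r ^ 9 * (2 * r ^ 5) := by
    calc ∑ i ∈ Finset.range k, V i ^ 2 / V (i+1) ≤
        ∑ i ∈ Finset.range k, V n * r ^ 9 * (r ^ 5) ^ (n - i) :=
          Finset.sum_le_sum fun i hi => h1 i (Finset.mem_range.1 hi)
      _ = V n * r ^ 9 * ∑ i ∈ Finset.range k, (r ^ 5) ^ (n - i) := by rw [Finset.mul_sum]
      _ ≤ _ := mul_le_mul_of_nonneg_left (geo26' (by positivity) hq5 hk) (by positivity)
  -- second sum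
  have s2 : ∑ i ∈ Finset.range k, D * (∑ j ∈ Finset.range i, V j ^ 3) / (V i * V (i+1)) ≤
      D * (V n * r ^ 9 * (2 * r ^ 21)) * (2 * r ^ 3) := by
    have e1 : ∀ i ∈ Finset.range k, D * (∑ j ∈ Finset.range i, V j ^ 3) / (V i * V (i+1)) ≤
        D * (V n * r ^ 9 * (2 * r ^ 21)) * (r ^ 3) ^ (n - i) := by
      intro i hi
      have hik := Finset.mem_range.1 hi
      have hVi := hV i
      have hVi1 := hV (i+1)
      rw [div_le_iff₀ (by positivity)]
      have e2 : ∑ j ∈ Finset.range i, V j ^ 3 ≤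
          V n * r ^ 9 * (r ^ 3) ^ (n - i) * (2 * r ^ 21) * (V i * V (i+1)) := by
        calc ∑ j ∈ Finset.range i, V j ^ 3 ≤ ∑ j ∈ Finset.range i,
            V n * r ^ 9 * (r ^ 3) ^ (n - i) * (r ^ 21) ^ (i - j) * (V i * V (i+1)) :=
              Finset.sum_le_sum fun j hj => h2 i hik j (Finset.mem_range.1 hj)
          _ = V n * r ^ 9 * (r ^ 3) ^ (n - i) * (∑ j ∈ Finset.range i, (r ^ 21) ^ (i - j)) *
              (V i * V (i+1)) := by rw [Finset.mul_sum, Finset.sum_mul]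
          _ ≤ _ := by
              apply mul_le_mul_of_nonneg_right _ (by positivity)
              exact mul_le_mul_of_nonneg_left (geo26 (by positivity) hq21 i) (by positivity)
      calc D * ∑ j ∈ Finset.range i, V j ^ 3 ≤ D * (V n * r ^ 9 * (r ^ 3) ^ (n - i) * (2 * r ^ 21) *
            (V i * V (i+1))) := mul_le_mul_of_nonneg_left e2 hD0
        _ = _ := by ring
    calc _ ≤ _ := Finset.sum_le_sum e1
      _ = D * (V n * r ^ 9 * (2 * r ^ 21)) * ∑ i ∈ Finset.range k, (r ^ 3) ^ (n - i) := by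
          rw [Finset.mul_sum]
      _ ≤ _ := mul_le_mul_of_nonneg_left (geo26' (by positivity) hq3 hk) (by positivity)
  -- third sum
  have s3 : (∑ j ∈ Finset.range k, V j ^ 3) / V k ^ 2 ≤ V n * (2 * r ^ 21) := by
    have hVk := hV k
    rw [div_le_iff₀ (by positivity)]
    calc ∑ j ∈ Finset.range k, V j ^ 3 ≤ ∑ j ∈ Finset.range k, V n * (r ^ 21) ^ (k - j) * V k ^ 2 :=
          Finset.sum_le_sum fun j hj => h3 j (Finset.mem_range.1 hj)
      _ = V n * (∑ j ∈ Finset.range k, (r ^ 21) ^ (k - j)) * V k ^ 2 := by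
          rw [Finset.mul_sum, Finset.sum_mul]
      _ ≤ _ := by
          apply mul_le_mul_of_nonneg_right _ (by positivity)
          exact mul_le_mul_of_nonneg_left (geo26 (by positivity) hq21 k) hVn.le
  rw [Finset.sum_add_distrib]
  have hDr : D * r ^ 10 ≤ 10 := by
    calc D * r ^ 10 ≤ 10 * b ^ 10 * r ^ 10 := mul_le_mul_of_nonneg_right hD (by positivity)
      _ = 10 * (b ^ 10 * r ^ 10) := by ring
      _ = 10 := by rw [hpow, mul_one]
  have s2' : D * (V n * r ^ 9 * (2 * r ^ 21)) * (2 * r ^ 3) ≤ V n * r ^ 14 * (40 * r ^ 9) := by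
    calc D * (V n * r ^ 9 * (2 * r ^ 21)) * (2 * r ^ 3) = (D * r ^ 10) * (4 * V n * r ^ 23) := by ring
      _ ≤ 10 * (4 * V n * r ^ 23) := mul_le_mul_of_nonneg_right hDr (by positivity)
      _ = _ := by ring
  have hend : 3 * V n / b ^ 14 = 3 * (V n * r ^ 14) := by
    rw [hr, inv_pow]; ring
  rw [hend]
  have hp : 0 < V n * r ^ 14 := by positivity
  have hr9 : r ^ 9 ≤ 1 / 1000 := le_trans (pow_le_of_le_one hr0.le hr1 (by norm_num)) hrs
  have hr7 : r ^ 7 ≤ 1 / 1000 := le_trans (pow_le_of_le_one hr0.le hr1 (by norm_num)) hrs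
  have t1 : V n * r ^ 9 * (2 * r ^ 5) = 2 * (V n * r ^ 14) := by ring
  have t3 : V n * (2 * r ^ 21) = V n * r ^ 14 * (2 * r ^ 7) := by ring
  have u2 : V n * r ^ 14 * (40 * r ^ 9) ≤ V n * r ^ 14 * (40 / 1000) :=
    mul_le_mul_of_nonneg_left (by linarith) hp.le
  have u3 : V n * r ^ 14 * (2 * r ^ 7) ≤ V n * r ^ 14 * (2 / 1000) :=
    mul_le_mul_of_nonneg_left (by linarith) hp.le
  linarith

end Pool.Agent.Helper18.SG
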