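import Mathlib
import Pool.Agent.Helper18.SG.Lin
import Pool.Agent.Helper18.SG.NumS

/-! Block SG-U: distortion at a hyperbolic time. Two points `x`, `x'` of the same horizontal line
with `|x' - x| W n <= b ^ 2`, `n` a hyperbolic time of `x`: the difference of the orbits is linear up
to a relative error `480 / b ^ 2`, and so are the continuants.

Proof. Write `δ = x' - x`, `e k = Z' k - Z k`, `A = |a| = b ^ 10`. By strong induction on `k <= n` show
(P k): for all `j < k`: `|e (j+1)| <= 2 W j |δ|` and `|v' (j+1)| <= 2 W j`.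
* `g k = e k - δ v k` satisfies `g 0 = g 1 = 0`, `g (k+2) = φ (Z (k+1)) g (k+1) - g k + q k` with
  `q k = psi (Z' (k+1)) - psi (Z (k+1)) - φ (Z (k+1)) e (k+1)`, `|q k| <= 40 A e (k+1) ^ 2`
  (mean value theorem and `Helper78.SM.H2`), so `|q j| <= 160 A W j ^ 2 δ ^ 2` for `j < k`.
* `g k = v' k - v k` satisfies the same recursion with `r k = (φ (Z' (k+1)) - φ (Z (k+1))) v' (k+1)`,
  `|r j| <= 40 A |e (j+1)| |v' (j+1)| <= 160 A W j ^ 2 |δ|` (`Helper78.SM.H2`).
Then `lin_pert` (with `D = 9 A + 1 <= 10 b ^ 10`, `Helper78.SM.abs_phi_le`) and `hyp_sum` (with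
`V = W`) give `mx g k <= W k * (160 A |δ| (or times |δ| again)) * 3 W n / b ^ 14
<= 480 b ^ 10 b ^ 2 / b ^ 14 * W k = 480 / b ^ 2 * W k` (resp. times `|δ|`), which is (P (k+1)) as
`480 / b ^ 2 <= 1`. (`lin_pert` only involves `r j` with `j < k`.) -/

set_option autoImplicit false
open Real

namespace Pool.Agent.Helper18.SG

open Pool.Agent.Helper78.SM (psi phi dphi)

lemma W_pos (a : ℝ) (c : ℕ → ℝ) (y x : ℝ) (k : ℕ) : 0 < W a c y x k :=
  mx_pos (f := fun k => phi a (Z a c y x k)) (v_one a c y x) (v_rec a c y x) k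

lemma psi_taylor (a s s' : ℝ) : |psi a s' - psi a s - phi a s * (s' - s)| ≤ 40 * |a| * (s' - s) ^ 2 := by
  have h := Convex.norm_image_sub_le_of_norm_hasDerivWithin_le
    (f := fun t => psi a t - phi a s * t) (f' := fun t => phi a t - phi a s)
    (C := 40 * |a| * |s' - s|) (s := Set.uIcc s s') (x := s) (y := s')
    (fun x _ => by
      have h1 := Pool.Agent.Helper78.SM.hasDerivAt_psi a x
      have h2 : HasDerivAt (fun t : ℝ => phi a s * t) (phi a s) x := by
        simpa using (hasDerivAt_id x).const_mul (phi a s)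
      exact (h1.sub h2).hasDerivWithinAt)
    (fun x hx => by
      rw [Real.norm_eq_abs]
      refine (Pool.Agent.Helper78.SM.H2 a x s).trans ?_
      have h3 : |x - s| ≤ |s' - s| := Set.abs_sub_left_of_mem_uIcc hx
      gcongr)
    (convex_uIcc s s') Set.left_mem_uIcc Set.right_mem_uIcc
  rw [Real.norm_eq_abs, Real.norm_eq_abs] at h
  have e1 : psi a s' - phi a s * s' - (psi a s - phi a s * s) =
      psi a s' - psi a s - phi a s * (s' - s) := by ring
  have e2 : 40 * |a| * |s' - s| * |s' - s| = 40 * |a| * (s' - s) ^ 2 := by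
    rw [mul_assoc, abs_mul_abs_self]; ring
  rw [e1, e2] at h
  exact h

private lemma h99_close {a b : ℝ} (hb : 1000 ≤ b) (hab : |a| = b ^ 10) (c : ℕ → ℝ) (y x : ℝ) {n : ℕ}
    (hH : HypS b (W a c y x) n) {g r : ℕ → ℝ} (hg0 : g 0 = 0) (hg1 : g 1 = 0)
    (hg : ∀ k, g (k+2) = phi a (Z a c y x (k+1)) * g (k+1) - g k + r k) {R : ℝ} (hR : 0 ≤ R)
    {k : ℕ} (hk : k ≤ n) (hr : ∀ j, j < k → |r j| ≤ R * W a c y x j ^ 2) :
    mx g k ≤ W a c y x k * (R * (3 * W a c y x n / b ^ 14)) := by
  have hb0 : (0:ℝ) < b := by linarith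
  have ha1 : 1 ≤ |a| := by
    rw [hab]; exact one_le_pow₀ (by linarith)
  have hpow : (1:ℝ) ≤ b ^ 10 := one_le_pow₀ (by linarith)
  have hlin := lin_pert (f := fun k => phi a (Z a c y x k)) (v := v a c y x) (g := g) (r := r)
    (D := 9 * |a| + 1) (fun k => by
      have := Pool.Agent.Helper78.SM.abs_phi_le ha1 (Z a c y x k)
      linarith) (v_zero a c y x) (v_one a c y x) (v_rec a c y x) hg0 hg1 hg k
  have hnum := hyp_sum (b := b) (D := 9 * |a| + 1) (V := W a c y x) (n := n) hb (by positivity)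
    (by rw [hab]; linarith) (W_pos a c y x) hH hk
  have hWp := W_pos a c y x
  refine hlin.trans ?_
  change W a c y x k * _ + _ / W a c y x k ≤ _
  have hsum : ∀ i, i ≤ k → ∑ j ∈ Finset.range i, |r j| * mx (v a c y x) j ≤
      R * ∑ j ∈ Finset.range i, W a c y x j ^ 3 := by
    intro i hi
    rw [Finset.mul_sum]
    refine Finset.sum_le_sum (fun j hj => ?_)
    rw [Finset.mem_range] at hj
    have h1 := hr j (by omega)
    have h2 := (hWp j).le
    calc |r j| * mx (v a c y x) j = |r j| * W a c y x j := rfl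
      _ ≤ (R * W a c y x j ^ 2) * W a c y x j := by gcongr
      _ = R * W a c y x j ^ 3 := by ring
  have hS1 : ∑ i ∈ Finset.range k, ((9 * |a| + 1) * (∑ j ∈ Finset.range i, |r j| * mx (v a c y x) j) /
        (mx (v a c y x) i * mx (v a c y x) (i+1)) + |r i| / mx (v a c y x) (i+1)) ≤
      R * ∑ i ∈ Finset.range k, ((9 * |a| + 1) * (∑ j ∈ Finset.range i, W a c y x j ^ 3) /
        (W a c y x i * W a c y x (i+1)) + W a c y x i ^ 2 / W a c y x (i+1)) := by
    rw [Finset.mul_sum]
    refine Finset.sum_le_sum (fun i hi => ?_)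
    rw [Finset.mem_range] at hi
    have h1 := hr i hi
    have h2 := hsum i hi.le
    have h3 := hWp i
    have h4 := hWp (i+1)
    calc (9 * |a| + 1) * (∑ j ∈ Finset.range i, |r j| * mx (v a c y x) j) /
        (mx (v a c y x) i * mx (v a c y x) (i+1)) + |r i| / mx (v a c y x) (i+1)
        = (9 * |a| + 1) * (∑ j ∈ Finset.range i, |r j| * mx (v a c y x) j) /
        (W a c y x i * W a c y x (i+1)) + |r i| / W a c y x (i+1) := rfl
      _ ≤ (9 * |a| + 1) * (R * ∑ j ∈ Finset.range i, W a c y x j ^ 3) /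
        (W a c y x i * W a c y x (i+1)) + (R * W a c y x i ^ 2) / W a c y x (i+1) := by gcongr
      _ = _ := by ring
  have hS2 := hsum k le_rfl
  have hk0 := hWp k
  calc W a c y x k * (∑ i ∈ Finset.range k, ((9 * |a| + 1) *
        (∑ j ∈ Finset.range i, |r j| * mx (v a c y x) j) /
        (mx (v a c y x) i * mx (v a c y x) (i+1)) + |r i| / mx (v a c y x) (i+1))) +
        (∑ j ∈ Finset.range k, |r j| * mx (v a c y x) j) / W a c y x k
      ≤ W a c y x k * (R * ∑ i ∈ Finset.range k, ((9 * |a| + 1) *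
        (∑ j ∈ Finset.range i, W a c y x j ^ 3) /
        (W a c y x i * W a c y x (i+1)) + W a c y x i ^ 2 / W a c y x (i+1))) +
        (R * ∑ j ∈ Finset.range k, W a c y x j ^ 3) / W a c y x k := by gcongr
    _ = W a c y x k * (R * ((∑ i ∈ Finset.range k, ((9 * |a| + 1) *
        (∑ j ∈ Finset.range i, W a c y x j ^ 3) /
        (W a c y x i * W a c y x (i+1)) + W a c y x i ^ 2 / W a c y x (i+1))) +
        (∑ j ∈ Finset.range k, W a c y x j ^ 3) / W a c y x k ^ 2)) := by
          field_simp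
    _ ≤ W a c y x k * (R * (3 * W a c y x n / b ^ 14)) := by gcongr

theorem u_lemma {a b : ℝ} (hb : 1000 ≤ b) (hab : |a| = b ^ 10) (c : ℕ → ℝ) (y x x' : ℝ) {n : ℕ}
    (hH : HypS b (W a c y x) n) (hd : |x' - x| * W a c y x n ≤ b ^ 2) :
    ∀ k, k ≤ n →
      (|Z a c y x' (k+1) - Z a c y x (k+1) - (x' - x) * v a c y x (k+1)| ≤
        480 / b ^ 2 * (W a c y x k * |x' - x|) ∧
      |Z a c y x' k - Z a c y x k - (x' - x) * v a c y x k| ≤
        480 / b ^ 2 * (W a c y x k * |x' - x|)) ∧
      (|v a c y x' (k+1) - v a c y x (k+1)| ≤ 480 / b ^ 2 * W a c y x k ∧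
      |v a c y x' k - v a c y x k| ≤ 480 / b ^ 2 * W a c y x k) := by
  have hb0 : (0:ℝ) < b := by linarith
  have hC1 : 480 / b ^ 2 ≤ 1 := by
    rw [div_le_one (by positivity)]; nlinarith
  have hWp := W_pos a c y x
  have hvle : ∀ j, |v a c y x (j+1)| ≤ W a c y x j := fun j => le_max_left _ _
  set δ : ℝ := x' - x with hδ
  intro k
  induction k using Nat.strong_induction_on with
  | _ k ih =>
    intro hkn
    have hbd : ∀ j, j < k → |Z a c y x' (j+1) - Z a c y x (j+1)| ≤ 2 * W a c y x j * |δ| ∧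
        |v a c y x' (j+1)| ≤ 2 * W a c y x j := by
      intro j hj
      obtain ⟨⟨h1, _⟩, ⟨h2, _⟩⟩ := ih j hj (by omega)
      have h3 := hvle j
      have h4 := (hWp j).le
      have h5 : 480 / b ^ 2 * (W a c y x j * |δ|) ≤ W a c y x j * |δ| := by
        have : 0 ≤ W a c y x j * |δ| := by positivity
        nlinarith
      have h6 : 480 / b ^ 2 * W a c y x j ≤ W a c y x j := by nlinarith
      constructor
      · have h7 : |δ * v a c y x (j+1)| ≤ |δ| * W a c y x j := by
          rw [abs_mul]; gcongr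
        have h8 := abs_add_le (Z a c y x' (j+1) - Z a c y x (j+1) - δ * v a c y x (j+1))
          (δ * v a c y x (j+1))
        rw [sub_add_cancel] at h8
        nlinarith
      · have h8 := abs_add_le (v a c y x' (j+1) - v a c y x (j+1)) (v a c y x (j+1))
        rw [sub_add_cancel] at h8
        linarith
    have hkey : 160 * b ^ 10 * |δ| * (3 * W a c y x n / b ^ 14) ≤ 480 / b ^ 2 := by
      have e : 160 * b ^ 10 * |δ| * (3 * W a c y x n / b ^ 14) =
          480 / b ^ 4 * (|δ| * W a c y x n) := by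
        field_simp
        ring
      rw [e]
      calc 480 / b ^ 4 * (|δ| * W a c y x n) ≤ 480 / b ^ 4 * b ^ 2 := by gcongr
        _ = 480 / b ^ 2 := by field_simp
    -- first: the orbit differences
    have hA := h99_close hb hab c y x hH (g := fun i => Z a c y x' i - Z a c y x i - δ * v a c y x i)
      (r := fun i => psi a (Z a c y x' (i+1)) - psi a (Z a c y x (i+1)) -
        phi a (Z a c y x (i+1)) * (Z a c y x' (i+1) - Z a c y x (i+1)))
      (by simp only [Z_zero, v_zero]; ring) (by simp only [Z_one, v_one, hδ]; ring)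
      (fun i => by simp only [Z_rec, v_rec]; ring) (R := 160 * b ^ 10 * |δ| * |δ|) (by positivity) hkn
      (fun j hj => by
        obtain ⟨h1, _⟩ := hbd j hj
        refine (psi_taylor a _ _).trans ?_
        rw [hab, ← sq_abs]
        calc 40 * b ^ 10 * |Z a c y x' (j+1) - Z a c y x (j+1)| ^ 2
            ≤ 40 * b ^ 10 * (2 * W a c y x j * |δ|) ^ 2 := by gcongr
          _ = 160 * b ^ 10 * |δ| * |δ| * W a c y x j ^ 2 := by ring)
    have hB := h99_close hb hab c y x hH (g := fun i => v a c y x' i - v a c y x i)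
      (r := fun i => (phi a (Z a c y x' (i+1)) - phi a (Z a c y x (i+1))) * v a c y x' (i+1))
      (by simp only [v_zero]; ring) (by simp only [v_one]; ring)
      (fun i => by simp only [v_rec]; ring) (R := 160 * b ^ 10 * |δ|) (by positivity) hkn
      (fun j hj => by
        obtain ⟨h1, h2⟩ := hbd j hj
        have h3 := Pool.Agent.Helper78.SM.H2 a (Z a c y x' (j+1)) (Z a c y x (j+1))
        rw [hab] at h3
        have h4 := (hWp j).le
        rw [abs_mul]
        calc |phi a (Z a c y x' (j+1)) - phi a (Z a c y x (j+1))| * |v a c y x' (j+1)|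
            ≤ (40 * b ^ 10 * (2 * W a c y x j * |δ|)) * (2 * W a c y x j) := by
              refine mul_le_mul (h3.trans (by gcongr)) h2 (abs_nonneg _) (by positivity)
          _ = 160 * b ^ 10 * |δ| * W a c y x j ^ 2 := by ring)
    have hk0 := (hWp k).le
    have hA' : mx (fun i => Z a c y x' i - Z a c y x i - δ * v a c y x i) k ≤
        480 / b ^ 2 * (W a c y x k * |δ|) := by
      refine hA.trans ?_
      calc W a c y x k * (160 * b ^ 10 * |δ| * |δ| * (3 * W a c y x n / b ^ 14))
          = (160 * b ^ 10 * |δ| * (3 * W a c y x n / b ^ 14)) * (W a c y x k * |δ|) := by ring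
        _ ≤ 480 / b ^ 2 * (W a c y x k * |δ|) := by gcongr
    have hB' : mx (fun i => v a c y x' i - v a c y x i) k ≤ 480 / b ^ 2 * W a c y x k := by
      refine hB.trans ?_
      calc W a c y x k * (160 * b ^ 10 * |δ| * (3 * W a c y x n / b ^ 14))
          = (160 * b ^ 10 * |δ| * (3 * W a c y x n / b ^ 14)) * W a c y x k := by ring
        _ ≤ 480 / b ^ 2 * W a c y x k := by gcongr
    exact ⟨⟨(le_max_left _ _).trans hA', (le_max_right _ _).trans hA'⟩,
      ⟨(le_max_left _ _).trans hB', (le_max_right _ _).trans hB'⟩⟩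

end Pool.Agent.Helper18.SG
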