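import Mathlib
import Pool.Agent.Helper18.SG.ULem
import Pool.Agent.Helper18.SG.CalcA

/-! Block SG-QINT: consequences of the distortion lemma on a whole interval.

Proofs. `hyp_end`: `HypS` with `j = n-1`, `i = n` gives `b ^ 9 W (n-1) <= b ^ 2 W n`, so
`|v n| <= W (n-1) <= W n / b ^ 7 < W n` and hence `|v (n+1)| = W n`.
`q_int`: apply `u_lemma` with `x = x0`, `x' = x` at the times `k = n` and `k = n-1`:
`|v x (n+1) - v x0 (n+1)| <= 480 / b ^ 2 W n` and `|v x n - v x0 n| <= 480 / b ^ 2 W (n-1)`.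
`q_mono`, `q_len`: `Z (n+1)` has derivative `v (n+1)` (`hasDerivAt_Z`), which on the interval has the
sign of `v x0 (n+1)` and absolute value in `[(1 - 480 / b ^ 2) W n, (1 + 480 / b ^ 2) W n]`: mean
value theorem. `q_flat`: the derivative of `Z n` is at most `W n / b ^ 6` in absolute value and
`W n (q1 - q0) <= b ^ 2`. -/

set_option autoImplicit false
open Real Set

namespace Pool.Agent.Helper18.SG

theorem hyp_end {a b : ℝ} (hb : 1000 ≤ b) {c : ℕ → ℝ} {y x0 : ℝ} {n : ℕ} (hn : 1 ≤ n)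
    (hH : HypS b (W a c y x0) n) :
    |v a c y x0 (n+1)| = W a c y x0 n ∧ W a c y x0 (n-1) * b ^ 7 ≤ W a c y x0 n ∧
      b ^ (7 * n) ≤ W a c y x0 n := by
  have hb0 : (0:ℝ) < b := by linarith
  have hWp := W_pos a c y x0
  have h1 := hH (n-1) n (by omega) le_rfl
  have e1 : n - (n - 1) = 1 := by omega
  rw [e1] at h1
  have h2 : W a c y x0 (n-1) * b ^ 7 ≤ W a c y x0 n := by
    have h3 : b ^ 2 * (W a c y x0 (n-1) * b ^ 7) ≤ b ^ 2 * W a c y x0 n := by
      calc b ^ 2 * (W a c y x0 (n-1) * b ^ 7) = W a c y x0 (n-1) * b ^ (9 * 1) := by ring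
        _ ≤ b ^ (2 * 1) * W a c y x0 n := h1
        _ = b ^ 2 * W a c y x0 n := by ring
    exact le_of_mul_le_mul_left h3 (by positivity)
  refine ⟨?_, h2, ?_⟩
  · have h4 : |v a c y x0 n| ≤ W a c y x0 (n-1) := by
      have := le_max_left |v a c y x0 (n-1+1)| |v a c y x0 (n-1)|
      rw [Nat.sub_add_cancel hn] at this
      refine this.trans ?_
      unfold W mx
      rw [Nat.sub_add_cancel hn]
    have h5 : W a c y x0 (n-1) < W a c y x0 (n-1) * b ^ 7 := by
      have h6 : (1:ℝ) < b ^ 7 := one_lt_pow₀ (by linarith) (by norm_num)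
      have := hWp (n-1)
      nlinarith
    have h7 : |v a c y x0 n| < W a c y x0 n := by linarith
    have h8 : W a c y x0 n = max |v a c y x0 (n+1)| |v a c y x0 n| := rfl
    rcases max_choice |v a c y x0 (n+1)| |v a c y x0 n| with h | h
    · rw [h8, h]
    · exfalso
      rw [h8, h] at h7
      exact lt_irrefl _ h7
  · have h9 := hH 0 n (Nat.zero_le _) le_rfl
    have e2 : W a c y x0 0 = 1 := by
      unfold W mx
      rw [v_one, v_zero]
      simp
    rw [e2, Nat.sub_zero, one_mul] at h9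
    have h10 : b ^ (2 * n) * b ^ (7 * n) ≤ b ^ (2 * n) * W a c y x0 n := by
      calc b ^ (2 * n) * b ^ (7 * n) = b ^ (9 * n) := by rw [← pow_add]; congr 1; ring
        _ ≤ _ := h9
    exact le_of_mul_le_mul_left h10 (by positivity)

section
variable {a b : ℝ} {c : ℕ → ℝ} {y x0 q0 q1 : ℝ} {n : ℕ}

theorem q_int (hb : 1000 ≤ b) (hab : |a| = b ^ 10) (hn : 1 ≤ n) (h0 : x0 ∈ Icc q0 q1)
    (hH : HypS b (W a c y x0) n) (hs : W a c y x0 n * (q1 - q0) ≤ b ^ 2) :
    ∀ x ∈ Icc q0 q1, |v a c y x (n+1) - v a c y x0 (n+1)| ≤ 480 / b ^ 2 * W a c y x0 n ∧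
      |v a c y x n| ≤ 1 / b ^ 6 * W a c y x0 n := by
  intro x hx
  have hb0 : (0:ℝ) < b := by linarith
  have hWp := W_pos a c y x0
  obtain ⟨_, h2, _⟩ := hyp_end hb hn hH
  have hd : |x - x0| * W a c y x0 n ≤ b ^ 2 := by
    refine le_trans ?_ hs
    rw [mul_comm]
    have h3 : |x - x0| ≤ q1 - q0 := by
      rw [abs_le]
      constructor <;> linarith [hx.1, hx.2, h0.1, h0.2]
    have := (hWp n).le
    gcongr
  have hu := u_lemma hb hab c y x0 x hH hd
  refine ⟨(hu n le_rfl).2.1, ?_⟩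
  have h4 := (hu (n-1) (by omega)).2.1
  rw [Nat.sub_add_cancel hn] at h4
  have h5 : |v a c y x0 n| ≤ W a c y x0 (n-1) := by
    have := le_max_left |v a c y x0 (n-1+1)| |v a c y x0 (n-1)|
    rw [Nat.sub_add_cancel hn] at this
    refine this.trans ?_
    unfold W mx
    rw [Nat.sub_add_cancel hn]
  have hC1 : 480 / b ^ 2 ≤ 1 := by
    rw [div_le_one (by positivity)]; nlinarith
  have h6 : |v a c y x n| ≤ 2 * W a c y x0 (n-1) := by
    have h7 := abs_add_le (v a c y x n - v a c y x0 n) (v a c y x0 n)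
    rw [sub_add_cancel] at h7
    have h8 : 480 / b ^ 2 * W a c y x0 (n-1) ≤ W a c y x0 (n-1) := by
      have := (hWp (n-1)).le
      nlinarith
    linarith
  rw [one_div, ← div_eq_inv_mul, le_div_iff₀ (by positivity)]
  calc |v a c y x n| * b ^ 6 ≤ (2 * W a c y x0 (n-1)) * b ^ 6 := by gcongr
    _ = W a c y x0 (n-1) * (2 * b ^ 6) := by ring
    _ ≤ W a c y x0 (n-1) * b ^ 7 := by
        have := (hWp (n-1)).le
        have h9 : 2 * b ^ 6 ≤ b ^ 7 := by
          have h10 : (0:ℝ) < b ^ 6 := by positivity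
          calc 2 * b ^ 6 ≤ b * b ^ 6 := by nlinarith
            _ = b ^ 7 := by ring
        gcongr
    _ ≤ _ := h2

private lemma h97_c1 (hb : 1000 ≤ b) : 480 / b ^ 2 < 1 := by
  have hb0 : (0:ℝ) < b := by linarith
  rw [div_lt_one (by positivity)]
  nlinarith

private lemma h97_abs {p q w k : ℝ} (_hk : k < 1) (_hw : 0 < w) (hq : |q| = w) (h : |p - q| ≤ k * w) :
    (0 < q → (1 - k) * w ≤ p) ∧ (q < 0 → p ≤ -((1 - k) * w)) := by
  have h1 := abs_le.1 h
  constructor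
  · intro h2
    rw [abs_of_pos h2] at hq
    nlinarith [h1.1, h1.2]
  · intro h2
    rw [abs_of_neg h2] at hq
    nlinarith [h1.1, h1.2]

theorem q_mono (hb : 1000 ≤ b) (hab : |a| = b ^ 10) (hn : 1 ≤ n) (h0 : x0 ∈ Icc q0 q1)
    (hH : HypS b (W a c y x0) n) (hs : W a c y x0 n * (q1 - q0) ≤ b ^ 2) :
    StrictMonoOn (fun x => Z a c y x (n+1)) (Icc q0 q1) ∨
      StrictAntiOn (fun x => Z a c y x (n+1)) (Icc q0 q1) := by
  have hb0 : (0:ℝ) < b := by linarith
  have hWp := W_pos a c y x0 n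
  obtain ⟨h1, _, _⟩ := hyp_end hb hn hH
  have hq := q_int hb hab hn h0 hH hs
  have hk := h97_c1 hb
  have hcont : ContinuousOn (fun x => Z a c y x (n+1)) (Icc q0 q1) := fun x _ =>
    (hasDerivAt_Z a c y (n+1) x).continuousAt.continuousWithinAt
  have hpos : 0 < (1 - 480 / b ^ 2) * W a c y x0 n := mul_pos (by linarith) hWp
  have hne : v a c y x0 (n+1) ≠ 0 := by
    intro h
    rw [h, abs_zero] at h1
    linarith
  rcases lt_or_gt_of_ne hne with h | h
  · right
    refine strictAntiOn_of_deriv_neg (convex_Icc _ _) hcont (fun x hx => ?_)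
    rw [(hasDerivAt_Z a c y (n+1) x).deriv]
    have := (h97_abs hk hWp h1 (hq x (interior_subset hx)).1).2 h
    linarith
  · left
    refine strictMonoOn_of_deriv_pos (convex_Icc _ _) hcont (fun x hx => ?_)
    rw [(hasDerivAt_Z a c y (n+1) x).deriv]
    have := (h97_abs hk hWp h1 (hq x (interior_subset hx)).1).1 h
    linarith

theorem q_len (hb : 1000 ≤ b) (hab : |a| = b ^ 10) (hn : 1 ≤ n) (h0 : x0 ∈ Icc q0 q1)
    (hH : HypS b (W a c y x0) n) (hs : W a c y x0 n * (q1 - q0) ≤ b ^ 2) :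
    (1 - 480 / b ^ 2) * (W a c y x0 n * (q1 - q0)) ≤ |Z a c y q1 (n+1) - Z a c y q0 (n+1)| := by
  have hb0 : (0:ℝ) < b := by linarith
  have hWp := W_pos a c y x0 n
  obtain ⟨h1, _, _⟩ := hyp_end hb hn hH
  have hq := q_int hb hab hn h0 hH hs
  have hk := h97_c1 hb
  rcases (h0.1.trans h0.2).eq_or_lt with he | hlt
  · rw [he]; simp
  · obtain ⟨ξ, hξ, he⟩ := exists_hasDerivAt_eq_slope (fun x => Z a c y x (n+1))
      (fun x => v a c y x (n+1)) hlt
      (fun x _ => (hasDerivAt_Z a c y (n+1) x).continuousAt.continuousWithinAt)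
      (fun x _ => hasDerivAt_Z a c y (n+1) x)
    have hlen : 0 < q1 - q0 := by linarith
    rw [eq_div_iff hlen.ne'] at he
    rw [← he, abs_mul, abs_of_pos hlen, ← mul_assoc]
    have h2 : (1 - 480 / b ^ 2) * W a c y x0 n ≤ |v a c y ξ (n+1)| := by
      have h3 := (hq ξ (Ioo_subset_Icc_self hξ)).1
      have h4 := abs_sub_abs_le_abs_sub (v a c y x0 (n+1)) (v a c y ξ (n+1))
      rw [abs_sub_comm] at h4
      rw [h1] at h4
      linarith
    gcongr

theorem q_flat (hb : 1000 ≤ b) (hab : |a| = b ^ 10) (hn : 1 ≤ n) (h0 : x0 ∈ Icc q0 q1)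
    (hH : HypS b (W a c y x0) n) (hs : W a c y x0 n * (q1 - q0) ≤ b ^ 2) :
    ∀ x ∈ Icc q0 q1, ∀ x' ∈ Icc q0 q1, |Z a c y x n - Z a c y x' n| ≤ 1 / b ^ 4 := by
  intro x hx x' hx'
  have hb0 : (0:ℝ) < b := by linarith
  have hWp := W_pos a c y x0 n
  have hq := q_int hb hab hn h0 hH hs
  have h := Convex.norm_image_sub_le_of_norm_hasDerivWithin_le
    (f := fun t => Z a c y t n) (f' := fun t => v a c y t n)
    (C := 1 / b ^ 6 * W a c y x0 n) (s := Icc q0 q1) (x := x') (y := x)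
    (fun t _ => (hasDerivAt_Z a c y n t).hasDerivWithinAt)
    (fun t ht => by
      rw [Real.norm_eq_abs]
      exact (hq t ht).2)
    (convex_Icc _ _) hx' hx
  rw [Real.norm_eq_abs, Real.norm_eq_abs] at h
  refine h.trans ?_
  have h3 : |x - x'| ≤ q1 - q0 := by
    rw [abs_le]
    constructor <;> linarith [hx.1, hx.2, hx'.1, hx'.2]
  calc 1 / b ^ 6 * W a c y x0 n * |x - x'| ≤ 1 / b ^ 6 * W a c y x0 n * (q1 - q0) := by gcongr
    _ = 1 / b ^ 6 * (W a c y x0 n * (q1 - q0)) := by ring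
    _ ≤ 1 / b ^ 6 * b ^ 2 := by gcongr
    _ = 1 / b ^ 4 := by field_simp

end

end Pool.Agent.Helper18.SG
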