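import Mathlib
import Pool.Agent.Helper18.SG.PDef
import Pool.Agent.Helper18.SG.QInt
import Pool.Agent.Helper18.SG.CalcB

/-! Block SG-P2: Step 3 of the plan in `PDef.lean`. -/

set_option autoImplicit false
open Real Set MeasureTheory

namespace Pool.Agent.Helper18.SG

private lemma piece_num {b w w' A B C D : ℝ} (hb : 10000 ≤ b) (hw : 0 ≤ w) (hw' : b ^ 7 ≤ w')
    (hA : |A| ≤ (1 + 480 / b ^ 2) * w) (hB : |B| ≤ 1 / b ^ 6 * w)
    (hC : |C| ≤ (1 + 480 / b ^ 2) * w' + 1 / b ^ 2) (hD : |D| ≤ 1 / b ^ 6 * w' + 1 / b ^ 2) :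
    |A * C - B * D| ≤ (1 + 2000 / b ^ 2) * (w * w') := by
  have hb0 : (0:ℝ) < b := by linarith
  have hw'0 : 0 ≤ w' := le_trans (by positivity) hw'
  -- 1 / b ^ 2 ≤ w' / b ^ 9
  have h9 : 1 / b ^ 2 ≤ w' * (1 / b ^ 9) := by
    have h1 : 1 / b ^ 2 = b ^ 7 * (1 / b ^ 9) := by field_simp
    rw [h1]
    exact mul_le_mul_of_nonneg_right hw' (by positivity)
  have hu : (0:ℝ) < 1 / b ^ 2 := by positivity
  have hu1 : 1 / b ^ 2 ≤ 1 / 100000000 := by
    apply one_div_le_one_div_of_le (by norm_num)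
    nlinarith
  set u : ℝ := 1 / b ^ 2 with hudef
  have e480 : 480 / b ^ 2 = 480 * u := by rw [hudef]; ring
  have e2000 : 2000 / b ^ 2 = 2000 * u := by rw [hudef]; ring
  have e6 : 1 / b ^ 6 = u ^ 3 := by rw [hudef]; field_simp
  have e9 : 1 / b ^ 9 ≤ u ^ 4 := by
    have h1 : u ^ 4 = b * (1 / b ^ 9) := by rw [hudef]; field_simp
    rw [h1]
    have : (0:ℝ) < 1 / b ^ 9 := by positivity
    nlinarith
  rw [e480] at hA hC
  rw [e6] at hB hD
  rw [e2000]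
  have h9' : u ≤ w' * u ^ 4 := h9.trans (mul_le_mul_of_nonneg_left e9 hw'0)
  have hC' : |C| ≤ (1 + 480 * u + u ^ 4) * w' := by linarith
  have hD' : |D| ≤ (u ^ 3 + u ^ 4) * w' := by linarith
  have hAC : |A| * |C| ≤ ((1 + 480 * u) * w) * ((1 + 480 * u + u ^ 4) * w') :=
    mul_le_mul hA hC' (abs_nonneg _) (by positivity)
  have hBD : |B| * |D| ≤ (u ^ 3 * w) * ((u ^ 3 + u ^ 4) * w') :=
    mul_le_mul hB hD' (abs_nonneg _) (by positivity)
  have hle : |A * C - B * D| ≤ |A| * |C| + |B| * |D| := by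
    rw [← abs_mul, ← abs_mul]; exact abs_sub _ _
  have hww : 0 ≤ w * w' := mul_nonneg hw hw'0
  have hcoef : (1 + 480 * u) * (1 + 480 * u + u ^ 4) + u ^ 3 * (u ^ 3 + u ^ 4) ≤ 1 + 2000 * u := by
    have h1 : u ^ 2 ≤ u * (1 / 100000000) := by nlinarith
    have h4 : u ^ 4 ≤ u * (1 / 100000000) := by
      have : u ^ 4 = u ^ 2 * u ^ 2 := by ring
      have h2 : u ^ 2 ≤ 1 := by nlinarith
      have h3 : 0 ≤ u ^ 2 := by positivity
      nlinarith
    have h5 : u * u ^ 4 ≤ u * (1 / 100000000) := by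
      have : u ^ 4 ≤ 1 / 100000000 := by nlinarith
      exact mul_le_mul_of_nonneg_left this hu.le
    have h6 : u ^ 3 * (u ^ 3 + u ^ 4) ≤ u * (1 / 1000) := by
      have h3 : u ^ 3 ≤ 1 := pow_le_one₀ hu.le (by linarith)
      have h3' : u ^ 3 ≤ u * (1 / 100000000) := by
        have : u ^ 3 = u * u ^ 2 := by ring
        rw [this]
        have : u ^ 2 ≤ 1 / 100000000 := by nlinarith
        exact mul_le_mul_of_nonneg_left this hu.le
      have h30 : 0 ≤ u ^ 3 := by positivity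
      have h40 : 0 ≤ u ^ 4 := by positivity
      have h7 : u ^ 3 + u ^ 4 ≤ 2 := by nlinarith
      calc u ^ 3 * (u ^ 3 + u ^ 4) ≤ (u * (1 / 100000000)) * 2 :=
            mul_le_mul h3' h7 (by positivity) (by positivity)
        _ ≤ u * (1 / 1000) := by nlinarith
    nlinarith
  calc |A * C - B * D| ≤ |A| * |C| + |B| * |D| := hle
    _ ≤ ((1 + 480 * u) * w) * ((1 + 480 * u + u ^ 4) * w') +
        (u ^ 3 * w) * ((u ^ 3 + u ^ 4) * w') := add_le_add hAC hBD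
    _ = ((1 + 480 * u) * (1 + 480 * u + u ^ 4) + u ^ 3 * (u ^ 3 + u ^ 4)) * (w * w') := by ring
    _ ≤ (1 + 2000 * u) * (w * w') := mul_le_mul_of_nonneg_right hcoef hww

/-- Step 3: the size of one piece -/
theorem piece {a b : ℝ} (hb : 10000 ≤ b) (hab : |a| = b ^ 10) {c : ℕ → ℝ} {y q0 q1 x0 : ℝ} {n m : ℕ}
    (hn : 1 ≤ n) (hm : 1 ≤ m) (h0 : x0 ∈ Icc q0 q1) (hH : HypS b (W a c y x0) n)
    (hs : W a c y x0 n * (q1 - q0) ≤ b ^ 2) {c0 c1 t0 t1 cs ts : ℝ} (hcs : cs ∈ Ico c0 c1)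
    (hts : ts ∈ Icc t0 t1) (hH' : HypS b (W a (rev c (n+m)) cs ts) m)
    (hs' : W a (rev c (n+m)) cs ts m * (t1 - t0) ≤ b ^ 2)
    (hnear : ∀ c' ∈ Ico c0 c1, ∀ t ∈ Icc t0 t1,
      |v a (rev c (n+m)) c' t m - v a (rev c (n+m)) cs t m| ≤ 1 / b ^ 2 ∧
      |v a (rev c (n+m)) c' t (m+1) - v a (rev c (n+m)) cs t (m+1)| ≤ 1 / b ^ 2)
    (k1 k2 : ℤ)
    (hsurj : ∀ c' ∈ Ico c0 c1, ∃ x ∈ Ico q0 q1, Z a c y x (n+m+1) = c' + k1 ∧
      Z a c y x (n+m) - k2 ∈ Ico t0 t1) :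
    ENNReal.ofReal (c1 - c0) ≤
      ENNReal.ofReal ((1 + 2000 / b ^ 2) * (W a c y x0 n * W a (rev c (n+m)) cs ts m)) *
      volume {x : ℝ | x ∈ Ico q0 q1 ∧ Z a c y x (n+m+1) - k1 ∈ Ico c0 c1 ∧
        Z a c y x (n+m) - k2 ∈ Ico t0 t1} := by
  have hb1 : (1000:ℝ) ≤ b := by linarith
  have hb0 : (0:ℝ) < b := by linarith
  set E : Set ℝ := {x : ℝ | x ∈ Ico q0 q1 ∧ Z a c y x (n+m+1) - k1 ∈ Ico c0 c1 ∧
        Z a c y x (n+m) - k2 ∈ Ico t0 t1} with hE
  have hcont : ∀ k, Continuous (fun x : ℝ => Z a c y x k) := fun k =>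
    (continuous_Z a c k).comp (continuous_const.prodMk continuous_id)
  have hEm : MeasurableSet E := by
    have h1 : Measurable (fun x : ℝ => Z a c y x (n+m+1) - k1) :=
      (hcont (n+m+1)).measurable.sub_const _
    have h2 : Measurable (fun x : ℝ => Z a c y x (n+m) - k2) :=
      (hcont (n+m)).measurable.sub_const _
    have : E = Ico q0 q1 ∩ ((fun x : ℝ => Z a c y x (n+m+1) - k1) ⁻¹' Ico c0 c1 ∩
        (fun x : ℝ => Z a c y x (n+m) - k2) ⁻¹' Ico t0 t1) := by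
      ext x; simp [hE]
    rw [this]
    exact measurableSet_Ico.inter ((h1 measurableSet_Ico).inter (h2 measurableSet_Ico))
  -- derivative bound
  obtain ⟨hv1, -, hWn⟩ := hyp_end hb1 hn hH
  obtain ⟨hv1', -, hWm⟩ := hyp_end hb1 hm hH'
  have hW0 : 0 ≤ W a c y x0 n := le_trans (by positivity) hWn
  have hW7 : b ^ 7 ≤ W a (rev c (n+m)) cs ts m := by
    refine le_trans (pow_le_pow_right₀ (by linarith) ?_) hWm
    omega
  have hder : ∀ x ∈ E, |v a c y x (n+m+1)| ≤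
      (1 + 2000 / b ^ 2) * (W a c y x0 n * W a (rev c (n+m)) cs ts m) := by
    rintro x ⟨hx, hxc, hxt⟩
    have hx' : x ∈ Icc q0 q1 := Ico_subset_Icc_self hx
    obtain ⟨hq1, hq2⟩ := q_int hb1 hab hn h0 hH hs x hx'
    have hxt' : Z a c y x (n+m) - k2 ∈ Icc t0 t1 := Ico_subset_Icc_self hxt
    obtain ⟨hr1, hr2⟩ := q_int hb1 hab hm hts hH' hs' _ hxt'
    obtain ⟨hn1, hn2⟩ := hnear _ hxc _ hxt'
    rw [v_comp a c y x n m]
    have hsh : ∀ k, v a (rev c (n+m)) (Z a c y x (n+m+1)) (Z a c y x (n+m)) k =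
        v a (rev c (n+m)) (Z a c y x (n+m+1) - k1) (Z a c y x (n+m) - k2) k := by
      intro k
      have := v_shift a (rev c (n+m)) (Z a c y x (n+m+1) - k1) (Z a c y x (n+m) - k2) k1 k2 k
      rw [sub_add_cancel, sub_add_cancel] at this
      exact this
    rw [hsh, hsh]
    refine piece_num hb hW0 hW7 ?_ hq2 ?_ ?_
    · have := abs_sub_abs_le_abs_sub (v a c y x (n+1)) (v a c y x0 (n+1))
      rw [hv1] at this
      linarith
    · have h1 := abs_sub_abs_le_abs_sub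
        (v a (rev c (n+m)) (Z a c y x (n+m+1) - k1) (Z a c y x (n+m) - k2) (m+1))
        (v a (rev c (n+m)) cs (Z a c y x (n+m) - k2) (m+1))
      have h2 := abs_sub_abs_le_abs_sub
        (v a (rev c (n+m)) cs (Z a c y x (n+m) - k2) (m+1)) (v a (rev c (n+m)) cs ts (m+1))
      rw [hv1'] at h2
      linarith
    · have h1 := abs_sub_abs_le_abs_sub
        (v a (rev c (n+m)) (Z a c y x (n+m+1) - k1) (Z a c y x (n+m) - k2) m)
        (v a (rev c (n+m)) cs (Z a c y x (n+m) - k2) m)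
      linarith
  set M : ℝ := (1 + 2000 / b ^ 2) * (W a c y x0 n * W a (rev c (n+m)) cs ts m) with hM
  -- image
  have himg : Ico c0 c1 ⊆ (fun x : ℝ => Z a c y x (n+m+1) - k1) '' E := by
    intro c' hc'
    obtain ⟨x, hx, h1, h2⟩ := hsurj c' hc'
    refine ⟨x, ⟨hx, ?_, h2⟩, ?_⟩
    · rw [h1, add_sub_cancel_right]; exact hc'
    · show Z a c y x (n+m+1) - k1 = c'
      rw [h1, add_sub_cancel_right]
  have hfd : ∀ x ∈ E, HasFDerivWithinAt (fun x : ℝ => Z a c y x (n+m+1) - k1)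
      ((1 : ℝ →L[ℝ] ℝ).smulRight (v a c y x (n+m+1))) E x := by
    intro x _
    exact (((hasDerivAt_Z a c y (n+m+1) x).sub_const _).hasFDerivAt).hasFDerivWithinAt
  calc ENNReal.ofReal (c1 - c0) = volume (Ico c0 c1) := by rw [Real.volume_Ico]
    _ ≤ volume ((fun x : ℝ => Z a c y x (n+m+1) - k1) '' E) := measure_mono himg
    _ ≤ ∫⁻ x in E, ENNReal.ofReal |((1 : ℝ →L[ℝ] ℝ).smulRight (v a c y x (n+m+1))).det| :=
        addHaar_image_le_lintegral_abs_det_fderiv volume hEm hfd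
    _ ≤ ∫⁻ x in E, ENNReal.ofReal M := by
        refine setLIntegral_mono measurable_const ?_
        intro x hx
        apply ENNReal.ofReal_le_ofReal
        rw [ContinuousLinearMap.det_smulRight, one_apply_eq_self, one_mul]
        exact hder x hx
    _ = ENNReal.ofReal M * volume E := by rw [setLIntegral_const]

end Pool.Agent.Helper18.SG
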