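import Mathlib
import Pool.Agent.Helper18.SG.PCross
import Pool.Agent.Helper18.SG.PPiece

/-! Block SG-P3: Steps 2 and 4 of the plan in `PDef.lean`. -/

set_option autoImplicit false
open Real Set MeasureTheory

namespace Pool.Agent.Helper18.SG

/-- integers in an interval -/
theorem count_int {u0 u1 : ℝ} (h : 1 ≤ u1 - u0) :
    ∃ S : Finset ℤ, (u1 - u0 - 1 ≤ S.card) ∧ ∀ i ∈ S, u0 < i ∧ (i:ℝ) < u1 := by
  refine ⟨Finset.Ioo ⌊u0⌋ ⌈u1⌉, ?_, ?_⟩
  · rw [Int.card_Ioo]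
    have h1 := Int.floor_le u0
    have h2 := Int.le_ceil u1
    have h3 : ((⌈u1⌉ - ⌊u0⌋ - 1 : ℤ) : ℝ) ≤ ((⌈u1⌉ - ⌊u0⌋ - 1).toNat : ℝ) := by
      exact_mod_cast Int.self_le_toNat _
    push_cast at h3
    linarith
  · intro i hi
    rw [Finset.mem_Ioo] at hi
    exact ⟨Int.floor_lt.1 hi.1, Int.lt_ceil.1 hi.2⟩

/-- the admissible `i` -/
private lemma adm_i {b w Q u0 u1 X0 : ℝ} {P : ℝ → Prop} (hb : 10000 ≤ b) (hs : b ^ 2 / 2 < w * Q)
    (hlen : (1 - 480 / b ^ 2) * (w * Q) ≤ |u1 - u0|) (hP : ∀ z, P z → |z - X0| ≤ 1 / 50) :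
    ∃ S : Finset ℤ, ((1 - 484 / b ^ 2) * (w * Q) ≤ S.card) ∧ ∀ i ∈ S, ∀ z, P z →
      ((u0 < z + i ∧ z + i < u1) ∨ (u1 < z + i ∧ z + i < u0)) := by
  have hb0 : 0 < b := by linarith
  have hb2 : 0 < b ^ 2 := by positivity
  have hbb : 10000 * 10000 ≤ b ^ 2 := by nlinarith
  have e1 : 2 ≤ 4 / b ^ 2 * (w * Q) := by
    rw [div_mul_eq_mul_div, le_div_iff₀ hb2]
    linarith
  have e2 : (1 - 484 / b ^ 2) * (w * Q) = (1 - 480 / b ^ 2) * (w * Q) - 4 / b ^ 2 * (w * Q) := by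
    ring
  have e3 : 480 / b ^ 2 ≤ 1 / 2 := by
    rw [div_le_iff₀ hb2]
    linarith
  have e4 : 10 ≤ (1 - 480 / b ^ 2) * (w * Q) := by
    have : (1 / 2) * (w * Q) ≤ (1 - 480 / b ^ 2) * (w * Q) :=
      mul_le_mul_of_nonneg_right (by linarith) (by linarith)
    linarith
  rcases le_total u0 u1 with h | h
  · rw [abs_of_nonneg (by linarith)] at hlen
    obtain ⟨S, hS, hS'⟩ := count_int (u0 := u0 - X0 + 1 / 50) (u1 := u1 - X0 - 1 / 50) (by linarith)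
    refine ⟨S, by linarith, fun i hi z hz => Or.inl ?_⟩
    have h1 := abs_le.1 (hP z hz)
    have h2 := hS' i hi
    constructor <;> linarith [h1.1, h1.2, h2.1, h2.2]
  · rw [abs_of_nonpos (by linarith)] at hlen
    obtain ⟨S, hS, hS'⟩ := count_int (u0 := u1 - X0 + 1 / 50) (u1 := u0 - X0 - 1 / 50) (by linarith)
    refine ⟨S, by linarith, fun i hi z hz => Or.inr ?_⟩
    have h1 := abs_le.1 (hP z hz)
    have h2 := hS' i hi
    constructor <;> linarith [h1.1, h1.2, h2.1, h2.2]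

/-- the admissible `j` -/
private lemma adm_j {b w V y0 y1 H0 : ℝ} {P : ℝ → ℝ → Prop} {R : ℝ → Prop} (hb : 10000 ≤ b)
    (hs : b ^ 2 / 2 < w * V)
    (hlen : (1 - 480 / b ^ 2) * (w * V) ≤ |y1 - y0|)
    (hP : ∀ z0 z1, P z0 z1 → |z0 - y0| ≤ 1 / 100 ∧ |z1 - y1| ≤ 1 / 100)
    (hR : ∀ h, R h → |h - H0| ≤ 1 / 100) :
    ∃ S : Finset ℤ, ((1 - 484 / b ^ 2) * (w * V) ≤ S.card) ∧ ∀ j ∈ S, ∀ z0 z1, P z0 z1 →
      ((∀ h, R h → z0 + j < h ∧ h < z1 + j) ∨ (∀ h, R h → z1 + j < h ∧ h < z0 + j)) := by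
  have hb0 : 0 < b := by linarith
  have hb2 : 0 < b ^ 2 := by positivity
  have hbb : 10000 * 10000 ≤ b ^ 2 := by nlinarith
  have e1 : 2 ≤ 4 / b ^ 2 * (w * V) := by
    rw [div_mul_eq_mul_div, le_div_iff₀ hb2]
    linarith
  have e2 : (1 - 484 / b ^ 2) * (w * V) = (1 - 480 / b ^ 2) * (w * V) - 4 / b ^ 2 * (w * V) := by
    ring
  have e3 : 480 / b ^ 2 ≤ 1 / 2 := by
    rw [div_le_iff₀ hb2]
    linarith
  have e4 : 10 ≤ (1 - 480 / b ^ 2) * (w * V) := by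
    have : (1 / 2) * (w * V) ≤ (1 - 480 / b ^ 2) * (w * V) :=
      mul_le_mul_of_nonneg_right (by linarith) (by linarith)
    linarith
  rcases le_total y0 y1 with h | h
  · rw [abs_of_nonneg (by linarith)] at hlen
    obtain ⟨S, hS, hS'⟩ := count_int (u0 := H0 - y1 + 1 / 50) (u1 := H0 - y0 - 1 / 50)
      (by linarith)
    refine ⟨S, by linarith, fun j hj z0 z1 hz => Or.inl fun g hg => ?_⟩
    have h1 := abs_le.1 (hP z0 z1 hz).1
    have h1' := abs_le.1 (hP z0 z1 hz).2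
    have h2 := hS' j hj
    have h3 := abs_le.1 (hR g hg)
    constructor <;> linarith [h1.1, h1.2, h1'.1, h1'.2, h2.1, h2.2, h3.1, h3.2]
  · rw [abs_of_nonpos (by linarith)] at hlen
    obtain ⟨S, hS, hS'⟩ := count_int (u0 := H0 - y0 + 1 / 50) (u1 := H0 - y1 - 1 / 50)
      (by linarith)
    refine ⟨S, by linarith, fun j hj z0 z1 hz => Or.inr fun g hg => ?_⟩
    have h1 := abs_le.1 (hP z0 z1 hz).1
    have h1' := abs_le.1 (hP z0 z1 hz).2
    have h2 := hS' j hj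
    have h3 := abs_le.1 (hR g hg)
    constructor <;> linarith [h1.1, h1.2, h1'.1, h1'.2, h2.1, h2.2, h3.1, h3.2]

/-- the final arithmetic -/
private lemma p_arith {b w w' Q V C N1 N2 μ : ℝ} (hb : 10000 ≤ b) (hw : 0 < w) (hw' : 0 < w')
    (hQ : 0 < Q) (hV : 0 < V) (hC : 0 < C) (h1 : (1 - 484 / b ^ 2) * (w * Q) ≤ N1)
    (h2 : (1 - 484 / b ^ 2) * (w' * V) ≤ N2)
    (h : N1 * N2 * C ≤ (1 + 2000 / b ^ 2) * (w * w') * μ) :
    (1 - 1 / b) * (Q * (C * V)) ≤ μ := by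
  have hb0 : 0 < b := by linarith
  have hb2 : 0 < b ^ 2 := by positivity
  have hbb : 10000 * b ≤ b ^ 2 := by nlinarith
  have e3 : 484 / b ^ 2 ≤ 1 / 2 := by
    rw [div_le_iff₀ hb2]
    nlinarith
  have e0 : 0 < 1 - 484 / b ^ 2 := by linarith
  have h3 : ((1 - 484 / b ^ 2) * (w * Q)) * ((1 - 484 / b ^ 2) * (w' * V)) ≤ N1 * N2 :=
    mul_le_mul h1 h2 (by positivity) (le_trans (by positivity) h1)
  have h4 : ((1 - 484 / b ^ 2) * (w * Q)) * ((1 - 484 / b ^ 2) * (w' * V)) * C ≤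
      (1 + 2000 / b ^ 2) * (w * w') * μ :=
    le_trans (mul_le_mul_of_nonneg_right h3 hC.le) h
  have h5 : (w * w') * ((1 - 484 / b ^ 2) ^ 2 * (Q * (C * V))) ≤
      (w * w') * ((1 + 2000 / b ^ 2) * μ) := by
    calc (w * w') * ((1 - 484 / b ^ 2) ^ 2 * (Q * (C * V)))
        = ((1 - 484 / b ^ 2) * (w * Q)) * ((1 - 484 / b ^ 2) * (w' * V)) * C := by ring
      _ ≤ _ := h4
      _ = _ := by ring
  have h6 : (1 - 484 / b ^ 2) ^ 2 * (Q * (C * V)) ≤ (1 + 2000 / b ^ 2) * μ :=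
    le_of_mul_le_mul_left h5 (by positivity)
  have h7 : (1 + 2000 / b ^ 2) * (1 - 1 / b) ≤ (1 - 484 / b ^ 2) ^ 2 := by
    have e5 : 2968 / b ^ 2 ≤ 1 / b := by
      rw [div_le_div_iff₀ hb2 hb0]
      nlinarith
    have e6 : 0 ≤ 2000 / b ^ 2 := by positivity
    have e7 : 0 ≤ 1 / b := by positivity
    have e8 : (1 - 484 / b ^ 2) ^ 2 = 1 - 968 / b ^ 2 + (484 / b ^ 2) ^ 2 := by ring
    have e9 : (1 + 2000 / b ^ 2) * (1 - 1 / b) = 1 + 2000 / b ^ 2 - 1 / b -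
        2000 / b ^ 2 * (1 / b) := by ring
    have e10 : 2968 / b ^ 2 = 2000 / b ^ 2 + 968 / b ^ 2 := by ring
    rw [e8, e9]
    have := mul_nonneg e6 e7
    nlinarith [sq_nonneg (484 / b ^ 2)]
  have h8 : (1 + 2000 / b ^ 2) * ((1 - 1 / b) * (Q * (C * V))) ≤ (1 + 2000 / b ^ 2) * μ := by
    refine le_trans ?_ h6
    calc (1 + 2000 / b ^ 2) * ((1 - 1 / b) * (Q * (C * V)))
        = ((1 + 2000 / b ^ 2) * (1 - 1 / b)) * (Q * (C * V)) := by ring
      _ ≤ _ := mul_le_mul_of_nonneg_right h7 (by positivity)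
  exact le_of_mul_le_mul_left h8 (by positivity)

theorem p_lemma {a b : ℝ} (hb : 10000 ≤ b) (hab : |a| = b ^ 10) {c : ℕ → ℝ} {y q0 q1 : ℝ} {n m : ℕ}
    (hn : 1 ≤ n) (hm : 1 ≤ m) (hq : q0 < q1)
    (hQ : ∃ x0 ∈ Icc q0 q1, HypS b (W a c y x0) n ∧ b ^ 2 / 2 < W a c y x0 n * (q1 - q0) ∧
      W a c y x0 n * (q1 - q0) ≤ b ^ 2)
    {c0 c1 t0 t1 : ℝ} (hR : GoodRect a b (rev c (n+m)) m c0 c1 t0 t1) :
    ENNReal.ofReal ((1 - 1 / b) * ((q1 - q0) * ((c1 - c0) * (t1 - t0)))) ≤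
      volume {x : ℝ | x ∈ Ico q0 q1 ∧ ∃ i j : ℤ, Z a c y x (n+m+1) - i ∈ Ico c0 c1 ∧
        Z a c y x (n+m) - j ∈ Ico t0 t1} := by
  obtain ⟨x0, h0, hH, hsl, hsu⟩ := hQ
  obtain ⟨hc0, hc, hc1, ht0, ht, ht1, cs, hcs, ts, hts, hH', hsl', hsu', hnear⟩ := hR
  have hb1 : (1000:ℝ) ≤ b := by linarith
  have hb0 : 0 < b := by linarith
  have hmono := q_mono hb1 hab hn h0 hH hsu
  have hlen := q_len hb1 hab hn h0 hH hsu
  have hflat := q_flat hb1 hab hn h0 hH hsu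
  have hlen' := q_len hb1 hab hm hts hH' hsu'
  have hflat' := q_flat hb1 hab hm hts hH' hsu'
  have hb4 : 1 / b ^ 4 ≤ 1 / 100 := by
    apply one_div_le_one_div_of_le (by norm_num)
    have h1 : (1:ℝ) ≤ b ^ 3 := one_le_pow₀ (by linarith)
    calc (100:ℝ) ≤ b := by linarith
      _ = 1 * b := by ring
      _ ≤ b ^ 3 * b := by gcongr
      _ = b ^ 4 := by ring
  have hwpos : 0 < W a c y x0 n := by
    have h1 : 0 < W a c y x0 n * (q1 - q0) := lt_trans (by positivity) hsl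
    exact (pos_iff_pos_of_mul_pos h1).2 (by linarith)
  have hwpos' : 0 < W a (rev c (n+m)) cs ts m := by
    have h1 : 0 < W a (rev c (n+m)) cs ts m * (t1 - t0) := lt_trans (by positivity) hsl'
    exact (pos_iff_pos_of_mul_pos h1).2 (by linarith)
  -- admissible integers
  obtain ⟨Si, hSi, hSi'⟩ := adm_i (b := b) (w := W a c y x0 n) (Q := q1 - q0)
    (u0 := Z a c y q0 (n+1)) (u1 := Z a c y q1 (n+1)) (X0 := Z a (rev c (n+m)) cs ts m)
    (P := fun z => ∃ c' ∈ Ico c0 c1, ∃ t ∈ Icc t0 t1, z = Z a (rev c (n+m)) c' t m) hb hsl hlen (by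
      rintro z ⟨c', hc', t, ht', rfl⟩
      have h1 := (hnear c' hc' t ht').1.1
      have h2 := hflat' t ht' ts hts
      have h3 := abs_sub_le (Z a (rev c (n+m)) c' t m) (Z a (rev c (n+m)) cs t m)
        (Z a (rev c (n+m)) cs ts m)
      linarith)
  obtain ⟨Sj, hSj, hSj'⟩ := adm_j (b := b) (w := W a (rev c (n+m)) cs ts m) (V := t1 - t0)
    (y0 := Z a (rev c (n+m)) cs t0 (m+1)) (y1 := Z a (rev c (n+m)) cs t1 (m+1))
    (H0 := Z a c y x0 n)
    (P := fun z0 z1 => ∃ c' ∈ Ico c0 c1, z0 = Z a (rev c (n+m)) c' t0 (m+1) ∧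
      z1 = Z a (rev c (n+m)) c' t1 (m+1))
    (R := fun h => ∃ x ∈ Icc q0 q1, h = Z a c y x n) hb hsl' hlen' (by
      rintro z0 z1 ⟨c', hc', rfl, rfl⟩
      exact ⟨(hnear c' hc' t0 (left_mem_Icc.2 ht.le)).1.2,
        (hnear c' hc' t1 (right_mem_Icc.2 ht.le)).1.2⟩) (by
      rintro h ⟨x, hx, rfl⟩
      exact le_trans (hflat x hx x0 h0) hb4)
  -- the pieces
  let K : ℤ × ℤ → ℤ × ℤ := fun p => (p.1 + m * (p.1 - p.2), p.1 + ((m:ℤ) - 1) * (p.1 - p.2))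
  let E : ℤ × ℤ → Set ℝ := fun p => {x : ℝ | x ∈ Ico q0 q1 ∧
    Z a c y x (n+m+1) - ((K p).1 : ℤ) ∈ Ico c0 c1 ∧ Z a c y x (n+m) - ((K p).2 : ℤ) ∈ Ico t0 t1}
  have hcontZ : ∀ k, Continuous fun x => Z a c y x k := fun k =>
    continuous_iff_continuousAt.2 fun x => (hasDerivAt_Z a c y k x).continuousAt
  have hEm : ∀ p, MeasurableSet (E p) := by
    intro p
    have h1 : MeasurableSet {x : ℝ | x ∈ Ico q0 q1} := measurableSet_Ico
    have h2 : MeasurableSet {x : ℝ | Z a c y x (n+m+1) - ((K p).1 : ℤ) ∈ Ico c0 c1} :=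
      ((hcontZ (n+m+1)).measurable.sub_const _) measurableSet_Ico
    have h3 : MeasurableSet {x : ℝ | Z a c y x (n+m) - ((K p).2 : ℤ) ∈ Ico t0 t1} :=
      ((hcontZ (n+m)).measurable.sub_const _) measurableSet_Ico
    exact h1.inter (h2.inter h3)
  have hEfin : ∀ p, volume (E p) ≠ ⊤ := fun p =>
    ne_top_of_le_ne_top (by rw [Real.volume_Ico]; exact ENNReal.ofReal_ne_top)
      (measure_mono (fun x hx => hx.1) : volume (E p) ≤ volume (Ico q0 q1))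
  have hdisj : ∀ p p', p ≠ p' → Disjoint (E p) (E p') := by
    intro p p' hpp
    rw [Set.disjoint_left]
    rintro x ⟨-, h1, h2⟩ ⟨-, h1', h2'⟩
    apply hpp
    have k1 : (K p).1 = (K p').1 := by
      have e1 : ⌊Z a c y x (n+m+1)⌋ = (K p).1 := by
        rw [Int.floor_eq_iff]
        constructor <;> linarith [h1.1, h1.2]
      have e2 : ⌊Z a c y x (n+m+1)⌋ = (K p').1 := by
        rw [Int.floor_eq_iff]
        constructor <;> linarith [h1'.1, h1'.2]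
      rw [← e1, ← e2]
    have k2 : (K p).2 = (K p').2 := by
      have e1 : ⌊Z a c y x (n+m)⌋ = (K p).2 := by
        rw [Int.floor_eq_iff]
        constructor <;> linarith [h2.1, h2.2]
      have e2 : ⌊Z a c y x (n+m)⌋ = (K p').2 := by
        rw [Int.floor_eq_iff]
        constructor <;> linarith [h2'.1, h2'.2]
      rw [← e1, ← e2]
    have k3 : p.1 + m * (p.1 - p.2) = p'.1 + m * (p'.1 - p'.2) := k1
    have k4 : p.1 + ((m:ℤ) - 1) * (p.1 - p.2) = p'.1 + ((m:ℤ) - 1) * (p'.1 - p'.2) := k2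
    have k5 : p.1 - p.2 = p'.1 - p'.2 := by linear_combination k3 - k4
    have k6 : p.1 = p'.1 := by
      rw [k5] at k3
      exact add_right_cancel k3
    have k7 : p.2 = p'.2 := by linear_combination k6 - k5
    exact Prod.ext k6 k7
  have hpiece : ∀ p ∈ Si ×ˢ Sj, c1 - c0 ≤
      ((1 + 2000 / b ^ 2) * (W a c y x0 n * W a (rev c (n+m)) cs ts m)) *
        (volume (E p)).toReal := by
    intro p hp
    rw [Finset.mem_product] at hp
    have h := piece hb hab hn hm h0 hH hsu hcs hts hH' hsu'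
      (fun c' hc' t ht' => (hnear c' hc' t ht').2) (K p).1 (K p).2 (by
        intro c' hc'
        obtain ⟨x, hx, t, ht', e1, e2⟩ := exists_cross (a := a) (c := c) (y := y) (n := n) (m := m)
          hq ht c' p.1 p.2 hmono
          (fun t ht' => hSi' p.1 hp.1 _ ⟨c', hc', t, ht', rfl⟩)
          (by
            rcases hSj' p.2 hp.2 _ _ ⟨c', hc', rfl, rfl⟩ with h | h
            · exact Or.inl fun x hx => h _ ⟨x, hx, rfl⟩
            · exact Or.inr fun x hx => h _ ⟨x, hx, rfl⟩)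
        refine ⟨x, ⟨hx.1.le, hx.2⟩, e1, ?_⟩
        rw [e2]
        show t + _ - _ ∈ Ico t0 t1
        rw [add_sub_cancel_right]
        exact ⟨ht'.1.le, ht'.2⟩)
    have h' : ENNReal.ofReal (c1 - c0) ≤
      ENNReal.ofReal ((1 + 2000 / b ^ 2) * (W a c y x0 n * W a (rev c (n+m)) cs ts m)) *
      volume (E p) := h
    rw [← ENNReal.ofReal_toReal (hEfin p), ← ENNReal.ofReal_mul (by positivity)] at h'
    exact (ENNReal.ofReal_le_ofReal_iff (by positivity)).1 h'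
  have hsum : ((Si ×ˢ Sj).card : ℝ) * (c1 - c0) ≤
      ((1 + 2000 / b ^ 2) * (W a c y x0 n * W a (rev c (n+m)) cs ts m)) *
        (volume (⋃ p ∈ Si ×ˢ Sj, E p)).toReal := by
    rw [measure_biUnion_finset (fun p _ p' _ h => hdisj p p' h) (fun p _ => hEm p),
      ENNReal.toReal_sum (fun p _ => hEfin p), Finset.mul_sum, ← nsmul_eq_mul]
    exact Finset.card_nsmul_le_sum _ _ _ hpiece
  set Tg : Set ℝ := {x : ℝ | x ∈ Ico q0 q1 ∧ ∃ i j : ℤ, Z a c y x (n+m+1) - i ∈ Ico c0 c1 ∧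
        Z a c y x (n+m) - j ∈ Ico t0 t1} with hTg
  have hTfin : volume Tg ≠ ⊤ :=
    ne_top_of_le_ne_top (by rw [Real.volume_Ico]; exact ENNReal.ofReal_ne_top)
      (measure_mono (fun x hx => hx.1) : volume Tg ≤ volume (Ico q0 q1))
  have hsub : (⋃ p ∈ Si ×ˢ Sj, E p) ⊆ Tg := by
    intro x hx
    simp only [mem_iUnion] at hx
    obtain ⟨p, -, hx1, hx2, hx3⟩ := hx
    exact ⟨hx1, _, _, hx2, hx3⟩
  have hle : (volume (⋃ p ∈ Si ×ˢ Sj, E p)).toReal ≤ (volume Tg).toReal :=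
    ENNReal.toReal_mono hTfin (measure_mono hsub)
  have hfin : (1 - 1 / b) * ((q1 - q0) * ((c1 - c0) * (t1 - t0))) ≤ (volume Tg).toReal := by
    refine p_arith (N1 := (Si.card : ℝ)) (N2 := (Sj.card : ℝ)) hb hwpos hwpos' (by linarith)
      (by linarith) (by linarith) hSi hSj ?_
    rw [Finset.card_product] at hsum
    push_cast at hsum
    refine le_trans hsum ?_
    exact mul_le_mul_of_nonneg_left hle (by positivity)
  calc ENNReal.ofReal ((1 - 1 / b) * ((q1 - q0) * ((c1 - c0) * (t1 - t0))))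
      ≤ ENNReal.ofReal (volume Tg).toReal := ENNReal.ofReal_le_ofReal hfin
    _ = volume Tg := ENNReal.ofReal_toReal hTfin

end Pool.Agent.Helper18.SG
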