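import Mathlib

/-! Block SG-DY: selection of disjoint dyadic intervals of prescribed size.

Proof. For `x ∈ S` choose the level `k` with `β / 2 < w x / 2 ^ k <= β` (exists as `w x >= β`; and
`2 ^ k <= 2 M / β`, so the levels are at most some `K`). Let `D0` be the finite set of all pairs
`(k, i)`, `k <= K`, `i < 2 ^ k`, such that `dy k i` contains an `x ∈ S` with
`β / 2 < w x / 2 ^ k <= β`. Every `x ∈ S ⊆ [0,1)` lies in `dy k ⌊2 ^ k x⌋` for its level, so `D0`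
covers `S`. Two dyadic intervals are nested or disjoint; let `D` be the set of the elements of `D0`
whose interval is not strictly contained in the interval of another element of `D0` (maximal
elements). `D` still covers `S` and is pairwise disjoint. -/

set_option autoImplicit false
open Set

namespace Pool.Agent.Helper18.SG

/-- dyadic interval of level `k` -/
def dy (k i : ℕ) : Set ℝ := Ico ((i:ℝ) / 2 ^ k) (((i:ℝ) + 1) / 2 ^ k)

private lemma mem_dy_iff {x : ℝ} (hx : 0 ≤ x) (k i : ℕ) : x ∈ dy k i ↔ ⌊(2:ℝ) ^ k * x⌋₊ = i := by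
  have h2 : (0:ℝ) < 2 ^ k := by positivity
  rw [Nat.floor_eq_iff (by positivity), dy, mem_Ico, div_le_iff₀ h2, lt_div_iff₀ h2, mul_comm x]

private lemma dy_nonneg {x : ℝ} {k i : ℕ} (h : x ∈ dy k i) : 0 ≤ x := by
  have h2 : (0:ℝ) ≤ (i:ℝ) / 2 ^ k := by positivity
  exact h2.trans h.1

private lemma floor_level {x : ℝ} {k l : ℕ} (hkl : k ≤ l) :
    ⌊(2:ℝ) ^ k * x⌋₊ = ⌊(2:ℝ) ^ l * x⌋₊ / 2 ^ (l - k) := by
  rw [← Nat.floor_div_natCast]
  congr 1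
  obtain ⟨d, rfl⟩ := Nat.exists_eq_add_of_le hkl
  rw [Nat.add_sub_cancel_left, pow_add]
  push_cast
  have h2 : (2:ℝ) ^ d ≠ 0 := by positivity
  field_simp

private lemma dy_nest {k l i j : ℕ} (hkl : k ≤ l) (h : ¬ Disjoint (dy k i) (dy l j)) :
    dy l j ⊆ dy k i := by
  rw [Set.not_disjoint_iff] at h
  obtain ⟨x, hx1, hx2⟩ := h
  have hx0 := dy_nonneg hx1
  rw [mem_dy_iff hx0] at hx1 hx2
  intro y hy
  have hy0 := dy_nonneg hy
  rw [mem_dy_iff hy0] at hy ⊢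
  rw [floor_level hkl, hy, ← hx2, ← floor_level hkl, hx1]

private lemma level_exists {w β M : ℝ} (hβ : 0 < β) (h1 : β ≤ w) (h2 : w ≤ M) :
    ∃ k : ℕ, k ≤ ⌈2 * M / β⌉₊ ∧ β / 2 < w / 2 ^ k ∧ w / 2 ^ k ≤ β := by
  classical
  have hw : 0 < w := hβ.trans_le h1
  have hex : ∃ k : ℕ, w / 2 ^ k ≤ β := by
    obtain ⟨k, hk⟩ := pow_unbounded_of_one_lt (w / β) (by norm_num : (1:ℝ) < 2)
    refine ⟨k, ?_⟩
    rw [div_le_iff₀ (by positivity)]
    rw [div_lt_iff₀ hβ] at hk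
    nlinarith
  have hk1 := Nat.find_spec hex
  have hk2 : β / 2 < w / 2 ^ (Nat.find hex) := by
    rcases Nat.eq_zero_or_pos (Nat.find hex) with h0 | h0
    · rw [h0]; simp; linarith
    · obtain ⟨d, hd⟩ := Nat.exists_eq_succ_of_ne_zero h0.ne'
      have h3 : ¬ w / 2 ^ d ≤ β := Nat.find_min hex (by omega)
      rw [hd, pow_succ]
      push Not at h3
      rw [lt_div_iff₀ (by positivity)] at h3 ⊢
      linarith
  refine ⟨Nat.find hex, ?_, hk2, hk1⟩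
  have h3 : ((Nat.find hex : ℕ) : ℝ) ≤ (2:ℝ) ^ (Nat.find hex) := by
    exact_mod_cast Nat.lt_two_pow_self.le
  have h4 : (2:ℝ) ^ (Nat.find hex) ≤ 2 * M / β := by
    rw [lt_div_iff₀ (by positivity)] at hk2
    rw [le_div_iff₀ hβ]
    linarith
  exact_mod_cast (h3.trans h4).trans (Nat.le_ceil _)

theorem dy_select {S : Set ℝ} (hS : S ⊆ Ico 0 1) {w : ℝ → ℝ} {β M : ℝ} (hβ : 0 < β)
    (h1 : ∀ x ∈ S, β ≤ w x) (h2 : ∀ x ∈ S, w x ≤ M) :
    ∃ D : Finset (ℕ × ℕ), (∀ p ∈ D, p.2 < 2 ^ p.1) ∧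
      (∀ p ∈ D, ∃ x ∈ S, x ∈ dy p.1 p.2 ∧ β / 2 < w x / 2 ^ p.1 ∧ w x / 2 ^ p.1 ≤ β) ∧
      (∀ p ∈ D, ∀ q ∈ D, p ≠ q → Disjoint (dy p.1 p.2) (dy q.1 q.2)) ∧
      S ⊆ ⋃ p ∈ D, dy p.1 p.2 := by
  classical
  set K := ⌈2 * M / β⌉₊ with hK
  set P : ℕ × ℕ → Prop := fun p => p.2 < 2 ^ p.1 ∧
    ∃ x ∈ S, x ∈ dy p.1 p.2 ∧ β / 2 < w x / 2 ^ p.1 ∧ w x / 2 ^ p.1 ≤ β with hP
  set D0 : Finset (ℕ × ℕ) := (Finset.range (K + 1) ×ˢ Finset.range (2 ^ K)).filter P with hD0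
  have hcov : ∀ x ∈ S, ∃ p ∈ D0, x ∈ dy p.1 p.2 := by
    intro x hx
    obtain ⟨k, hk0, hk1, hk2⟩ := level_exists hβ (h1 x hx) (h2 x hx)
    have hx0 : 0 ≤ x := (hS hx).1
    have hx1 : x < 1 := (hS hx).2
    have hmem : x ∈ dy k ⌊(2:ℝ) ^ k * x⌋₊ := (mem_dy_iff hx0 k _).2 rfl
    have hlt : ⌊(2:ℝ) ^ k * x⌋₊ < 2 ^ k := by
      rw [Nat.floor_lt (by positivity)]
      push_cast
      have : (0:ℝ) < 2 ^ k := by positivity
      nlinarith
    refine ⟨(k, ⌊(2:ℝ) ^ k * x⌋₊), ?_, hmem⟩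
    rw [hD0, Finset.mem_filter, Finset.mem_product, Finset.mem_range, Finset.mem_range]
    refine ⟨⟨Nat.lt_succ_of_le hk0, ?_⟩, hlt, x, hx, hmem, hk1, hk2⟩
    exact hlt.trans_le (Nat.pow_le_pow_right (by norm_num) hk0)
  refine ⟨D0.filter (fun p => ∀ q ∈ D0, q.1 < p.1 → Disjoint (dy q.1 q.2) (dy p.1 p.2)), ?_, ?_,
    ?_, ?_⟩
  · intro p hp
    exact ((Finset.mem_filter.1 (Finset.mem_filter.1 hp).1).2).1
  · intro p hp
    exact ((Finset.mem_filter.1 (Finset.mem_filter.1 hp).1).2).2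
  · intro p hp q hq hpq
    rcases lt_trichotomy p.1 q.1 with h | h | h
    · exact (Finset.mem_filter.1 hq).2 p (Finset.mem_filter.1 hp).1 h
    · by_contra hd
      rw [Set.not_disjoint_iff] at hd
      obtain ⟨x, hx1, hx2⟩ := hd
      have hx0 := dy_nonneg hx1
      rw [mem_dy_iff hx0] at hx1 hx2
      rw [h] at hx1
      exact hpq (Prod.ext h (hx1.symm.trans hx2))
    · exact ((Finset.mem_filter.1 hp).2 q (Finset.mem_filter.1 hq).1 h).symm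
  · intro x hx
    obtain ⟨p0, hp0, hxp0⟩ := hcov x hx
    obtain ⟨p, hp, hmin⟩ := Finset.exists_min_image (D0.filter (fun p => x ∈ dy p.1 p.2))
      (fun p => p.1) ⟨p0, Finset.mem_filter.2 ⟨hp0, hxp0⟩⟩
    rw [Finset.mem_filter] at hp
    rw [Set.mem_iUnion₂]
    refine ⟨p, Finset.mem_filter.2 ⟨hp.1, ?_⟩, hp.2⟩
    intro q hq hqp
    by_contra hd
    have h3 := dy_nest hqp.le hd hp.2
    have h4 := hmin q (Finset.mem_filter.2 ⟨hq, h3⟩)
    omega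

end Pool.Agent.Helper18.SG
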