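import Mathlib
import Pool.Agent.Helper18.SG.PDef
import Pool.Agent.Helper18.SG.QInt
import Pool.Agent.Helper18.SG.Dy

/-! Block SG-G: the mixing inequality on one horizontal line.

`rects`: for the reversed noise `c` (arbitrary) and `m >= 1` and every `r > 0` there is a finite family
`R` of good rectangles `(c0, c1, t0, t1)`, pairwise disjoint, with sides at most `max r (b ^ 2 / b ^ (7 m))`,
covering all points `(cs, ts)` of `[0,1)²` with `HypS b (W a c cs ts) m`.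
Proof. Take `ρ` from `unif` with `η = min (1/100) (1 / b ^ 2)`, a level `K` with `2 ^ (-K) <= min ρ r`. For
every dyadic interval `C = dy K i` let `S` be the set of `t ∈ [0,1)` such that some `cs ∈ C` has
`HypS b (W a c cs t) m`, choose such a `cs t`, and apply `dy_select` with `w t = W a c (cs t) t m`,
`β = b ^ 2`, `M = (10 |a|) ^ m` (`hyp_end`: `w >= b ^ (7 m) >= b ^ 2`; `v_abs_le`). The rectangle `C × V` is
a `GoodRect` by `unif`, and `|V| <= b ^ 2 / w <= b ^ 2 / b ^ (7 m)`.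

`g_ineq`: apply `dy_select` to `S = {x ∈ [0,1) | HypS b (W a c y x) n}`, `w x = W a c y x n`, to get the
disjoint intervals `Q`, and `rects` with `rev c (n+m)` and `r = b ^ 2 / b ^ (7 m)`. On a set
`{x ∈ Q | state ∈ R}` (these are pairwise disjoint and measurable) the integrand is at least
`(inf_Q g1) (inf_R g2)` (`g2` periodic). By `p_lemma` the integral is at least
`(1 - 1/b) ∑_Q |Q| inf_Q g1 * ∑_R |R| inf_R g2`. As `g1` is `L`-Lipschitz and `|Q| <= b ^ 2 / b ^ (7 n)`,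
`∑_Q |Q| inf_Q g1 >= ∑_Q ∫_Q g1 - L b ^ 2 / b ^ (7 n) >= ∫_S g1 - L b ^ 2 / b ^ (7 n)`, and it is `>= 0`;
in the same way `∑_R |R| inf_R g2 >= ∫ g2 - L b ^ 2 / b ^ (7 m)` over the covered set. (With
`inf` replaced by the value at one point minus `L |Q|`, or use `sInf`, as is convenient.) -/

set_option autoImplicit false
open Real Set MeasureTheory

namespace Pool.Agent.Helper18.SG

private lemma dy_len (k i : ℕ) : ((i:ℝ) + 1) / 2 ^ k - (i:ℝ) / 2 ^ k = 1 / 2 ^ k := by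
  ring

private lemma dy_mem_floor (K : ℕ) {x : ℝ} (hx : x ∈ Ico (0:ℝ) 1) :
    ∃ i : ℕ, i < 2 ^ K ∧ x ∈ dy K i := by
  have h2 : (0:ℝ) < 2 ^ K := by positivity
  refine ⟨⌊2 ^ K * x⌋₊, ?_, ?_, ?_⟩
  · rw [Nat.floor_lt (by have := hx.1; positivity)]
    push_cast
    nlinarith [hx.2]
  · rw [div_le_iff₀ h2, mul_comm x]
    exact Nat.floor_le (by have := hx.1; positivity)
  · rw [lt_div_iff₀ h2, mul_comm x]
    exact Nat.lt_floor_add_one _

private lemma dy_level_disj (K : ℕ) {i j : ℕ} (h : i ≠ j) : Disjoint (dy K i) (dy K j) := by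
  have h2 : (0:ℝ) < 2 ^ K := by positivity
  rw [Set.disjoint_left]
  intro x hx hy
  apply h
  have h1 := hx.1
  have h3 := hx.2
  have h4 := hy.1
  have h5 := hy.2
  rw [div_le_iff₀ h2] at h1 h4
  rw [lt_div_iff₀ h2] at h3 h5
  have h6 : (i:ℝ) < j + 1 := by linarith
  have h7 : (j:ℝ) < i + 1 := by linarith
  have h8 : i < j + 1 := by exact_mod_cast h6
  have h9 : j < i + 1 := by exact_mod_cast h7
  omega

theorem rects {a b : ℝ} (hb : 10000 ≤ b) (hab : |a| = b ^ 10) (c : ℕ → ℝ) {m : ℕ} (hm : 1 ≤ m)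
    {r : ℝ} (hr : 0 < r) :
    ∃ R : Finset (ℝ × ℝ × ℝ × ℝ), (∀ q ∈ R, GoodRect a b c m q.1 q.2.1 q.2.2.1 q.2.2.2) ∧
      (∀ q ∈ R, q.2.1 - q.1 ≤ r ∧ q.2.2.2 - q.2.2.1 ≤ b ^ 2 / b ^ (7 * m)) ∧
      (∀ q ∈ R, ∀ q' ∈ R, q ≠ q' → Disjoint (Ico q.1 q.2.1 ×ˢ Ico q.2.2.1 q.2.2.2)
        (Ico q'.1 q'.2.1 ×ˢ Ico q'.2.2.1 q'.2.2.2)) ∧
      ∀ p : ℝ × ℝ, p ∈ Ico (0:ℝ) 1 ×ˢ Ico (0:ℝ) 1 → HypS b (W a c p.1 p.2) m →
        ∃ q ∈ R, p ∈ Ico q.1 q.2.1 ×ˢ Ico q.2.2.1 q.2.2.2 := by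
  classical
  have hb0 : (0:ℝ) < b := by linarith
  have hb1 : (1:ℝ) ≤ b := by linarith
  have hbi : 1 / b ^ 2 ≤ (1:ℝ) / 100 := by
    apply one_div_le_one_div_of_le (by norm_num)
    nlinarith
  have ha1 : 1 ≤ |a| := by
    rw [hab]
    exact one_le_pow₀ hb1
  obtain ⟨ρ, hρ, hU⟩ := unif a c m (η := 1 / b ^ 2) (by positivity)
  obtain ⟨K, hK⟩ := exists_pow_lt_of_lt_one (lt_min hρ hr) (show (1/2:ℝ) < 1 by norm_num)
  have hKe : (1/2:ℝ) ^ K = 1 / 2 ^ K := by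
    rw [div_pow, one_pow]
  rw [hKe] at hK
  have hKρ : 1 / 2 ^ K ≤ ρ := le_trans hK.le (min_le_left _ _)
  have hKr : 1 / 2 ^ K ≤ r := le_trans hK.le (min_le_right _ _)
  have h2K : (0:ℝ) < 2 ^ K := by positivity
  -- the selection for every column
  have key : ∀ i : ℕ, ∃ D : Finset (ℕ × ℕ), (∀ p ∈ D, p.2 < 2 ^ p.1) ∧
      (∀ p ∈ D, ∃ t ∈ Ico (0:ℝ) 1, ∃ cs ∈ dy K i, HypS b (W a c cs t) m ∧ t ∈ dy p.1 p.2 ∧
        b ^ 2 / 2 < W a c cs t m / 2 ^ p.1 ∧ W a c cs t m / 2 ^ p.1 ≤ b ^ 2) ∧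
      (∀ p ∈ D, ∀ q ∈ D, p ≠ q → Disjoint (dy p.1 p.2) (dy q.1 q.2)) ∧
      {t : ℝ | t ∈ Ico (0:ℝ) 1 ∧ ∃ cs ∈ dy K i, HypS b (W a c cs t) m} ⊆ ⋃ p ∈ D, dy p.1 p.2 := by
    intro i
    set S : Set ℝ := {t : ℝ | t ∈ Ico (0:ℝ) 1 ∧ ∃ cs ∈ dy K i, HypS b (W a c cs t) m} with hS
    have hch : ∀ t : ℝ, ∃ cs : ℝ, t ∈ S → cs ∈ dy K i ∧ HypS b (W a c cs t) m := by
      intro t
      by_cases ht : t ∈ S
      · obtain ⟨cs, h1, h2⟩ := ht.2
        exact ⟨cs, fun _ => ⟨h1, h2⟩⟩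
      · exact ⟨0, fun h => absurd h ht⟩
    choose cf hcf using hch
    obtain ⟨D, hD1, hD2, hD3, hD4⟩ := dy_select (S := S) (fun t ht => ht.1)
      (w := fun t => W a c (cf t) t m) (β := b ^ 2) (M := (10 * |a|) ^ m) (by positivity)
      (by
        intro t ht
        have h := (hyp_end (by linarith) hm (hcf t ht).2).2.2
        refine le_trans ?_ h
        exact pow_le_pow_right₀ hb1 (by omega))
      (by
        intro t ht
        exact v_abs_le ha1 c _ _ _)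
    refine ⟨D, hD1, ?_, hD3, hD4⟩
    intro p hp
    obtain ⟨t, htS, ht1, ht2, ht3⟩ := hD2 p hp
    exact ⟨t, htS.1, cf t, (hcf t htS).1, (hcf t htS).2, ht1, ht2, ht3⟩
  choose D hD1 hD2 hD3 hD4 using key
  set f : (ℕ × (ℕ × ℕ)) → ℝ × ℝ × ℝ × ℝ := fun z =>
    ((z.1:ℝ) / 2 ^ K, ((z.1:ℝ) + 1) / 2 ^ K, (z.2.2:ℝ) / 2 ^ z.2.1, ((z.2.2:ℝ) + 1) / 2 ^ z.2.1)
    with hf
  set Z0 : Finset (ℕ × (ℕ × ℕ)) := (Finset.range (2 ^ K)).biUnion
    (fun i => (D i).image (fun p => (i, p))) with hZ0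
  have hmem : ∀ z : ℕ × (ℕ × ℕ), z ∈ Z0 ↔ z.1 < 2 ^ K ∧ z.2 ∈ D z.1 := by
    intro z
    rw [hZ0, Finset.mem_biUnion]
    constructor
    · rintro ⟨i, hi, hz⟩
      rw [Finset.mem_image] at hz
      obtain ⟨p, hp, rfl⟩ := hz
      exact ⟨Finset.mem_range.1 hi, hp⟩
    · rintro ⟨h1, h2⟩
      exact ⟨z.1, Finset.mem_range.2 h1, Finset.mem_image.2 ⟨z.2, h2, rfl⟩⟩
  refine ⟨Z0.image f, ?_, ?_, ?_, ?_⟩
  · intro q hq
    rw [Finset.mem_image] at hq
    obtain ⟨⟨i, k, j⟩, hz, rfl⟩ := hq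
    rw [hmem] at hz
    obtain ⟨hi, hp⟩ := hz
    simp only at hi hp
    have hj : j < 2 ^ k := hD1 i _ hp
    obtain ⟨t, ht01, cs, hcs, hH, htd, hw1, hw2⟩ := hD2 i _ hp
    simp only at htd hw1 hw2
    have h2k : (0:ℝ) < 2 ^ k := by positivity
    have hi' : (i:ℝ) + 1 ≤ 2 ^ K := by exact_mod_cast hi
    have hj' : (j:ℝ) + 1 ≤ 2 ^ k := by exact_mod_cast hj
    have hlen : ∀ w : ℝ, w * (((j:ℝ) + 1) / 2 ^ k - (j:ℝ) / 2 ^ k) = w / 2 ^ k := by
      intro w; rw [dy_len]; ring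
    refine ⟨?_, ?_, ?_, ?_, ?_, ?_, ?_⟩
    · simp only [hf]; positivity
    · simp only [hf]
      exact div_lt_div_of_pos_right (by linarith) h2K
    · simp only [hf]
      rw [div_le_one h2K]; exact hi'
    · simp only [hf]; positivity
    · simp only [hf]
      exact div_lt_div_of_pos_right (by linarith) h2k
    · simp only [hf]
      rw [div_le_one h2k]; exact hj'
    · simp only [hf]
      refine ⟨cs, hcs, t, ⟨htd.1, htd.2.le⟩, hH, ?_, ?_, ?_⟩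
      · rw [hlen]; exact hw1
      · rw [hlen]; exact hw2
      · intro c' hc' s hs
        have hc0 : ∀ z ∈ dy K i, z ∈ Icc (0:ℝ) 1 := by
          intro z hz
          refine ⟨le_trans (by positivity) hz.1, le_trans hz.2.le ?_⟩
          rw [div_le_one h2K]; exact hi'
        have hs0 : s ∈ Icc (0:ℝ) 1 := by
          refine ⟨le_trans (by positivity) hs.1, le_trans hs.2 ?_⟩
          rw [div_le_one h2k]; exact hj'
        have hd : |c' - cs| ≤ ρ := by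
          refine le_trans ?_ hKρ
          have e := dy_len K i
          rw [abs_le]
          have a1 := hc'.1
          have a2 := hc'.2
          have a3 := hcs.1
          have a4 := hcs.2
          constructor <;> linarith
        have h1 := hU c' (hc0 c' hc') cs (hc0 cs hcs) hd s hs0 m (by omega)
        have h2 := hU c' (hc0 c' hc') cs (hc0 cs hcs) hd s hs0 (m+1) le_rfl
        exact ⟨⟨h1.1.trans hbi, h2.1.trans hbi⟩, h1.2, h2.2⟩
  · intro q hq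
    rw [Finset.mem_image] at hq
    obtain ⟨⟨i, k, j⟩, hz, rfl⟩ := hq
    rw [hmem] at hz
    obtain ⟨hi, hp⟩ := hz
    simp only at hi hp
    obtain ⟨t, ht01, cs, hcs, hH, htd, hw1, hw2⟩ := hD2 i _ hp
    simp only at htd hw1 hw2
    have h2k : (0:ℝ) < 2 ^ k := by positivity
    simp only [hf]
    rw [dy_len, dy_len]
    refine ⟨hKr, ?_⟩
    have h := (hyp_end (by linarith) hm hH).2.2
    rw [div_le_iff₀ h2k] at hw2
    rw [div_le_div_iff₀ h2k (by positivity)]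
    rw [one_mul]
    exact h.trans hw2
  · intro q hq q' hq' hne
    rw [Finset.mem_image] at hq hq'
    obtain ⟨⟨i, k, j⟩, hz, rfl⟩ := hq
    obtain ⟨⟨i', k', j'⟩, hz', rfl⟩ := hq'
    rw [hmem] at hz hz'
    obtain ⟨hi, hp⟩ := hz
    obtain ⟨hi', hp'⟩ := hz'
    simp only at hi hp hi' hp'
    rw [Set.disjoint_prod]
    by_cases hii : i = i'
    · subst hii
      right
      have hpp : ((k, j) : ℕ × ℕ) ≠ (k', j') := by
        rintro h
        apply hne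
        rw [h]
      exact hD3 i _ hp _ hp' hpp
    · left
      exact dy_level_disj K hii
  · intro p hp hH
    obtain ⟨i, hi, hpi⟩ := dy_mem_floor K hp.1
    have hpS : p.2 ∈ {t : ℝ | t ∈ Ico (0:ℝ) 1 ∧ ∃ cs ∈ dy K i, HypS b (W a c cs t) m} :=
      ⟨hp.2, p.1, hpi, hH⟩
    have := hD4 i hpS
    simp only [Set.mem_iUnion] at this
    obtain ⟨z, hz, hpz⟩ := this
    refine ⟨f (i, z), Finset.mem_image.2 ⟨(i, z), (hmem _).2 ⟨hi, hz⟩, rfl⟩, ?_⟩
    exact ⟨hpi, hpz⟩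

end Pool.Agent.Helper18.SG
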