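import Mathlib
import Pool.Agent.Helper18.SG.PLem
import Pool.Agent.Helper18.SG.Rects

/-! Block SG-G: see the plan in `Rects.lean`. `measurableSet_hyp`: countable intersection of closed conditions,
`continuous_v`. -/

set_option autoImplicit false
open Real Set MeasureTheory

namespace Pool.Agent.Helper18.SG

theorem measurableSet_hyp (a b : ℝ) (c : ℕ → ℝ) (m : ℕ) :
    MeasurableSet {p : ℝ × ℝ | HypS b (W a c p.1 p.2) m} := by
  have hW : ∀ k, Continuous (fun p : ℝ × ℝ => W a c p.1 p.2 k) := by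
    intro k
    unfold W mx
    exact ((continuous_v a c (k+1)).abs).max ((continuous_v a c k).abs)
  have he : {p : ℝ × ℝ | HypS b (W a c p.1 p.2) m} = ⋂ (j : ℕ) (i : ℕ),
      {p : ℝ × ℝ | j ≤ i → i ≤ m →
        W a c p.1 p.2 j * b ^ (9 * (i - j)) ≤ b ^ (2 * (m - j)) * W a c p.1 p.2 i} := by
    ext p
    simp only [HypS, Set.mem_ofPred_eq, Set.mem_iInter]
  rw [he]
  refine MeasurableSet.iInter fun j => MeasurableSet.iInter fun i => ?_
  by_cases h1 : j ≤ i
  · by_cases h2 : i ≤ m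
    · simp only [h1, h2, true_implies]
      exact measurableSet_le ((hW j).mul continuous_const).measurable
        (continuous_const.mul (hW i)).measurable
    · simp only [h2, false_implies, implies_true, Set.ofPred_true, MeasurableSet.univ]
  · simp only [h1, false_implies, Set.ofPred_true, MeasurableSet.univ]

/-- Riemann sums over a disjoint family -/
private lemma family_lower {X ι : Type*} [MeasurableSpace X] (μ : Measure X) (D : Finset ι)
    (P : ι → Set X) (hPm : ∀ z ∈ D, MeasurableSet (P z))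
    (hd : ∀ z ∈ D, ∀ z' ∈ D, z ≠ z' → Disjoint (P z) (P z')) {B : Set X} (hB : μ B = 1)
    (hPB : ∀ z ∈ D, P z ⊆ B) {T : Set X} (hT : T ⊆ ⋃ z ∈ D, P z) {g : X → ℝ} (hg0 : ∀ x, 0 ≤ g x)
    (hgi : IntegrableOn g B μ) {α : ι → ℝ} {δ : ℝ} (hδ : 0 ≤ δ)
    (hα : ∀ z ∈ D, ∀ x ∈ P z, g x - δ ≤ α z) :
    (∫ x in T, g x ∂μ) - δ ≤ ∑ z ∈ D, μ.real (P z) * α z := by
  have hUB : (⋃ z ∈ D, P z) ⊆ B := by
    simp only [Set.iUnion_subset_iff]
    exact hPB
  have hgU : IntegrableOn g (⋃ z ∈ D, P z) μ := hgi.mono_set hUB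
  have hpd : (↑D : Set ι).PairwiseDisjoint P := fun z hz z' hz' hne => hd z hz z' hz' hne
  have hfin : ∀ z ∈ D, μ (P z) ≠ ⊤ := by
    intro z hz
    have h1 : μ (P z) ≤ 1 := by rw [← hB]; exact measure_mono (hPB z hz)
    exact ne_top_of_le_ne_top ENNReal.one_ne_top h1
  have h1 : ∫ x in T, g x ∂μ ≤ ∫ x in ⋃ z ∈ D, P z, g x ∂μ := by
    apply setIntegral_mono_set hgU
    · exact Filter.Eventually.of_forall hg0
    · exact Filter.Eventually.of_forall hT
  have h2 : ∫ x in ⋃ z ∈ D, P z, g x ∂μ = ∑ z ∈ D, ∫ x in P z, g x ∂μ :=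
    integral_biUnion_finset D hPm hpd (fun z hz => hgi.mono_set (hPB z hz))
  have h3 : ∀ z ∈ D, ∫ x in P z, g x ∂μ ≤ μ.real (P z) * α z + δ * μ.real (P z) := by
    intro z hz
    have h4 : ∫ x in P z, g x ∂μ ≤ ∫ _x in P z, (α z + δ) ∂μ := by
      apply setIntegral_mono_on (hgi.mono_set (hPB z hz)) _ (hPm z hz)
      · intro x hx
        have := hα z hz x hx
        linarith
      · exact integrableOn_const (hfin z hz)
    rw [setIntegral_const, smul_eq_mul] at h4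
    linarith
  have h5 : ∑ z ∈ D, μ.real (P z) ≤ 1 := by
    rw [← measureReal_biUnion_finset hpd hPm hfin]
    have h6 : μ (⋃ z ∈ D, P z) ≤ 1 := by rw [← hB]; exact measure_mono hUB
    have := ENNReal.toReal_mono ENNReal.one_ne_top h6
    simpa [Measure.real] using this
  have h7 := Finset.sum_le_sum h3
  rw [Finset.sum_add_distrib, ← Finset.mul_sum] at h7
  have h8 : δ * ∑ z ∈ D, μ.real (P z) ≤ δ * 1 := mul_le_mul_of_nonneg_left h5 hδ
  linarith

theorem g_ineq {a b : ℝ} (hb : 10000 ≤ b) (hab : |a| = b ^ 10) (c : ℕ → ℝ) (y : ℝ) {n m : ℕ}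
    (hn : 1 ≤ n) (hm : 1 ≤ m) {L : ℝ} (hL : 0 ≤ L) {g1 : ℝ → ℝ} {g2 : ℝ × ℝ → ℝ}
    (h10 : ∀ x, 0 ≤ g1 x) (h11 : ∀ x, g1 x ≤ 1) (h1L : ∀ x x', |g1 x - g1 x'| ≤ L * |x - x'|)
    (h20 : ∀ p, 0 ≤ g2 p) (h21 : ∀ p, g2 p ≤ 1) (h2L : ∀ p p', |g2 p - g2 p'| ≤ L * dist p p')
    (h2p : ∀ (p : ℝ × ℝ) (i j : ℤ), g2 (p.1 + i, p.2 + j) = g2 p) :
    (1 - 1 / b) * (max 0 ((∫ x in Ico (0:ℝ) 1 ∩ {x | HypS b (W a c y x) n}, g1 x) -
        L * (b ^ 2 / b ^ (7 * n))) *
      max 0 ((∫ p in (Ico (0:ℝ) 1 ×ˢ Ico (0:ℝ) 1) ∩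
        {p : ℝ × ℝ | HypS b (W a (rev c (n+m)) p.1 p.2) m}, g2 p) - L * (b ^ 2 / b ^ (7 * m)))) ≤
      ∫ x in Ico (0:ℝ) 1, g1 x * g2 (Z a c y x (n+m+1), Z a c y x (n+m)) := by
  classical
  have hb0 : (0:ℝ) < b := by linarith
  have hb1 : (1:ℝ) ≤ b := by linarith
  have ha1 : 1 ≤ |a| := by
    rw [hab]
    exact one_le_pow₀ hb1
  -- continuity
  have hg1c : Continuous g1 := by
    have : LipschitzWith (Real.toNNReal L) g1 := by
      apply LipschitzWith.of_dist_le_mul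
      intro x x'
      rw [Real.dist_eq, Real.dist_eq, Real.coe_toNNReal _ hL]
      exact h1L x x'
    exact this.continuous
  have hg2c : Continuous g2 := by
    have : LipschitzWith (Real.toNNReal L) g2 := by
      apply LipschitzWith.of_dist_le_mul
      intro x x'
      rw [Real.dist_eq, Real.coe_toNNReal _ hL]
      exact h2L x x'
    exact this.continuous
  have hZc : ∀ k, Continuous (fun x : ℝ => Z a c y x k) := fun k =>
    (continuous_Z a c k).comp (Continuous.prodMk_right y)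
  set F : ℝ → ℝ := fun x => g1 x * g2 (Z a c y x (n+m+1), Z a c y x (n+m)) with hF
  have hFc : Continuous F := hg1c.mul (hg2c.comp ((hZc _).prodMk (hZc _)))
  -- the intervals
  set S : Set ℝ := Ico (0:ℝ) 1 ∩ {x | HypS b (W a c y x) n} with hS
  obtain ⟨D, hD1, hD2, hD3, hD4⟩ := dy_select (S := S) (fun x hx => hx.1)
    (w := fun x => W a c y x n) (β := b ^ 2) (M := (10 * |a|) ^ n) (by positivity)
    (by
      intro x hx
      have h := (hyp_end (by linarith) hn hx.2).2.2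
      refine le_trans ?_ h
      exact pow_le_pow_right₀ hb1 (by omega))
    (by
      intro x hx
      exact v_abs_le ha1 c _ _ _)
  obtain ⟨R, hR1, hR2, hR3, hR4⟩ := rects hb hab (rev c (n+m)) hm
    (r := b ^ 2 / b ^ (7 * m)) (by positivity)
  -- lengths
  have hlen : ∀ p : ℕ × ℕ, volume.real (dy p.1 p.2) = 1 / 2 ^ p.1 := by
    intro p
    have h2 : (0:ℝ) < 2 ^ p.1 := by positivity
    unfold dy
    rw [Real.volume_real_Ico_of_le (by
      apply div_le_div_of_nonneg_right _ h2.le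
      linarith)]
    ring
  have hdy01 : ∀ p ∈ D, dy p.1 p.2 ⊆ Ico (0:ℝ) 1 := by
    intro p hp x hx
    have h2 : (0:ℝ) < 2 ^ p.1 := by positivity
    have hj : p.2 < 2 ^ p.1 := hD1 p hp
    have hj' : (p.2:ℝ) + 1 ≤ 2 ^ p.1 := by exact_mod_cast hj
    refine ⟨le_trans (by positivity) hx.1, lt_of_lt_of_le hx.2 ?_⟩
    rw [div_le_one h2]; exact hj'
  have hdyl : ∀ p ∈ D, 1 / 2 ^ p.1 ≤ b ^ 2 / b ^ (7 * n) := by
    intro p hp
    obtain ⟨x, hxS, hx1, hx2, hx3⟩ := hD2 p hp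
    have h2 : (0:ℝ) < 2 ^ p.1 := by positivity
    have h := (hyp_end (by linarith) hn hxS.2).2.2
    rw [div_le_iff₀ h2] at hx3
    rw [div_le_div_iff₀ h2 (by positivity), one_mul]
    exact h.trans hx3
  have hdyne : ∀ p : ℕ × ℕ, (dy p.1 p.2).Nonempty := by
    intro p
    have h2 : (0:ℝ) < 2 ^ p.1 := by positivity
    exact ⟨(p.2:ℝ) / 2 ^ p.1, le_rfl, div_lt_div_of_pos_right (by linarith) h2⟩
  -- infima on the intervals
  set α : ℕ × ℕ → ℝ := fun p => sInf (g1 '' dy p.1 p.2) with hα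
  have hbd1 : ∀ p : ℕ × ℕ, BddBelow (g1 '' dy p.1 p.2) := by
    intro p
    refine ⟨0, ?_⟩
    rintro _ ⟨x, _, rfl⟩
    exact h10 x
  have hα0 : ∀ p, 0 ≤ α p := by
    intro p
    apply le_csInf ((hdyne p).image g1)
    rintro _ ⟨x, _, rfl⟩
    exact h10 x
  have hα1 : ∀ p, ∀ x ∈ dy p.1 p.2, α p ≤ g1 x := fun p x hx =>
    csInf_le (hbd1 p) (Set.mem_image_of_mem g1 hx)
  have hα2 : ∀ p ∈ D, ∀ x ∈ dy p.1 p.2, g1 x - L * (b ^ 2 / b ^ (7 * n)) ≤ α p := by
    intro p hp x hx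
    apply le_csInf ((hdyne p).image g1)
    rintro _ ⟨x', hx', rfl⟩
    have h := h1L x x'
    have h3 : |x - x'| ≤ b ^ 2 / b ^ (7 * n) := by
      refine le_trans ?_ (hdyl p hp)
      have e : ((p.2:ℝ) + 1) / 2 ^ p.1 = (p.2:ℝ) / 2 ^ p.1 + 1 / 2 ^ p.1 := by ring
      have a1 := hx.1
      have a2 := hx.2
      have a3 := hx'.1
      have a4 := hx'.2
      rw [e] at a2 a4
      rw [abs_le]
      constructor <;> linarith
    have h4 : L * |x - x'| ≤ L * (b ^ 2 / b ^ (7 * n)) := mul_le_mul_of_nonneg_left h3 hL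
    have h5 := (abs_le.1 h).2
    linarith
  have sum1 : (∫ x in S, g1 x) - L * (b ^ 2 / b ^ (7 * n)) ≤
      ∑ p ∈ D, volume.real (dy p.1 p.2) * α p := by
    apply family_lower volume D (fun p => dy p.1 p.2) (fun p _ => measurableSet_Ico) hD3
      (B := Ico (0:ℝ) 1) (by simp) hdy01 hD4 h10 _ (by positivity) hα2
    exact (hg1c.integrableOn_Icc).mono_set Ico_subset_Icc_self
  -- the rectangles
  set rc : ℝ × ℝ × ℝ × ℝ → Set (ℝ × ℝ) := fun q =>
    Ico q.1 q.2.1 ×ˢ Ico q.2.2.1 q.2.2.2 with hrc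
  have hrcne : ∀ q ∈ R, (rc q).Nonempty := by
    intro q hq
    have h := hR1 q hq
    exact ⟨(q.1, q.2.2.1), ⟨le_rfl, h.hc⟩, ⟨le_rfl, h.ht⟩⟩
  have hrc01 : ∀ q ∈ R, rc q ⊆ Ico (0:ℝ) 1 ×ˢ Ico (0:ℝ) 1 := by
    intro q hq p hp
    have h := hR1 q hq
    exact ⟨⟨h.hc0.trans hp.1.1, hp.1.2.trans_le h.hc1⟩, ⟨h.ht0.trans hp.2.1, hp.2.2.trans_le h.ht1⟩⟩
  have hrcv : ∀ q ∈ R, volume.real (rc q) = (q.2.1 - q.1) * (q.2.2.2 - q.2.2.1) := by
    intro q hq
    have h := hR1 q hq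
    simp only [hrc]
    rw [Measure.real, Measure.volume_eq_prod, Measure.prod_prod, ENNReal.toReal_mul,
      Real.volume_Ico, Real.volume_Ico, ENNReal.toReal_ofReal (by linarith [h.hc]),
      ENNReal.toReal_ofReal (by linarith [h.ht])]
  set β : ℝ × ℝ × ℝ × ℝ → ℝ := fun q => sInf (g2 '' rc q) with hβ
  have hbd2 : ∀ q, BddBelow (g2 '' rc q) := by
    intro q
    refine ⟨0, ?_⟩
    rintro _ ⟨x, _, rfl⟩
    exact h20 x
  have hβ0 : ∀ q ∈ R, 0 ≤ β q := by
    intro q hq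
    apply le_csInf ((hrcne q hq).image g2)
    rintro _ ⟨x, _, rfl⟩
    exact h20 x
  have hβ1 : ∀ q, ∀ x ∈ rc q, β q ≤ g2 x := fun q x hx =>
    csInf_le (hbd2 q) (Set.mem_image_of_mem g2 hx)
  have hβ2 : ∀ q ∈ R, ∀ x ∈ rc q, g2 x - L * (b ^ 2 / b ^ (7 * m)) ≤ β q := by
    intro q hq x hx
    apply le_csInf ((hrcne q hq).image g2)
    rintro _ ⟨x', hx', rfl⟩
    have h := h2L x x'
    have h3 : dist x x' ≤ b ^ 2 / b ^ (7 * m) := by
      have h4 := hR2 q hq
      rw [Prod.dist_eq, Real.dist_eq, Real.dist_eq]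
      have a1 := hx.1.1
      have a2 := hx.1.2
      have a3 := hx'.1.1
      have a4 := hx'.1.2
      have c1 := hx.2.1
      have c2 := hx.2.2
      have c3 := hx'.2.1
      have c4 := hx'.2.2
      apply max_le
      · refine le_trans ?_ h4.1
        rw [abs_le]
        constructor <;> linarith
      · refine le_trans ?_ h4.2
        rw [abs_le]
        constructor <;> linarith
    have h4 : L * dist x x' ≤ L * (b ^ 2 / b ^ (7 * m)) := mul_le_mul_of_nonneg_left h3 hL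
    have h5 := (abs_le.1 h).2
    linarith
  have sum2 : (∫ p in (Ico (0:ℝ) 1 ×ˢ Ico (0:ℝ) 1) ∩
        {p : ℝ × ℝ | HypS b (W a (rev c (n+m)) p.1 p.2) m}, g2 p) - L * (b ^ 2 / b ^ (7 * m)) ≤
      ∑ q ∈ R, volume.real (rc q) * β q := by
    apply family_lower volume R rc (fun p _ => measurableSet_Ico.prod measurableSet_Ico) hR3
      (B := Ico (0:ℝ) 1 ×ˢ Ico (0:ℝ) 1) _ hrc01 _ h20 _ (by positivity) hβ2
    · rw [Measure.volume_eq_prod, Measure.prod_prod]
      simp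
    · intro p hp
      obtain ⟨q, hq, hpq⟩ := hR4 p hp.1 hp.2
      simp only [Set.mem_iUnion]
      exact ⟨q, hq, hpq⟩
    · have hK : IsCompact (Icc (0:ℝ) 1 ×ˢ Icc (0:ℝ) 1) := isCompact_Icc.prod isCompact_Icc
      exact (hg2c.continuousOn.integrableOn_compact hK).mono_set
        (Set.prod_mono Ico_subset_Icc_self Ico_subset_Icc_self)
  -- the sets of good points
  set A : (ℕ × ℕ) × (ℝ × ℝ × ℝ × ℝ) → Set ℝ := fun z =>
    {x : ℝ | x ∈ dy z.1.1 z.1.2 ∧ ∃ i j : ℤ, Z a c y x (n+m+1) - i ∈ Ico z.2.1 z.2.2.1 ∧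
      Z a c y x (n+m) - j ∈ Ico z.2.2.2.1 z.2.2.2.2} with hA
  have hAm : ∀ z, MeasurableSet (A z) := by
    intro z
    have he : A z = dy z.1.1 z.1.2 ∩ ⋃ (i : ℤ) (j : ℤ),
        ({x : ℝ | Z a c y x (n+m+1) - i ∈ Ico z.2.1 z.2.2.1} ∩
          {x : ℝ | Z a c y x (n+m) - j ∈ Ico z.2.2.2.1 z.2.2.2.2}) := by
      ext x
      simp only [hA, Set.mem_ofPred_eq, Set.mem_inter_iff, Set.mem_iUnion]
    rw [he]
    refine measurableSet_Ico.inter (MeasurableSet.iUnion fun i => MeasurableSet.iUnion fun j => ?_)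
    exact (((hZc _).sub continuous_const).measurable measurableSet_Ico).inter
      (((hZc _).sub continuous_const).measurable measurableSet_Ico)
  have hAv : ∀ z ∈ D ×ˢ R, (1 - 1 / b) * (volume.real (dy z.1.1 z.1.2) * volume.real (rc z.2)) ≤
      volume.real (A z) := by
    intro z hz
    rw [Finset.mem_product] at hz
    obtain ⟨hz1, hz2⟩ := hz
    obtain ⟨x0, hx0S, hx0, hw1, hw2⟩ := hD2 z.1 hz1
    have h2 : (0:ℝ) < 2 ^ z.1.1 := by positivity
    have e : ((z.1.2:ℝ) + 1) / 2 ^ z.1.1 - (z.1.2:ℝ) / 2 ^ z.1.1 = 1 / 2 ^ z.1.1 := by ring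
    have hp := p_lemma (y := y) (q0 := (z.1.2:ℝ) / 2 ^ z.1.1) (q1 := ((z.1.2:ℝ) + 1) / 2 ^ z.1.1)
      hb hab hn hm (div_lt_div_of_pos_right (by linarith) h2)
      ⟨x0, ⟨hx0.1, hx0.2.le⟩, hx0S.2, by
        rw [e]
        have : W a c y x0 n * (1 / 2 ^ z.1.1) = W a c y x0 n / 2 ^ z.1.1 := by ring
        rw [this]
        exact hw1, by
        rw [e]
        have : W a c y x0 n * (1 / 2 ^ z.1.1) = W a c y x0 n / 2 ^ z.1.1 := by ring
        rw [this]
        exact hw2⟩ (hR1 z.2 hz2)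
    rw [e] at hp
    rw [hlen, hrcv z.2 hz2]
    have hfin : volume (A z) ≠ ⊤ := by
      have h1 : volume (A z) ≤ volume (Ico (0:ℝ) 1) :=
        measure_mono (fun x hx => hdy01 z.1 hz1 hx.1)
      refine ne_top_of_le_ne_top ?_ h1
      simp
    exact (ENNReal.ofReal_le_iff_le_toReal hfin).1 hp
  -- pointwise inequality
  have key : ∀ x, ∑ z ∈ D ×ˢ R, (A z).indicator (fun _ => α z.1 * β z.2) x ≤ F x := by
    intro x
    have hF0 : 0 ≤ F x := mul_nonneg (h10 _) (h20 _)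
    by_cases hx : ∃ z ∈ D ×ˢ R, x ∈ A z
    · obtain ⟨z, hz, hxz⟩ := hx
      rw [Finset.sum_eq_single z]
      · rw [Set.indicator_of_mem hxz]
        rw [Finset.mem_product] at hz
        obtain ⟨hxd, i, j, hi, hj⟩ := hxz
        have e1 : g2 (Z a c y x (n+m+1), Z a c y x (n+m)) =
            g2 (Z a c y x (n+m+1) - i, Z a c y x (n+m) - j) := by
          rw [← h2p (Z a c y x (n+m+1) - i, Z a c y x (n+m) - j) i j]
          simp
        simp only [hF]
        rw [e1]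
        exact mul_le_mul (hα1 _ x hxd) (hβ1 _ _ ⟨hi, hj⟩) (hβ0 _ hz.2) (h10 _)
      · intro z' hz' hne
        apply Set.indicator_of_notMem
        intro hxz'
        apply hne
        rw [Finset.mem_product] at hz hz'
        obtain ⟨hxd, i, j, hi, hj⟩ := hxz
        obtain ⟨hxd', i', j', hi', hj'⟩ := hxz'
        have e1 : z'.1 = z.1 := by
          by_contra hcon
          exact Set.disjoint_left.1 (hD3 _ hz'.1 _ hz.1 hcon) hxd' hxd
        have g := hR1 _ hz.2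
        have g' := hR1 _ hz'.2
        have ei : i' = i := by
          have h1 : (i:ℝ) < i' + 1 := by linarith [hi.1, hi'.2, g.hc0, g'.hc1]
          have h2 : (i':ℝ) < i + 1 := by linarith [hi.2, hi'.1, g'.hc0, g.hc1]
          have h3 : i < i' + 1 := by exact_mod_cast h1
          have h4 : i' < i + 1 := by exact_mod_cast h2
          omega
        have ej : j' = j := by
          have h1 : (j:ℝ) < j' + 1 := by linarith [hj.1, hj'.2, g.ht0, g'.ht1]
          have h2 : (j':ℝ) < j + 1 := by linarith [hj.2, hj'.1, g'.ht0, g.ht1]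
          have h3 : j < j' + 1 := by exact_mod_cast h1
          have h4 : j' < j + 1 := by exact_mod_cast h2
          omega
        subst ei
        subst ej
        have e2 : z'.2 = z.2 := by
          by_contra hcon
          exact Set.disjoint_left.1 (hR3 _ hz'.2 _ hz.2 hcon)
            (show (Z a c y x (n+m+1) - i', Z a c y x (n+m) - j') ∈ _ from ⟨hi', hj'⟩) ⟨hi, hj⟩
        exact Prod.ext e1 e2
      · intro hcon
        exact absurd hz hcon
    · push Not at hx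
      rw [Finset.sum_eq_zero]
      · exact hF0
      · intro z hz
        exact Set.indicator_of_notMem (hx z hz) _
  -- integration
  have hFi : IntegrableOn F (Ico (0:ℝ) 1) := (hFc.integrableOn_Icc).mono_set Ico_subset_Icc_self
  have hAi : ∀ z ∈ D ×ˢ R, Integrable ((A z).indicator (fun _ => α z.1 * β z.2))
      (volume.restrict (Ico (0:ℝ) 1)) := by
    intro z _
    exact (integrable_const _).indicator (hAm z)
  have hint : ∑ z ∈ D ×ˢ R, volume.real (A z) * (α z.1 * β z.2) ≤ ∫ x in Ico (0:ℝ) 1, F x := by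
    have h1 : ∫ x in Ico (0:ℝ) 1, ∑ z ∈ D ×ˢ R, (A z).indicator (fun _ => α z.1 * β z.2) x ≤
        ∫ x in Ico (0:ℝ) 1, F x := by
      apply integral_mono (integrable_finsetSum _ hAi) hFi
      exact key
    rw [integral_finsetSum _ hAi] at h1
    refine le_trans (le_of_eq ?_) h1
    apply Finset.sum_congr rfl
    intro z hz
    rw [integral_indicator_const _ (hAm z), smul_eq_mul]
    congr 1
    rw [Measure.real, Measure.real, Measure.restrict_apply (hAm z)]
    congr 2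
    rw [Finset.mem_product] at hz
    symm
    apply Set.inter_eq_left.2
    intro x hx
    exact hdy01 z.1 hz.1 hx.1
  have hsum : (1 - 1 / b) * ((∑ p ∈ D, volume.real (dy p.1 p.2) * α p) *
      (∑ q ∈ R, volume.real (rc q) * β q)) ≤ ∑ z ∈ D ×ˢ R, volume.real (A z) * (α z.1 * β z.2) := by
    rw [Finset.sum_mul_sum, ← Finset.sum_product', Finset.mul_sum]
    apply Finset.sum_le_sum
    intro z hz
    have h := hAv z hz
    have hz' := Finset.mem_product.1 hz
    have h0 : 0 ≤ α z.1 * β z.2 := mul_nonneg (hα0 _) (hβ0 _ hz'.2)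
    have := mul_le_mul_of_nonneg_right h h0
    refine le_trans (le_of_eq ?_) this
    ring
  have hb2 : 0 ≤ 1 - 1 / b := by
    rw [sub_nonneg, div_le_one hb0]
    exact hb1
  have hs1 : 0 ≤ ∑ p ∈ D, volume.real (dy p.1 p.2) * α p :=
    Finset.sum_nonneg fun p _ => mul_nonneg measureReal_nonneg (hα0 p)
  have hs2 : 0 ≤ ∑ q ∈ R, volume.real (rc q) * β q :=
    Finset.sum_nonneg fun q hq => mul_nonneg measureReal_nonneg (hβ0 q hq)
  refine le_trans ?_ (hsum.trans hint)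
  apply mul_le_mul_of_nonneg_left _ hb2
  exact mul_le_mul (max_le hs1 sum1) (max_le hs2 sum2) (le_max_left _ _) hs1

end Pool.Agent.Helper18.SG
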