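import Mathlib
import Pool.Agent.Helper18.SG.GInt
import Pool.Agent.Helper78.SM.ProbBad

/-! Block SG-MIX: from the line inequality `g_ineq` to decay of correlations on the square, for an
arbitrary noise sequence.

`mix_pos`: integrate `g_ineq` over `y ∈ [0,1)` (`Ico` and `Ioc` differ by a null set; the point is
`p = (x, y)`, the set `{p | HypS b (W a c p.2 p.1) n}` has the same area as its image under the swap).
With `α y = ∫_x g1 (x, y)` over the good set: `∫ max 0 (α y - ℓ1) dy >= max 0 (∫ α - ℓ1)`,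
`∫ α >= ∫ g1 - pbad`, and in the same way `B >= ∫ g2 - pbad'`. Finally
`(1 - ε) max 0 (G1 - s) max 0 (G2 - s') >= G1 G2 - ε - s - s'` for `G1, G2 ∈ [0,1]`, `s, s', ε >= 0`.

`mix`: upper bound by applying `mix_pos` to `g1` and `1 - g2`; for functions with values in `[-1, 1]`
write `f = 2 f1 - 1`, `g = 2 g1 - 1`: the correlation of `f`, `g` is 4 times the one of `f1`, `g1`. -/

set_option autoImplicit false
open Real Set MeasureTheory

namespace Pool.Agent.Helper18.SG

open Pool.Agent.Helper78.SM (sq)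

/-- the state after `N` steps; `p = (x, y)` -/
noncomputable def st (a : ℝ) (c : ℕ → ℝ) (N : ℕ) (p : ℝ × ℝ) : ℝ × ℝ :=
  (Z a c p.2 p.1 (N+1), Z a c p.2 p.1 N)

/-- area of the non hyperbolic points; `p = (y, x)` -/
noncomputable def pbad (a b : ℝ) (c : ℕ → ℝ) (n : ℕ) : ℝ :=
  (volume {p : ℝ × ℝ | p ∈ sq ∧ ¬ HypS b (W a c p.1 p.2) n}).toReal

private lemma psi_int77 (a x : ℝ) (i : ℤ) :
    Pool.Agent.Helper78.SM.psi a (x + i) = Pool.Agent.Helper78.SM.psi a x + 2 * i := by
  unfold Pool.Agent.Helper78.SM.psi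
  have h : Real.sin (2 * π * (x + i)) = Real.sin (2 * π * x) := by
    rw [show 2 * π * (x + i) = 2 * π * x + i * (2 * π) by ring]
    exact Real.sin_add_int_mul_two_pi _ _
  rw [h]; ring

/-- one step -/
private noncomputable def T77 (a c : ℝ) (p : ℝ × ℝ) : ℝ × ℝ :=
  (Pool.Agent.Helper78.SM.psi a p.1 - p.2 + c, p.1)

private lemma st_succ77 (a : ℝ) (c : ℕ → ℝ) (N : ℕ) (p : ℝ × ℝ) :
    st a c (N+1) p = T77 a (c N) (st a c N p) := by
  unfold st T77
  rw [Z_rec]

private lemma st_zero77 (a : ℝ) (c : ℕ → ℝ) (p : ℝ × ℝ) : st a c 0 p = p := by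
  unfold st
  rw [Z_zero, Z_one]

private lemma cont_T77 (a c : ℝ) : Continuous (T77 a c) := by
  unfold T77 Pool.Agent.Helper78.SM.psi
  fun_prop

private lemma cont_st77 (a : ℝ) (c : ℕ → ℝ) (N : ℕ) : Continuous (st a c N) := by
  induction N with
  | zero =>
    have e : st a c 0 = id := funext (st_zero77 a c)
    rw [e]
    exact continuous_id
  | succ N ih =>
    have e : st a c (N+1) = T77 a (c N) ∘ st a c N := funext (st_succ77 a c N)
    rw [e]
    exact (cont_T77 a _).comp ih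

private lemma cont_lip77 {L : ℝ} (hL : 0 ≤ L) {f : ℝ × ℝ → ℝ}
    (h : ∀ p p', |f p - f p'| ≤ L * dist p p') : Continuous f := by
  have h1 : LipschitzWith ⟨L, hL⟩ f :=
    LipschitzWith.of_dist_le_mul (fun p p' => by rw [Real.dist_eq]; exact h p p')
  exact h1.continuous

private lemma vres77 : (volume : Measure (ℝ × ℝ)).restrict sq =
    ((volume : Measure ℝ).restrict (Ioc 0 1)).prod ((volume : Measure ℝ).restrict (Ioc 0 1)) := by
  rw [Measure.prod_restrict, ← Measure.volume_eq_prod]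
  rfl

private lemma int77 {F : ℝ × ℝ → ℝ} (hF : Measurable F) {C : ℝ} (hC : ∀ p, |F p| ≤ C) :
    Integrable F ((volume : Measure (ℝ × ℝ)).restrict sq) := by
  haveI := Pool.Agent.Helper78.SM.prob_sq
  refine Integrable.of_bound hF.aestronglyMeasurable C (ae_of_all _ (fun p => ?_))
  rw [Real.norm_eq_abs]
  exact hC p

private lemma fub77 {F : ℝ × ℝ → ℝ}
    (hF : Integrable F ((volume : Measure (ℝ × ℝ)).restrict sq)) :
    ∫ p in sq, F p = ∫ y in Ioc (0:ℝ) 1, ∫ x in Ioc (0:ℝ) 1, F (x, y) := by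
  rw [vres77] at hF ⊢
  exact integral_prod_symm F hF

private lemma fub77' {F : ℝ × ℝ → ℝ}
    (hF : Integrable F ((volume : Measure (ℝ × ℝ)).restrict sq)) :
    ∫ p in sq, F p = ∫ x in Ioc (0:ℝ) 1, ∫ y in Ioc (0:ℝ) 1, F (x, y) := by
  rw [vres77] at hF ⊢
  exact integral_prod F hF

/-- one step preserves integrals of periodic functions -/
private lemma int_T77 (a c : ℝ) {g : ℝ × ℝ → ℝ} (hg : Continuous g) {C : ℝ} (hC : ∀ p, |g p| ≤ C)
    (hgp : ∀ (p : ℝ × ℝ) (i j : ℤ), g (p.1 + i, p.2 + j) = g p) :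
    ∫ p in sq, g (T77 a c p) = ∫ p in sq, g p := by
  have hi0 : Integrable (fun p => g (T77 a c p)) ((volume : Measure (ℝ × ℝ)).restrict sq) :=
    int77 (hg.comp (cont_T77 a c)).measurable (fun p => hC _)
  rw [fub77' hi0, fub77 (int77 hg.measurable hC)]
  congr 1
  funext x
  unfold T77
  dsimp only
  rw [← intervalIntegral.integral_of_le zero_le_one, ← intervalIntegral.integral_of_le zero_le_one]
  have h1 : ∀ y : ℝ, g (Pool.Agent.Helper78.SM.psi a x - y + c, x) =
      (fun u : ℝ => g (u, x)) ((Pool.Agent.Helper78.SM.psi a x + c) - y) := by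
    intro y
    dsimp only
    congr 2
    ring
  simp only [h1]
  rw [intervalIntegral.integral_comp_sub_left (fun u : ℝ => g (u, x))]
  have hper : Function.Periodic (fun u : ℝ => g (u, x)) 1 := by
    intro u
    have := hgp (u, x) 1 0
    simpa using this
  have h2 := hper.intervalIntegral_add_eq (Pool.Agent.Helper78.SM.psi a x + c - 1) 0
  rw [zero_add, sub_add_cancel] at h2
  rw [sub_zero]
  exact h2

/-- the dynamics preserves integrals of periodic functions -/
private lemma int_st77 (a : ℝ) (c : ℕ → ℝ) (N : ℕ) {C : ℝ} : ∀ {g : ℝ × ℝ → ℝ}, Continuous g →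
    (∀ p, |g p| ≤ C) → (∀ (p : ℝ × ℝ) (i j : ℤ), g (p.1 + i, p.2 + j) = g p) →
    ∫ p in sq, g (st a c N p) = ∫ p in sq, g p := by
  induction N with
  | zero =>
    intro g _ _ _
    simp only [st_zero77]
  | succ N ih =>
    intro g hg hC hgp
    simp only [st_succ77]
    have h1 := ih (g := fun p => g (T77 a (c N) p)) (hg.comp (cont_T77 a _)) (fun p => hC _) (by
      intro p i j
      have h2 := hgp (T77 a (c N) p) (2 * i - j) i
      rw [← h2]
      unfold T77
      dsimp only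
      rw [psi_int77]
      congr 2
      push_cast
      ring)
    rw [h1]
    exact int_T77 a (c N) hg hC hgp

private lemma loss77 {H : Set (ℝ × ℝ)} (hH : MeasurableSet H) {g : ℝ × ℝ → ℝ} (hg : Continuous g)
    (h0 : ∀ p, 0 ≤ g p) (h1 : ∀ p, g p ≤ 1) :
    (∫ p in sq, g p) - (volume {p : ℝ × ℝ | p ∈ sq ∧ p ∉ H}).toReal ≤
      ∫ p in sq, H.indicator g p := by
  haveI := Pool.Agent.Helper78.SM.prob_sq
  have hgb : ∀ p, |g p| ≤ 1 := fun p => by rw [abs_of_nonneg (h0 p)]; exact h1 p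
  have hi1 : Integrable (H.indicator g) ((volume : Measure (ℝ × ℝ)).restrict sq) :=
    (int77 hg.measurable hgb).indicator hH
  have hi2 : Integrable (Hᶜ.indicator (1 : ℝ × ℝ → ℝ)) ((volume : Measure (ℝ × ℝ)).restrict sq) :=
    (integrable_const (1:ℝ)).indicator hH.compl
  have hm := integral_mono (int77 hg.measurable hgb) (hi1.add hi2) (fun p => by
    show g p ≤ H.indicator g p + Hᶜ.indicator (1 : ℝ × ℝ → ℝ) p
    by_cases hp : p ∈ H
    · rw [indicator_of_mem hp, indicator_of_notMem (by simpa using hp), add_zero]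
    · rw [indicator_of_notMem hp, indicator_of_mem (by simpa using hp), zero_add]
      exact h1 p)
  rw [integral_add' hi1 hi2, integral_indicator_one hH.compl] at hm
  have e : ((volume : Measure (ℝ × ℝ)).restrict sq).real Hᶜ =
      (volume {p : ℝ × ℝ | p ∈ sq ∧ p ∉ H}).toReal := by
    rw [Measure.real, Measure.restrict_apply hH.compl]
    congr 2
    ext p
    rw [mem_inter_iff, mem_compl_iff, and_comm]
    rfl
  rw [e] at hm
  linarith

private lemma lin77 {μ : Measure (ℝ × ℝ)} [IsProbabilityMeasure μ] {u v w : ℝ × ℝ → ℝ}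
    (hu : Integrable u μ) (hv : Integrable v μ) (hw : Integrable w μ) (s t : ℝ) :
    ∫ p, (s * u p + v p + t * w p + 1) / 4 ∂μ =
      (s * (∫ p, u p ∂μ) + (∫ p, v p ∂μ) + t * (∫ p, w p ∂μ) + 1) / 4 := by
  have h1 : Integrable (fun p => s * u p) μ := hu.const_mul s
  have h2 : Integrable (fun p => s * u p + v p) μ := h1.add hv
  have h3 : Integrable (fun p => t * w p) μ := hw.const_mul t
  have h4 : Integrable (fun p => s * u p + v p + t * w p) μ := h2.add h3
  rw [integral_div, integral_add h4 (integrable_const _), integral_add h2 h3, integral_add h1 hv,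
    integral_const_mul, integral_const_mul]
  simp

private lemma arith77 {ε s s' G1 G2 U V : ℝ} (hε : 0 ≤ ε) (hε1 : ε ≤ 1) (hs : 0 ≤ s) (hs' : 0 ≤ s')
    (h1 : G1 ≤ 1) (h2 : G2 ≤ 1) (h10 : 0 ≤ G1) (h20 : 0 ≤ G2) (hU : max 0 (G1 - s) ≤ U)
    (hV : max 0 (G2 - s') ≤ V) : G1 * G2 - (ε + s + s') ≤ (1 - ε) * (U * V) := by
  set u := max 0 (G1 - s) with hu
  set w := max 0 (G2 - s') with hw
  have u0 : 0 ≤ u := le_max_left _ _
  have w0 : 0 ≤ w := le_max_left _ _
  have u1 : u ≤ 1 := max_le zero_le_one (by linarith)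
  have w1 : w ≤ 1 := max_le zero_le_one (by linarith)
  have u2 : G1 ≤ u + s := by have := le_max_right 0 (G1 - s); linarith
  have w2 : G2 ≤ w + s' := by have := le_max_right 0 (G2 - s'); linarith
  have hUV : u * w ≤ U * V := mul_le_mul hU hV w0 (u0.trans hU)
  have h3 : (1 - ε) * (u * w) ≤ (1 - ε) * (U * V) := mul_le_mul_of_nonneg_left hUV (by linarith)
  have h4 : u * w ≤ 1 := by nlinarith
  have h5 : G1 * G2 ≤ (u + s) * G2 := mul_le_mul_of_nonneg_right u2 h20
  have h6 : s * G2 ≤ s := by nlinarith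
  have h7 : u * G2 ≤ u * (w + s') := mul_le_mul_of_nonneg_left w2 u0
  have h8 : u * s' ≤ s' := by nlinarith
  have h9 : ε * (u * w) ≤ ε := by nlinarith [mul_nonneg u0 w0]
  nlinarith

theorem mix_pos {a b : ℝ} (hb : 10000 ≤ b) (hab : |a| = b ^ 10) (c : ℕ → ℝ) {n m : ℕ}
    (hn : 1 ≤ n) (hm : 1 ≤ m) {L : ℝ} (hL : 0 ≤ L) {g1 g2 : ℝ × ℝ → ℝ}
    (h10 : ∀ p, 0 ≤ g1 p) (h11 : ∀ p, g1 p ≤ 1) (h1L : ∀ p p', |g1 p - g1 p'| ≤ L * dist p p')
    (h20 : ∀ p, 0 ≤ g2 p) (h21 : ∀ p, g2 p ≤ 1) (h2L : ∀ p p', |g2 p - g2 p'| ≤ L * dist p p')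
    (h2p : ∀ (p : ℝ × ℝ) (i j : ℤ), g2 (p.1 + i, p.2 + j) = g2 p) :
    (∫ p in sq, g1 p) * (∫ p in sq, g2 p) - (1 / b + pbad a b c n +
      pbad a b (rev c (n+m)) m + L * (b ^ 2 / b ^ (7 * n) + b ^ 2 / b ^ (7 * m))) ≤
      ∫ p in sq, g1 p * g2 (st a c (n+m) p) := by
  haveI := Pool.Agent.Helper78.SM.prob_sq
  haveI hprob : IsProbabilityMeasure ((volume : Measure ℝ).restrict (Ioc (0:ℝ) 1)) :=
    ⟨by rw [Measure.restrict_apply MeasurableSet.univ, univ_inter, Real.volume_Ioc]; simp⟩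
  have hb0 : 0 < b := by linarith
  have hc1 := cont_lip77 hL h1L
  have hc2 := cont_lip77 hL h2L
  have hg1b : ∀ p, |g1 p| ≤ 1 := fun p => by rw [abs_of_nonneg (h10 p)]; exact h11 p
  have hg2b : ∀ p, |g2 p| ≤ 1 := fun p => by rw [abs_of_nonneg (h20 p)]; exact h21 p
  set ℓ1 : ℝ := L * (b ^ 2 / b ^ (7 * n)) with hℓ1
  set ℓ2 : ℝ := L * (b ^ 2 / b ^ (7 * m)) with hℓ2
  have hℓ1n : 0 ≤ ℓ1 := by positivity
  have hℓ2n : 0 ≤ ℓ2 := by positivity
  -- the good set in the coordinates (x, y)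
  set H1 : Set (ℝ × ℝ) := {p : ℝ × ℝ | HypS b (W a c p.2 p.1) n} with hH1
  have hH1m : MeasurableSet H1 := measurable_swap (measurableSet_hyp a b c n)
  set H2 : Set (ℝ × ℝ) := {p : ℝ × ℝ | HypS b (W a (rev c (n+m)) p.1 p.2) m} with hH2
  have hH2m : MeasurableSet H2 := measurableSet_hyp a b (rev c (n+m)) m
  -- areas
  have hp1 : (volume {p : ℝ × ℝ | p ∈ sq ∧ p ∉ H1}).toReal = pbad a b c n := by
    unfold pbad
    congr 1
    have hsw : MeasurePreserving (Prod.swap : ℝ × ℝ → ℝ × ℝ) volume volume := by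
      rw [Measure.volume_eq_prod]
      exact Measure.measurePreserving_swap
    have hms : MeasurableSet {p : ℝ × ℝ | p ∈ sq ∧ ¬ HypS b (W a c p.1 p.2) n} :=
      Pool.Agent.Helper78.SM.measurableSet_sq.inter (measurableSet_hyp a b c n).compl
    rw [← hsw.measure_preimage hms.nullMeasurableSet]
    congr 1
    ext p
    constructor
    · rintro ⟨⟨h1, h2⟩, h3⟩
      exact ⟨⟨h2, h1⟩, h3⟩
    · rintro ⟨⟨h1, h2⟩, h3⟩
      exact ⟨⟨h2, h1⟩, h3⟩
  have hp2 : (volume {p : ℝ × ℝ | p ∈ sq ∧ p ∉ H2}).toReal = pbad a b (rev c (n+m)) m := rfl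
  have hl1 := loss77 hH1m hc1 h10 h11
  rw [hp1] at hl1
  have hl2 := loss77 hH2m hc2 h20 h21
  rw [hp2] at hl2
  -- the constant factor
  set B : ℝ := ∫ p in (Ico (0:ℝ) 1 ×ˢ Ico (0:ℝ) 1) ∩ H2, g2 p with hB
  have hBe : B = ∫ p in sq, H2.indicator g2 p := by
    rw [setIntegral_indicator hH2m, hB]
    apply setIntegral_congr_set
    have e1 : (Ico (0:ℝ) 1 ×ˢ Ico (0:ℝ) 1 : Set (ℝ × ℝ)) =ᵐ[volume] sq := by
      rw [Measure.volume_eq_prod]
      exact Measure.set_prod_ae_eq Ico_ae_eq_Ioc Ico_ae_eq_Ioc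
    exact e1.inter (ae_eq_refl _)
  -- the line integrals
  set A : ℝ → ℝ := fun y => ∫ x in Ioc (0:ℝ) 1, H1.indicator g1 (x, y) with hA
  have hi1 : Integrable (H1.indicator g1) ((volume : Measure (ℝ × ℝ)).restrict sq) :=
    (int77 hc1.measurable hg1b).indicator hH1m
  have hAi : Integrable A ((volume : Measure ℝ).restrict (Ioc 0 1)) := by
    have h := hi1
    rw [vres77] at h
    exact h.integral_prod_right
  have hIA : ∫ y in Ioc (0:ℝ) 1, A y = ∫ p in sq, H1.indicator g1 p := (fub77 hi1).symm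
  have hcF : Continuous (fun p : ℝ × ℝ => g1 p * g2 (st a c (n+m) p)) :=
    hc1.mul (hc2.comp (cont_st77 a c (n+m)))
  have hiF : Integrable (fun p : ℝ × ℝ => g1 p * g2 (st a c (n+m) p))
      ((volume : Measure (ℝ × ℝ)).restrict sq) := by
    apply int77 hcF.measurable (C := 1)
    intro p
    rw [abs_mul]
    exact mul_le_one₀ (hg1b p) (abs_nonneg _) (hg2b _)
  have hRi : Integrable (fun y : ℝ => ∫ x in Ioc (0:ℝ) 1, g1 (x, y) * g2 (st a c (n+m) (x, y)))
      ((volume : Measure ℝ).restrict (Ioc 0 1)) := by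
    have h := hiF
    rw [vres77] at h
    exact h.integral_prod_right
  have hline : ∀ y : ℝ, (1 - 1 / b) * (max 0 (A y - ℓ1) * max 0 (B - ℓ2)) ≤
      ∫ x in Ioc (0:ℝ) 1, g1 (x, y) * g2 (st a c (n+m) (x, y)) := by
    intro y
    have h := g_ineq hb hab c y hn hm hL (g1 := fun x => g1 (x, y)) (g2 := g2)
      (fun x => h10 _) (fun x => h11 _) (fun x x' => by
        refine (h1L (x, y) (x', y)).trans (le_of_eq ?_)
        rw [Prod.dist_eq, dist_self, Real.dist_eq, max_eq_left (abs_nonneg _)])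
      h20 h21 h2L h2p
    have e1 : ∫ x in Ico (0:ℝ) 1 ∩ {x | HypS b (W a c y x) n}, g1 (x, y) = A y := by
      have hm1 : MeasurableSet {x : ℝ | HypS b (W a c y x) n} :=
        (measurable_prodMk_right (y := y)) hH1m
      have e2 : ∀ x : ℝ, H1.indicator g1 (x, y) =
          ({x : ℝ | HypS b (W a c y x) n}).indicator (fun x => g1 (x, y)) x := fun x => rfl
      simp only [hA, e2]
      rw [setIntegral_indicator hm1]
      apply setIntegral_congr_set
      exact (Ico_ae_eq_Ioc).inter (ae_eq_refl _)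
    have e3 : ∫ x in Ico (0:ℝ) 1, g1 (x, y) * g2 (Z a c y x (n+m+1), Z a c y x (n+m)) =
        ∫ x in Ioc (0:ℝ) 1, g1 (x, y) * g2 (st a c (n+m) (x, y)) :=
      setIntegral_congr_set Ico_ae_eq_Ioc
    rw [e1, e3] at h
    exact h
  have hmaxi : Integrable (fun y => max 0 (A y - ℓ1)) ((volume : Measure ℝ).restrict (Ioc 0 1)) := by
    have h := (hAi.sub (integrable_const ℓ1)).pos_part
    refine h.congr (ae_of_all _ (fun y => ?_))
    exact max_comm _ _
  have hmax1 : max 0 ((∫ p in sq, H1.indicator g1 p) - ℓ1) ≤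
      ∫ y in Ioc (0:ℝ) 1, max 0 (A y - ℓ1) := by
    apply max_le
    · exact integral_nonneg (fun y => le_max_left _ _)
    · have h := integral_mono (hAi.sub (integrable_const ℓ1)) hmaxi (fun y => le_max_right 0 (A y - ℓ1))
      rw [integral_sub' hAi (integrable_const ℓ1), hIA] at h
      simpa using h
  have hint := integral_mono ((hmaxi.mul_const (max 0 (B - ℓ2))).const_mul (1 - 1 / b)) hRi hline
  rw [← fub77 hiF] at hint
  have hint' : (1 - 1 / b) * ((∫ y in Ioc (0:ℝ) 1, max 0 (A y - ℓ1)) * max 0 (B - ℓ2)) ≤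
      ∫ p in sq, g1 p * g2 (st a c (n+m) p) := by
    refine le_trans (le_of_eq ?_) hint
    rw [integral_const_mul, integral_mul_const]
  have hG1u : ∫ p in sq, g1 p ≤ 1 := by
    have h := integral_mono (int77 hc1.measurable hg1b) (integrable_const (1:ℝ)) h11
    simpa using h
  have hG2u : ∫ p in sq, g2 p ≤ 1 := by
    have h := integral_mono (int77 hc2.measurable hg2b) (integrable_const (1:ℝ)) h21
    simpa using h
  have hG1n : 0 ≤ ∫ p in sq, g1 p := integral_nonneg h10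
  have hG2n : 0 ≤ ∫ p in sq, g2 p := integral_nonneg h20
  have hpb1 : 0 ≤ pbad a b c n := ENNReal.toReal_nonneg
  have hpb2 : 0 ≤ pbad a b (rev c (n+m)) m := ENNReal.toReal_nonneg
  have hfin := arith77 (ε := 1 / b) (s := pbad a b c n + ℓ1) (s' := pbad a b (rev c (n+m)) m + ℓ2)
    (by positivity) (by rw [div_le_one hb0]; linarith) (by linarith) (by linarith)
    hG1u hG2u hG1n hG2n
    (U := ∫ y in Ioc (0:ℝ) 1, max 0 (A y - ℓ1)) (V := max 0 (B - ℓ2))
    (le_trans (max_le_max le_rfl (by linarith)) hmax1)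
    (max_le_max le_rfl (by rw [hBe]; linarith))
  refine le_trans (le_of_eq ?_) (hfin.trans hint')
  rw [hℓ1, hℓ2]
  ring

theorem mix {a b : ℝ} (hb : 10000 ≤ b) (hab : |a| = b ^ 10) (c : ℕ → ℝ) {n m : ℕ}
    (hn : 1 ≤ n) (hm : 1 ≤ m) {L : ℝ} (hL : 0 ≤ L) {f g : ℝ × ℝ → ℝ}
    (hf : ∀ p, |f p| ≤ 1) (hg : ∀ p, |g p| ≤ 1)
    (hfL : ∀ p p', |f p - f p'| ≤ L * dist p p') (hgL : ∀ p p', |g p - g p'| ≤ L * dist p p')
    (hgp : ∀ (p : ℝ × ℝ) (i j : ℤ), g (p.1 + i, p.2 + j) = g p) :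
    |(∫ p in sq, f p * g (st a c (n+m) p)) - (∫ p in sq, f p) * (∫ p in sq, g p)| ≤
      4 * (1 / b + pbad a b c n + pbad a b (rev c (n+m)) m +
        L * (b ^ 2 / b ^ (7 * n) + b ^ 2 / b ^ (7 * m))) := by
  haveI := Pool.Agent.Helper78.SM.prob_sq
  have hcf := cont_lip77 hL hfL
  have hcg := cont_lip77 hL hgL
  set f1 : ℝ × ℝ → ℝ := fun p => (f p + 1) / 2 with hf1
  set g1 : ℝ × ℝ → ℝ := fun p => (g p + 1) / 2 with hg1
  set g2 : ℝ × ℝ → ℝ := fun p => (1 - g p) / 2 with hg2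
  have hlip : ∀ {h : ℝ × ℝ → ℝ} (s : ℝ), |s| = 1 → (∀ p p', |h p - h p'| ≤ L * dist p p') →
      ∀ p p', |(s * h p + 1) / 2 - (s * h p' + 1) / 2| ≤ L * dist p p' := by
    intro h s hs hh p p'
    have e : (s * h p + 1) / 2 - (s * h p' + 1) / 2 = s * ((h p - h p') / 2) := by ring
    rw [e, abs_mul, hs, one_mul, abs_div, abs_two]
    have h1 := hh p p'
    have h2 := abs_nonneg (h p - h p')
    linarith
  have hf1L : ∀ p p', |f1 p - f1 p'| ≤ L * dist p p' := by
    intro p p'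
    have := hlip 1 abs_one hfL p p'
    simpa [hf1] using this
  have hg1L : ∀ p p', |g1 p - g1 p'| ≤ L * dist p p' := by
    intro p p'
    have := hlip 1 abs_one hgL p p'
    simpa [hg1] using this
  have hg2L : ∀ p p', |g2 p - g2 p'| ≤ L * dist p p' := by
    intro p p'
    have := hlip (-1) (by simp) hgL p p'
    simp only [hg2]
    convert this using 2
    ring
  have hf1n : ∀ p, 0 ≤ f1 p := fun p => by
    have := (abs_le.1 (hf p)).1
    simp only [hf1]; linarith
  have hf1u : ∀ p, f1 p ≤ 1 := fun p => by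
    have := (abs_le.1 (hf p)).2
    simp only [hf1]; linarith
  have hg1n : ∀ p, 0 ≤ g1 p := fun p => by
    have := (abs_le.1 (hg p)).1
    simp only [hg1]; linarith
  have hg1u : ∀ p, g1 p ≤ 1 := fun p => by
    have := (abs_le.1 (hg p)).2
    simp only [hg1]; linarith
  have hg2n : ∀ p, 0 ≤ g2 p := fun p => by
    have := (abs_le.1 (hg p)).2
    simp only [hg2]; linarith
  have hg2u : ∀ p, g2 p ≤ 1 := fun p => by
    have := (abs_le.1 (hg p)).1
    simp only [hg2]; linarith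
  have hA := mix_pos hb hab c hn hm hL hf1n hf1u hf1L hg1n hg1u hg1L (by
    intro p i j
    simp only [hg1, hgp])
  have hB := mix_pos hb hab c hn hm hL hf1n hf1u hf1L hg2n hg2u hg2L (by
    intro p i j
    simp only [hg2, hgp])
  set N := n + m with hN
  have hst := int_st77 a c N hcg hg hgp
  have hif := int77 hcf.measurable hf
  have hig := int77 hcg.measurable hg
  have higs : Integrable (fun p => g (st a c N p)) ((volume : Measure (ℝ × ℝ)).restrict sq) :=
    int77 (hcg.comp (cont_st77 a c N)).measurable (fun p => hg _)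
  have hcfg : Continuous (fun p => f p * g (st a c N p)) := hcf.mul (hcg.comp (cont_st77 a c N))
  have hifg : Integrable (fun p => f p * g (st a c N p)) ((volume : Measure (ℝ × ℝ)).restrict sq) := by
    apply int77 hcfg.measurable (C := 1)
    intro p
    rw [abs_mul]
    exact mul_le_one₀ (hf p) (abs_nonneg _) (hg _)
  set If := ∫ p in sq, f p with hIf
  set Ig := ∫ p in sq, g p with hIg
  set K := ∫ p in sq, f p * g (st a c N p) with hK
  have i1 : ∫ p in sq, f1 p = (If + 1) / 2 := by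
    simp only [hf1]
    rw [integral_div, integral_add hif (integrable_const _)]
    simp [hIf]
  have i2 : ∫ p in sq, g1 p = (Ig + 1) / 2 := by
    simp only [hg1]
    rw [integral_div, integral_add hig (integrable_const _)]
    simp [hIg]
  have i3 : ∫ p in sq, g2 p = (1 - Ig) / 2 := by
    simp only [hg2]
    rw [integral_div, integral_sub (integrable_const _) hig]
    simp [hIg]
  have i4 : ∫ p in sq, f1 p * g1 (st a c N p) = (K + If + Ig + 1) / 4 := by
    have e : ∀ p, f1 p * g1 (st a c N p) =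
        (1 * (f p * g (st a c N p)) + f p + 1 * g (st a c N p) + 1) / 4 := by
      intro p
      simp only [hf1, hg1]
      ring
    simp only [e]
    rw [lin77 hifg hif higs 1 1, hst]
    ring
  have i5 : ∫ p in sq, f1 p * g2 (st a c N p) = (If - K - Ig + 1) / 4 := by
    have e : ∀ p, f1 p * g2 (st a c N p) =
        ((-1) * (f p * g (st a c N p)) + f p + (-1) * g (st a c N p) + 1) / 4 := by
      intro p
      simp only [hf1, hg2]
      ring
    simp only [e]
    rw [lin77 hifg hif higs (-1) (-1), hst]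
    ring
  rw [i1, i2, i4] at hA
  rw [i1, i3, i5] at hB
  rw [abs_le]
  constructor
  · linarith
  · linarith

end Pool.Agent.Helper18.SG
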