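import Mathlib
import Pool.Agent.Helper18.SG.Mix
import Pool.Agent.Helper18.SG.MaxIneq
import Pool.Agent.Helper18.SG.ULem
import Pool.Agent.Helper18.SG.CalcA

/-! Block SG-PROB: area of the non hyperbolic points, on average over the times.

`om`, `zc_eq`, `vv_eq`: dictionary with `Helper78.SM.zc`, `vv` (induction; `zc_succ`, `X_succ_snd`).
`vol_phi_small` is `Helper78.SM.vol_small`, `bad_early'` is `Helper78.SM.bad_early` in this notation.

`loss_le`: if `|v (k+1)| >= |v k|` (good) then `W k = |v (k+1)|` and `W (k+1) >= |v (k+2)| >=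
(|φ| - 1) |v (k+1)|` and `W (k+1) >= |v (k+1)|`, so the loss is `0` if `|φ| >= 2 b ^ 9` and always at
most `9 log b`. If bad: `W k <= (|φ| + 1) W (k+1) <= 10 |a| W (k+1)`, loss at most
`9 log b + log (10 |a|) <= 20 log b`.

`sum_pbad_le`: integrate `not_hyp_count` and `loss_le` over the square: for `1 <= n <= T`
`pbad n = ∫ 1_{¬ Hyp n}`; `2 log b ∑ pbad n <= ∑_k (9 log b * area {|φ (Z (k+1))| < 2 b ^ 9} + 20 log b *
area (bad k))` and `area {|φ (Z (k+1))| < 2 b ^ 9} <= 2 b ^ 9 / (2 b ^ 10) = 1 / b`. -/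

set_option autoImplicit false
open Real Set MeasureTheory

namespace Pool.Agent.Helper18.SG

open Pool.Agent.Helper78.SM (psi phi dphi zc vv sq)

/-- noise in the convention of `Helper78.SM` -/
def om (c : ℕ → ℝ) : ℕ → ℝ
  | 0 => 0
  | k + 1 => c k

private lemma zX67 (a : ℝ) (c : ℕ → ℝ) (k : ℕ) (p : ℝ × ℝ) :
    zc a (om c) k p = Z a c p.2 p.1 (k+1) ∧
      (Pool.Agent.Helper78.SM.X a (om c) k p).2 = Z a c p.2 p.1 k := by
  induction k with
  | zero =>
    constructor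
    · rw [Z_one]; simp [zc, Pool.Agent.Helper78.SM.X, om]
    · rw [Z_zero]; simp [Pool.Agent.Helper78.SM.X]
  | succ k ih =>
    constructor
    · rw [Pool.Agent.Helper78.SM.zc_succ, ih.1, ih.2, Z_rec]; rfl
    · rw [Pool.Agent.Helper78.SM.X_succ_snd, ih.1]

lemma zc_eq (a : ℝ) (c : ℕ → ℝ) (k : ℕ) (p : ℝ × ℝ) :
    zc a (om c) k p = Z a c p.2 p.1 (k+1) := (zX67 a c k p).1

lemma vv_eq (a : ℝ) (c : ℕ → ℝ) (k : ℕ) (p : ℝ × ℝ) :
    vv a (om c) p k = v a c p.2 p.1 k := by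
  induction k using Nat.twoStepInduction with
  | zero => rw [v_zero]; simp [vv]
  | one => rw [v_one]; simp [vv]
  | more k ih1 ih2 => rw [Pool.Agent.Helper78.SM.vv_rec, v_rec, ih1, ih2, zc_eq]

theorem vol_phi_small {a s : ℝ} (ha : 1 ≤ |a|) (hs : 0 ≤ s) (c : ℕ → ℝ) (k : ℕ) :
    volume {p : ℝ × ℝ | p ∈ sq ∧ |phi a (Z a c p.2 p.1 (k+1))| < s} ≤
      ENNReal.ofReal (s / (2 * |a|)) := by
  have h := Pool.Agent.Helper78.SM.vol_small ha hs (om c) k
  simpa only [zc_eq] using h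

theorem bad_early' {a b : ℝ} (hb : 100 ≤ b) (hab : |a| = b ^ 10) (c : ℕ → ℝ) (k : ℕ) :
    volume {p : ℝ × ℝ | p ∈ sq ∧ |v a c p.2 p.1 (k+1)| < |v a c p.2 p.1 k|} ≤
      ENNReal.ofReal (k * (4 * 4096 * Real.log |a| / |a| ^ 2) + 1 / b) := by
  have h := Pool.Agent.Helper78.SM.bad_early hb hab (om c) k
  simpa only [vv_eq] using h

private lemma VV67 (a : ℝ) (c : ℕ → ℝ) (y x : ℝ) (k : ℕ) :
    Pool.Agent.Helper78.SM.VV a (om c) (x, y) k = W a c y x k := by
  unfold Pool.Agent.Helper78.SM.VV W mx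
  rw [vv_eq, vv_eq]

private lemma logs67 {a b : ℝ} (hb : 1000 ≤ b) (hab : |a| = b ^ 10) :
    Real.log (10 * |a|) ≤ 11 * Real.log b := by
  have hb0 : 0 < b := by linarith
  have h : 10 * |a| ≤ b ^ 11 := by
    rw [hab, pow_succ b 10, mul_comm]
    exact mul_le_mul_of_nonneg_left (by linarith) (by positivity)
  have h2 := Real.log_le_log (by rw [hab]; positivity) h
  rw [Real.log_pow] at h2
  exact_mod_cast h2

open Classical in
theorem loss_le {a b : ℝ} (hb : 1000 ≤ b) (hab : |a| = b ^ 10) (c : ℕ → ℝ) (y x : ℝ) (k : ℕ) :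
    loss b (W a c y x) k ≤
      (if |phi a (Z a c y x (k+1))| < 2 * b ^ 9 then 9 * Real.log b else 0) +
      (if |v a c y x (k+1)| < |v a c y x k| then 20 * Real.log b else 0) := by
  have hb0 : 0 < b := by linarith
  have hb1 : 1 < b := by linarith
  have ha1 : 1 ≤ |a| := by rw [hab]; exact one_le_pow₀ hb1.le
  have hlog : 0 < Real.log b := Real.log_pos hb1
  have hW := W_pos a c y x k
  have hW1 := W_pos a c y x (k+1)
  have hnn1 : 0 ≤ (if |phi a (Z a c y x (k+1))| < 2 * b ^ 9 then 9 * Real.log b else 0) := by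
    split_ifs <;> linarith
  unfold loss
  by_cases hbad : |v a c y x (k+1)| < |v a c y x k|
  · rw [if_pos hbad]
    have h2 := Pool.Agent.Helper78.SM.VV_step_bad a (om c) (x, y) k
    rw [VV67, VV67, zc_eq] at h2
    have hf := Pool.Agent.Helper78.SM.abs_phi_le ha1 (Z a c y x (k+1))
    have h3 : W a c y x k ≤ 10 * |a| * W a c y x (k+1) := by
      refine h2.trans (mul_le_mul_of_nonneg_right ?_ hW1.le)
      show |phi a (Z a c y x (k+1))| + 1 ≤ _
      linarith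
    have h4 := Real.log_le_log hW h3
    rw [Real.log_mul (by positivity) hW1.ne'] at h4
    have h5 := logs67 hb hab
    apply max_le
    · linarith
    · linarith
  · rw [if_neg hbad]
    rw [not_lt] at hbad
    have h2 := Pool.Agent.Helper78.SM.VV_step_good (a := a) (ω := om c) (p := (x, y)) (k := k)
      (by rw [vv_eq, vv_eq]; exact hbad)
    rw [VV67, VV67, zc_eq] at h2
    change max (|phi a (Z a c y x (k+1))| - 1) 1 * W a c y x k ≤ W a c y x (k+1) at h2
    by_cases hs : |phi a (Z a c y x (k+1))| < 2 * b ^ 9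
    · rw [if_pos hs]
      have h3 : W a c y x k ≤ W a c y x (k+1) := by
        refine le_trans ?_ h2
        have := mul_le_mul_of_nonneg_right (le_max_right (|phi a (Z a c y x (k+1))| - 1) 1) hW.le
        linarith
      have h4 := Real.log_le_log hW h3
      apply max_le <;> linarith
    · rw [if_neg hs]
      rw [not_lt] at hs
      have hb9 : 1 ≤ b ^ 9 := one_le_pow₀ hb1.le
      have h3 : b ^ 9 * W a c y x k ≤ W a c y x (k+1) := by
        refine le_trans ?_ h2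
        apply mul_le_mul_of_nonneg_right _ hW.le
        exact le_trans (by linarith) (le_max_left _ _)
      have h4 := Real.log_le_log (by positivity) h3
      rw [Real.log_mul (by positivity) hW.ne', Real.log_pow] at h4
      push_cast at h4
      apply max_le <;> linarith

private lemma vol_swap67 (P : ℝ → ℝ → Prop) :
    volume {p : ℝ × ℝ | p ∈ sq ∧ P p.1 p.2} = volume {p : ℝ × ℝ | p ∈ sq ∧ P p.2 p.1} := by
  have h1 : MeasurePreserving (MeasurableEquiv.prodComm : ℝ × ℝ ≃ᵐ ℝ × ℝ)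
      (volume : Measure (ℝ × ℝ)) (volume : Measure (ℝ × ℝ)) :=
    MeasureTheory.Measure.measurePreserving_swap (μ := (volume : Measure ℝ)) (ν := (volume : Measure ℝ))
  rw [← h1.measure_preimage_equiv {p : ℝ × ℝ | p ∈ sq ∧ P p.1 p.2}]
  congr 1
  ext p
  show (p.swap ∈ sq ∧ P p.swap.1 p.swap.2) ↔ (p ∈ sq ∧ P p.2 p.1)
  have : p.swap ∈ sq ↔ p ∈ sq := by
    unfold Pool.Agent.Helper78.SM.sq
    rw [Set.mem_prod, Set.mem_prod]
    exact and_comm
  rw [this]
  exact Iff.rfl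

private lemma cont_W67 (a : ℝ) (c : ℕ → ℝ) (k : ℕ) :
    Continuous (fun p : ℝ × ℝ => W a c p.1 p.2 k) := by
  unfold W mx
  exact (continuous_v a c (k+1)).abs.max (continuous_v a c k).abs

private lemma closed67 (a b : ℝ) (c : ℕ → ℝ) (n : ℕ) :
    IsClosed {p : ℝ × ℝ | HypS b (W a c p.1 p.2) n} := by
  have : {p : ℝ × ℝ | HypS b (W a c p.1 p.2) n} = ⋂ j, ⋂ i, ⋂ (_ : j ≤ i), ⋂ (_ : i ≤ n),
      {p : ℝ × ℝ | W a c p.1 p.2 j * b ^ (9 * (i - j)) ≤ b ^ (2 * (n - j)) * W a c p.1 p.2 i} := by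
    ext p
    simp only [Set.mem_iInter]
    exact Iff.rfl
  rw [this]
  refine isClosed_iInter fun j => isClosed_iInter fun i => isClosed_iInter fun _ =>
    isClosed_iInter fun _ => ?_
  exact isClosed_le ((cont_W67 a c j).mul continuous_const) (continuous_const.mul (cont_W67 a c i))

private lemma sq_meas67 : MeasurableSet sq := measurableSet_Ioc.prod measurableSet_Ioc

private lemma sq_vol67 : volume (sq : Set (ℝ × ℝ)) = 1 := by
  unfold Pool.Agent.Helper78.SM.sq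
  rw [Measure.volume_eq_prod, Measure.prod_prod, Real.volume_Ioc]
  norm_num

open Classical in
private lemma point67 {a b : ℝ} (hb : 1000 ≤ b) (hab : |a| = b ^ 10) (c : ℕ → ℝ) (T : ℕ) (p : ℝ × ℝ) :
    2 * ∑ n ∈ Finset.Icc 1 T, ({p : ℝ × ℝ | HypS b (W a c p.1 p.2) n}ᶜ).indicator 1 p ≤
      ∑ k ∈ Finset.range T, (9 * {p : ℝ × ℝ | |phi a (Z a c p.1 p.2 (k+1))| < 2 * b ^ 9}.indicator 1 p +
        20 * {p : ℝ × ℝ | |v a c p.1 p.2 (k+1)| < |v a c p.1 p.2 k|}.indicator (1 : ℝ × ℝ → ℝ) p) := by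
  have hb1 : 1 < b := by linarith
  have hlog : 0 < Real.log b := Real.log_pos hb1
  have h1 := not_hyp_count hb1 (V := W a c p.1 p.2) (fun k => W_pos a c p.1 p.2 k) T
  have h2 : ∑ k ∈ Finset.range T, loss b (W a c p.1 p.2) k ≤ ∑ k ∈ Finset.range T,
      Real.log b * (9 * {p : ℝ × ℝ | |phi a (Z a c p.1 p.2 (k+1))| < 2 * b ^ 9}.indicator 1 p +
        20 * {p : ℝ × ℝ | |v a c p.1 p.2 (k+1)| < |v a c p.1 p.2 k|}.indicator (1 : ℝ × ℝ → ℝ) p) := by
    apply Finset.sum_le_sum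
    intro k _
    refine (loss_le hb hab c p.1 p.2 k).trans (le_of_eq ?_)
    rw [mul_add]
    congr 1
    · by_cases hs : |phi a (Z a c p.1 p.2 (k+1))| < 2 * b ^ 9
      · rw [if_pos hs, Set.indicator_of_mem (show p ∈ {p : ℝ × ℝ | |phi a (Z a c p.1 p.2 (k+1))| < 2 * b ^ 9} from hs)]
        simp only [Pi.one_apply]; ring
      · rw [if_neg hs, Set.indicator_of_notMem (show p ∉ {p : ℝ × ℝ | |phi a (Z a c p.1 p.2 (k+1))| < 2 * b ^ 9} from hs)]
        ring
    · by_cases hs : |v a c p.1 p.2 (k+1)| < |v a c p.1 p.2 k|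
      · rw [if_pos hs, Set.indicator_of_mem (show p ∈ {p : ℝ × ℝ | |v a c p.1 p.2 (k+1)| < |v a c p.1 p.2 k|} from hs)]
        simp only [Pi.one_apply]; ring
      · rw [if_neg hs, Set.indicator_of_notMem (show p ∉ {p : ℝ × ℝ | |v a c p.1 p.2 (k+1)| < |v a c p.1 p.2 k|} from hs)]
        ring
  have h3 : (((Finset.Icc 1 T).filter (fun n => ¬ HypS b (W a c p.1 p.2) n)).card : ℝ) =
      ∑ n ∈ Finset.Icc 1 T, ({p : ℝ × ℝ | HypS b (W a c p.1 p.2) n}ᶜ).indicator 1 p := by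
    rw [Finset.card_filter]
    push_cast
    apply Finset.sum_congr rfl
    intro n _
    by_cases hs : HypS b (W a c p.1 p.2) n
    · rw [if_neg (not_not.2 hs), Set.indicator_of_notMem]
      intro h
      exact h hs
    · rw [if_pos hs, Set.indicator_of_mem (show p ∈ {p : ℝ × ℝ | HypS b (W a c p.1 p.2) n}ᶜ from hs)]
      rfl
  rw [h3] at h1
  rw [← Finset.mul_sum] at h2
  have h4 := h1.trans h2
  refine le_of_mul_le_mul_left ?_ hlog
  linarith

private lemma real67 {S : Set (ℝ × ℝ)} (hS : MeasurableSet S) :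
    ∫ p, S.indicator (1 : ℝ × ℝ → ℝ) p ∂(volume.restrict sq) =
      (volume {p : ℝ × ℝ | p ∈ sq ∧ p ∈ S}).toReal := by
  rw [integral_indicator_one hS, measureReal_def, Measure.restrict_apply hS]
  congr 2
  ext p
  exact and_comm

private lemma int67 {S : Set (ℝ × ℝ)} (hS : MeasurableSet S) :
    Integrable (S.indicator (1 : ℝ × ℝ → ℝ)) (volume.restrict sq) := by
  have : IsFiniteMeasure (volume.restrict sq : Measure (ℝ × ℝ)) :=
    ⟨by rw [Measure.restrict_apply_univ, sq_vol67]; exact ENNReal.one_lt_top⟩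
  exact (integrable_const (1:ℝ)).indicator hS

theorem sum_pbad_le {a b : ℝ} (hb : 1000 ≤ b) (hab : |a| = b ^ 10) (c : ℕ → ℝ) (T : ℕ) :
    ∑ n ∈ Finset.Icc 1 T, pbad a b c n ≤ 5 * T / b + 10 * ∑ k ∈ Finset.range T,
      (volume {p : ℝ × ℝ | p ∈ sq ∧ |v a c p.2 p.1 (k+1)| < |v a c p.2 p.1 k|}).toReal := by
  have hb0 : 0 < b := by linarith
  have hb1 : 1 < b := by linarith
  have ha1 : 1 ≤ |a| := by rw [hab]; exact one_le_pow₀ hb1.le
  have hA : ∀ n, MeasurableSet ({p : ℝ × ℝ | HypS b (W a c p.1 p.2) n}ᶜ) := fun n =>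
    (closed67 a b c n).measurableSet.compl
  have hB : ∀ k : ℕ, MeasurableSet {p : ℝ × ℝ | |phi a (Z a c p.1 p.2 (k+1))| < 2 * b ^ 9} := by
    intro k
    have hc : Continuous (phi a) := by
      unfold Pool.Agent.Helper78.SM.phi
      fun_prop
    exact (isOpen_lt (hc.comp (continuous_Z a c (k+1))).abs continuous_const).measurableSet
  have hC : ∀ k : ℕ, MeasurableSet {p : ℝ × ℝ | |v a c p.1 p.2 (k+1)| < |v a c p.1 p.2 k|} := by
    intro k
    exact (isOpen_lt (continuous_v a c (k+1)).abs (continuous_v a c k).abs).measurableSet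
  have hmono := integral_mono (μ := volume.restrict sq)
    (f := fun p => 2 * ∑ n ∈ Finset.Icc 1 T, ({p : ℝ × ℝ | HypS b (W a c p.1 p.2) n}ᶜ).indicator 1 p)
    (g := fun p => ∑ k ∈ Finset.range T,
      (9 * {p : ℝ × ℝ | |phi a (Z a c p.1 p.2 (k+1))| < 2 * b ^ 9}.indicator 1 p +
        20 * {p : ℝ × ℝ | |v a c p.1 p.2 (k+1)| < |v a c p.1 p.2 k|}.indicator (1 : ℝ × ℝ → ℝ) p))
    ((integrable_finsetSum _ fun n _ => int67 (hA n)).const_mul 2)
    (integrable_finsetSum _ fun k _ => ((int67 (hB k)).const_mul 9).add ((int67 (hC k)).const_mul 20))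
    (fun p => point67 hb hab c T p)
  have hsplit : ∫ p, ∑ k ∈ Finset.range T,
      (9 * {p : ℝ × ℝ | |phi a (Z a c p.1 p.2 (k+1))| < 2 * b ^ 9}.indicator 1 p +
        20 * {p : ℝ × ℝ | |v a c p.1 p.2 (k+1)| < |v a c p.1 p.2 k|}.indicator (1 : ℝ × ℝ → ℝ) p)
        ∂(volume.restrict sq) = ∑ k ∈ Finset.range T, ∫ p,
      (9 * {p : ℝ × ℝ | |phi a (Z a c p.1 p.2 (k+1))| < 2 * b ^ 9}.indicator 1 p +
        20 * {p : ℝ × ℝ | |v a c p.1 p.2 (k+1)| < |v a c p.1 p.2 k|}.indicator (1 : ℝ × ℝ → ℝ) p)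
        ∂(volume.restrict sq) :=
    integral_finsetSum _ (fun k _ => ((int67 (hB k)).const_mul 9).add ((int67 (hC k)).const_mul 20))
  rw [integral_const_mul, integral_finsetSum _ (fun n _ => int67 (hA n)), hsplit] at hmono
  have hL : ∀ n, ∫ p, ({p : ℝ × ℝ | HypS b (W a c p.1 p.2) n}ᶜ).indicator 1 p ∂(volume.restrict sq) =
      pbad a b c n := by
    intro n
    rw [real67 (hA n)]
    rfl
  have hR : ∀ k, ∫ p, (9 * {p : ℝ × ℝ | |phi a (Z a c p.1 p.2 (k+1))| < 2 * b ^ 9}.indicator 1 p +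
        20 * {p : ℝ × ℝ | |v a c p.1 p.2 (k+1)| < |v a c p.1 p.2 k|}.indicator (1 : ℝ × ℝ → ℝ) p)
        ∂(volume.restrict sq) ≤ 9 * (1 / b) + 20 *
      (volume {p : ℝ × ℝ | p ∈ sq ∧ |v a c p.2 p.1 (k+1)| < |v a c p.2 p.1 k|}).toReal := by
    intro k
    rw [integral_add ((int67 (hB k)).const_mul 9) ((int67 (hC k)).const_mul 20),
      integral_const_mul, integral_const_mul, real67 (hB k), real67 (hC k)]
    have e1 := vol_swap67 (fun y x => |phi a (Z a c y x (k+1))| < 2 * b ^ 9)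
    have e2 := vol_swap67 (fun y x => |v a c y x (k+1)| < |v a c y x k|)
    have h1 := vol_phi_small (s := 2 * b ^ 9) ha1 (by positivity) c k
    rw [← e1] at h1
    have h1' : 2 * b ^ 9 / (2 * |a|) = 1 / b := by
      rw [hab]
      field_simp
    rw [h1'] at h1
    have h3 : (volume {p : ℝ × ℝ | p ∈ sq ∧ |phi a (Z a c p.1 p.2 (k+1))| < 2 * b ^ 9}).toReal ≤ 1 / b :=
      ENNReal.toReal_le_of_le_ofReal (by positivity) h1
    rw [← e2]
    show 9 * (volume {p : ℝ × ℝ | p ∈ sq ∧ |phi a (Z a c p.1 p.2 (k+1))| < 2 * b ^ 9}).toReal +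
      20 * (volume {p : ℝ × ℝ | p ∈ sq ∧ |v a c p.1 p.2 (k+1)| < |v a c p.1 p.2 k|}).toReal ≤ _
    linarith
  simp only [hL] at hmono
  have h5 := hmono.trans (Finset.sum_le_sum fun k (_ : k ∈ Finset.range T) => hR k)
  rw [Finset.sum_add_distrib, Finset.sum_const, Finset.card_range, nsmul_eq_mul, ← Finset.mul_sum] at h5
  have h6 : (0:ℝ) ≤ T / b := by positivity
  have h7 : (T:ℝ) * (9 * (1 / b)) = 9 * (T / b) := by ring
  have h8 : 5 * (T:ℝ) / b = 5 * (T / b) := by ring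
  rw [h7] at h5
  rw [h8]
  linarith

end Pool.Agent.Helper18.SG
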