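import Mathlib
import Pool.Agent.Helper18.SG.Mix
import Pool.Agent.Helper18.SG.ProbHyp

/-! Block SG-DET: decay of correlations for an arbitrary sequence of translations, all large `|a|`,
times up to `c |a| ^ 2 / log |a|`.

`mixing_noise`. Let `b = |a| ^ (1/10)`. If `b < 10000` then `|a| ^ (-1/10) > 1 / 10000` and the left side
is at most `2`. If `N <= 10`: the correlation is `∫ f (p) (∫ (g (st p) - g q) dq) dp`, and
`|g u - g q| <= L` for all `u` and all `q` in the square (move `u` into the square by an integer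
translation; the sup distance of two points of the square is at most 1), `|a| ^ (1 - N/10) >= 1`.
Otherwise `N >= 11`.
Put `κ = 4 * 4096 * log |a| / |a| ^ 2`. By `sum_pbad_le` and `bad_early'`
`∑_{n=1}^{N} (pbad c n + pbad (rev c N) n) <= 2 (5 N / b + 10 N (N κ + 1 / b)) = N (30 / b + 20 N κ)`.
Reindex the second sum by `n ↦ N - n`: among the at least `N / 4` integers `n` with
`N / 4 <= n <= 3 N / 4` there is one with `pbad c n + pbad (rev c N) (N - n) <= 4 (30 / b + 20 N κ)`.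
Apply `mix` with this `n` and `m = N - n`; `b ^ 2 / b ^ (7 n) <= b ^ (2 - 7 N / 4) <= b ^ (10 - N)
= |a| ^ (1 - N / 10)`. `C = 10 ^ 7` is enough.

`mixing_torus`: `T = std a` (`std_isStd`, `mk2_iter`, `mp_mk2`): `T^[n] (mk2 p) = mk2 (st a 0 n p)`
with noise `0`, and the lifts `f ∘ mk2` are periodic and `L`-Lipschitz for the sup distance. -/

set_option autoImplicit false
open Real Set MeasureTheory

namespace Pool.Agent.Helper18.SG

open Pool.Agent.Helper78.SM (sq)

private lemma psi_cont (a : ℝ) : Continuous (Pool.Agent.Helper78.SM.psi a) := by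
  unfold Pool.Agent.Helper78.SM.psi
  fun_prop

private lemma Z_cont (a : ℝ) (c : ℕ → ℝ) (k : ℕ) :
    Continuous (fun p : ℝ × ℝ => Z a c p.2 p.1 k) ∧
    Continuous (fun p : ℝ × ℝ => Z a c p.2 p.1 (k+1)) := by
  induction k with
  | zero =>
    constructor
    · simp only [Z_zero]; exact continuous_snd
    · exact continuous_fst.congr fun p => (Z_one a c p.2 p.1).symm
  | succ k ih =>
    refine ⟨ih.2, ?_⟩
    exact ((((psi_cont a).comp ih.2).sub ih.1).add continuous_const).congr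
      fun p => (Z_rec a c p.2 p.1 k).symm

private lemma st_cont (a : ℝ) (c : ℕ → ℝ) (N : ℕ) : Continuous (st a c N) := by
  unfold st
  exact (Z_cont a c N).2.prodMk (Z_cont a c N).1

private lemma lip_cont {f : ℝ × ℝ → ℝ} {L : ℝ} (hL : 0 ≤ L)
    (hf : ∀ p p', |f p - f p'| ≤ L * dist p p') : Continuous f := by
  have : LipschitzWith L.toNNReal f := by
    apply LipschitzWith.of_dist_le_mul
    intro x y
    rw [Real.coe_toNNReal L hL, Real.dist_eq]
    exact hf x y
  exact this.continuous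

private lemma vol_sq_real : (volume : Measure (ℝ × ℝ)).real sq = 1 := by
  rw [Measure.real, Pool.Agent.Helper78.SM.volume_sq]; simp

private lemma vol_sq_lt : volume sq < (⊤ : ENNReal) := by
  rw [Pool.Agent.Helper78.SM.volume_sq]; exact ENNReal.one_lt_top

private lemma abs_int_le {h : ℝ × ℝ → ℝ} {C : ℝ} (hh : ∀ p ∈ sq, |h p| ≤ C) :
    |∫ p in sq, h p| ≤ C := by
  have := norm_setIntegral_le_of_norm_le_const (μ := (volume : Measure (ℝ × ℝ))) (s := sq) (f := h)
    (C := C) vol_sq_lt (fun x hx => by rw [Real.norm_eq_abs]; exact hh x hx)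
  rw [vol_sq_real, mul_one, Real.norm_eq_abs] at this
  exact this

private lemma g_close {g : ℝ × ℝ → ℝ} {L : ℝ} (hL : 0 ≤ L)
    (hgL : ∀ p p', |g p - g p'| ≤ L * dist p p')
    (hgp : ∀ (p : ℝ × ℝ) (i j : ℤ), g (p.1 + i, p.2 + j) = g p) (u : ℝ × ℝ) {q : ℝ × ℝ}
    (hq : q ∈ sq) : |g u - g q| ≤ L := by
  have e : g (u.1 + ((-⌊u.1⌋ : ℤ) : ℝ), u.2 + ((-⌊u.2⌋ : ℤ) : ℝ)) = g u := hgp u _ _
  rw [← e]
  refine (hgL _ _).trans ?_
  have hd : dist ((u.1 + ((-⌊u.1⌋ : ℤ) : ℝ), u.2 + ((-⌊u.2⌋ : ℤ) : ℝ)) : ℝ × ℝ) q ≤ 1 := by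
    obtain ⟨⟨h1, h2⟩, h3, h4⟩ := hq
    have f1 := Int.floor_le u.1
    have f2 := Int.lt_floor_add_one u.1
    have f3 := Int.floor_le u.2
    have f4 := Int.lt_floor_add_one u.2
    rw [Prod.dist_eq]
    simp only [Int.cast_neg]
    apply max_le
    · rw [Real.dist_eq, abs_le]; constructor <;> linarith
    · rw [Real.dist_eq, abs_le]; constructor <;> linarith
  nlinarith

private lemma small_N (a : ℝ) (c : ℕ → ℝ) (f g : ℝ × ℝ → ℝ) (L : ℝ) (hL : 0 ≤ L)
    (hf : ∀ p, |f p| ≤ 1) (hg : ∀ p, |g p| ≤ 1)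
    (hfL : ∀ p p', |f p - f p'| ≤ L * dist p p') (hgL : ∀ p p', |g p - g p'| ≤ L * dist p p')
    (hgp : ∀ (p : ℝ × ℝ) (i j : ℤ), g (p.1 + i, p.2 + j) = g p) (N : ℕ) :
    |(∫ p in sq, f p * g (st a c N p)) - (∫ p in sq, f p) * (∫ p in sq, g p)| ≤ L := by
  have cf := lip_cont hL hfL
  have cg := lip_cont hL hgL
  have cs := st_cont a c N
  have := Pool.Agent.Helper78.SM.prob_sq
  have int1 : Integrable (fun p => f p * g (st a c N p))
      ((volume : Measure (ℝ × ℝ)).restrict sq) := by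
    apply Integrable.of_bound (C := 1)
    · exact (cf.mul (cg.comp cs)).aestronglyMeasurable
    · refine Filter.Eventually.of_forall fun p => ?_
      rw [Real.norm_eq_abs, abs_mul]
      exact mul_le_one₀ (hf p) (abs_nonneg _) (hg _)
  have int2 : Integrable f ((volume : Measure (ℝ × ℝ)).restrict sq) := by
    apply Integrable.of_bound (C := 1)
    · exact cf.aestronglyMeasurable
    · exact Filter.Eventually.of_forall fun p => by rw [Real.norm_eq_abs]; exact hf p
  have int3 : Integrable g ((volume : Measure (ℝ × ℝ)).restrict sq) := by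
    apply Integrable.of_bound (C := 1)
    · exact cg.aestronglyMeasurable
    · exact Filter.Eventually.of_forall fun p => by rw [Real.norm_eq_abs]; exact hg p
  have e : (∫ p in sq, f p * g (st a c N p)) - (∫ p in sq, f p) * (∫ p in sq, g p) =
      ∫ p in sq, f p * (g (st a c N p) - ∫ q in sq, g q) := by
    rw [← integral_mul_const, ← integral_sub int1 (int2.mul_const _)]
    congr 1
    ext p
    ring
  rw [e]
  apply abs_int_le
  intro p _
  rw [abs_mul]
  have h2 : |g (st a c N p) - ∫ q in sq, g q| ≤ L := by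
    have e2 : g (st a c N p) - ∫ q in sq, g q = ∫ q in sq, (g (st a c N p) - g q) := by
      rw [integral_sub (integrable_const _) int3, integral_const]
      simp
    rw [e2]
    apply abs_int_le
    intro q hq
    exact g_close hL hgL hgp _ hq
  calc |f p| * |g (st a c N p) - ∫ q in sq, g q| ≤ 1 * L :=
        mul_le_mul (hf p) h2 (abs_nonneg _) zero_le_one
    _ = L := one_mul L

private lemma trivial_bd (a : ℝ) (c : ℕ → ℝ) (f g : ℝ × ℝ → ℝ)
    (hf : ∀ p, |f p| ≤ 1) (hg : ∀ p, |g p| ≤ 1) (N : ℕ) :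
    |(∫ p in sq, f p * g (st a c N p)) - (∫ p in sq, f p) * (∫ p in sq, g p)| ≤ 2 := by
  have h1 : |∫ p in sq, f p * g (st a c N p)| ≤ 1 := by
    apply abs_int_le
    intro p _
    rw [abs_mul]
    exact mul_le_one₀ (hf p) (abs_nonneg _) (hg _)
  have h2 : |∫ p in sq, f p| ≤ 1 := abs_int_le fun p _ => hf p
  have h3 : |∫ p in sq, g p| ≤ 1 := abs_int_le fun p _ => hg p
  have h4 : |(∫ p in sq, f p) * (∫ p in sq, g p)| ≤ 1 := by
    rw [abs_mul]; exact mul_le_one₀ h2 (abs_nonneg _) h3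
  have := abs_sub (∫ p in sq, f p * g (st a c N p)) ((∫ p in sq, f p) * (∫ p in sq, g p))
  linarith

private lemma pbad_nonneg (a b : ℝ) (c : ℕ → ℝ) (n : ℕ) : 0 ≤ pbad a b c n :=
  ENNReal.toReal_nonneg

private lemma sum_bd {a b : ℝ} (hb : 10000 ≤ b) (hab : |a| = b ^ 10) (c : ℕ → ℝ) (N : ℕ) :
    ∑ n ∈ Finset.Icc 1 N, pbad a b c n ≤
      N * (15 / b + 10 * (N * (4 * 4096 * Real.log |a| / |a| ^ 2))) := by
  have hb0 : 0 < b := by linarith
  have ha1 : 1 ≤ |a| := by rw [hab]; exact one_le_pow₀ (by linarith)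
  have hlog : 0 ≤ Real.log |a| := Real.log_nonneg ha1
  have hκ : 0 ≤ 4 * 4096 * Real.log |a| / |a| ^ 2 := by positivity
  set κ := 4 * 4096 * Real.log |a| / |a| ^ 2 with hκd
  have h1 := sum_pbad_le (by linarith : (1000:ℝ) ≤ b) hab c N
  have h2 : ∑ k ∈ Finset.range N,
      (volume {p : ℝ × ℝ | p ∈ sq ∧ |v a c p.2 p.1 (k+1)| < |v a c p.2 p.1 k|}).toReal ≤
      ∑ k ∈ Finset.range N, (N * κ + 1 / b) := by
    apply Finset.sum_le_sum
    intro k hk
    have hk' : k < N := Finset.mem_range.mp hk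
    have h3 := bad_early' (by linarith : (100:ℝ) ≤ b) hab c k
    have h4 : (0:ℝ) ≤ k * κ + 1 / b := by positivity
    have h5 := ENNReal.toReal_mono ENNReal.ofReal_ne_top h3
    rw [ENNReal.toReal_ofReal h4] at h5
    have h6 : (k:ℝ) ≤ N := by exact_mod_cast hk'.le
    have h7 : (k:ℝ) * κ ≤ N * κ := mul_le_mul_of_nonneg_right h6 hκ
    linarith
  rw [Finset.sum_const, Finset.card_range, nsmul_eq_mul] at h2
  calc ∑ n ∈ Finset.Icc 1 N, pbad a b c n ≤ 5 * N / b + 10 * (N * (N * κ + 1 / b)) := by linarith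
    _ = N * (15 / b + 10 * (N * κ)) := by ring

private lemma exists_mid {a b : ℝ} (hb : 10000 ≤ b) (hab : |a| = b ^ 10) (c : ℕ → ℝ) {N : ℕ}
    (hN : 11 ≤ N) :
    ∃ n m : ℕ, n + m = N ∧ N ≤ 4 * n ∧ N ≤ 4 * m ∧ 1 ≤ n ∧ 1 ≤ m ∧
      pbad a b c n + pbad a b (rev c N) m ≤
        4 * (30 / b + 20 * (N * (4 * 4096 * Real.log |a| / |a| ^ 2))) := by
  have hb0 : 0 < b := by linarith
  have ha1 : 1 ≤ |a| := by rw [hab]; exact one_le_pow₀ (by linarith)
  have hlog : 0 ≤ Real.log |a| := Real.log_nonneg ha1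
  have hκ : 0 ≤ 4 * 4096 * Real.log |a| / |a| ^ 2 := by positivity
  have s1 := sum_bd hb hab c N
  have s2 := sum_bd hb hab (rev c N) N
  set κ := 4 * 4096 * Real.log |a| / |a| ^ 2 with hκd
  set I : Finset ℕ := Finset.Icc ((N+3)/4) (3*N/4) with hI
  by_contra hcon
  push Not at hcon
  have key : ∀ n ∈ I, 4 * (30 / b + 20 * (N * κ)) ≤ pbad a b c n + pbad a b (rev c N) (N - n) := by
    intro n hn
    rw [hI, Finset.mem_Icc] at hn
    exact (hcon n (N - n) (by omega) (by omega) (by omega) (by omega) (by omega)).le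
  have key2 : ∃ n ∈ I, 4 * (30 / b + 20 * (N * κ)) < pbad a b c n + pbad a b (rev c N) (N - n) := by
    refine ⟨(N+3)/4, ?_, ?_⟩
    · rw [hI, Finset.mem_Icc]; omega
    · exact hcon ((N+3)/4) (N - (N+3)/4) (by omega) (by omega) (by omega) (by omega) (by omega)
  have hlt := Finset.sum_lt_sum key key2
  rw [Finset.sum_const, nsmul_eq_mul, Finset.sum_add_distrib] at hlt
  have hcard : (N:ℝ) ≤ 4 * (I.card : ℝ) := by
    have : N ≤ 4 * I.card := by rw [hI, Nat.card_Icc]; omega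
    exact_mod_cast this
  have t1 : ∑ n ∈ I, pbad a b c n ≤ ∑ n ∈ Finset.Icc 1 N, pbad a b c n := by
    apply Finset.sum_le_sum_of_subset_of_nonneg
    · intro n hn
      rw [hI, Finset.mem_Icc] at hn
      rw [Finset.mem_Icc]; omega
    · intro n _ _; exact pbad_nonneg _ _ _ _
  have t2 : ∑ n ∈ I, pbad a b (rev c N) (N - n) ≤
      ∑ n ∈ Finset.Icc 1 N, pbad a b (rev c N) n := by
    have hinj : ∀ x ∈ I, ∀ y ∈ I, N - x = N - y → x = y := by
      intro x hx y hy hxy
      rw [hI, Finset.mem_Icc] at hx hy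
      omega
    rw [← Finset.sum_image (f := fun n => pbad a b (rev c N) n) (g := fun n => N - n)
      (s := I) hinj]
    apply Finset.sum_le_sum_of_subset_of_nonneg
    · intro n hn
      rw [Finset.mem_image] at hn
      obtain ⟨k, hk, rfl⟩ := hn
      rw [hI, Finset.mem_Icc] at hk
      rw [Finset.mem_Icc]; omega
    · intro n _ _; exact pbad_nonneg _ _ _ _
  have hpos : 0 ≤ 30 / b + 20 * (N * κ) := by positivity
  have u1 : (N:ℝ) * (30 / b + 20 * (N * κ)) ≤ (I.card : ℝ) * (4 * (30 / b + 20 * (N * κ))) := by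
    nlinarith
  have u2 : (N:ℝ) * (15 / b + 10 * (N * κ)) + N * (15 / b + 10 * (N * κ)) =
      N * (30 / b + 20 * (N * κ)) := by ring
  linarith

theorem mixing_noise :
    ∃ C : ℝ, 0 < C ∧ ∀ a : ℝ, 1 ≤ |a| → ∀ (c : ℕ → ℝ) (f g : ℝ × ℝ → ℝ) (L : ℝ), 0 ≤ L →
      (∀ p, |f p| ≤ 1) → (∀ p, |g p| ≤ 1) →
      (∀ p p', |f p - f p'| ≤ L * dist p p') → (∀ p p', |g p - g p'| ≤ L * dist p p') →
      (∀ (p : ℝ × ℝ) (i j : ℤ), g (p.1 + i, p.2 + j) = g p) →
      ∀ N : ℕ, 1 ≤ N →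
      |(∫ p in sq, f p * g (st a c N p)) - (∫ p in sq, f p) * (∫ p in sq, g p)| ≤
        C * (|a| ^ (-(1:ℝ) / 10) + N * Real.log |a| / |a| ^ 2 + L * |a| ^ (1 - (N:ℝ) / 10)) := by
  refine ⟨10 ^ 7, by norm_num, ?_⟩
  intro a ha c f g L hL hf hg hfL hgL hgp N hN1
  have ha0 : 0 < |a| := by linarith
  have hlog : 0 ≤ Real.log |a| := Real.log_nonneg ha
  set b : ℝ := |a| ^ ((1:ℝ) / 10) with hbd
  have hb0 : 0 < b := Real.rpow_pos_of_pos ha0 _
  have hab : |a| = b ^ 10 := by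
    rw [hbd, ← Real.rpow_natCast, ← Real.rpow_mul ha0.le]
    norm_num
  have e1 : |a| ^ (-(1:ℝ) / 10) = 1 / b := by
    rw [neg_div, Real.rpow_neg ha0.le, ← hbd, one_div]
  have e2 : |a| ^ (1 - (N:ℝ) / 10) = b ^ 10 / b ^ N := by
    rw [Real.rpow_sub ha0, Real.rpow_one, hab]
    congr 1
    rw [← Real.rpow_natCast b 10, ← Real.rpow_mul hb0.le, ← Real.rpow_natCast b N]
    congr 1
    push_cast
    ring
  have p1 : 0 ≤ 1 / b := by positivity
  have p2 : 0 ≤ N * Real.log |a| / |a| ^ 2 := by positivity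
  have p3 : 0 ≤ L * |a| ^ (1 - (N:ℝ) / 10) := by positivity
  rcases lt_or_ge b 10000 with hb | hb
  · have h2 := trivial_bd a c f g hf hg N
    have h3 : 1 / 10000 ≤ 1 / b := one_div_le_one_div_of_le hb0 hb.le
    rw [e1]
    refine h2.trans ?_
    nlinarith
  rcases le_or_gt N 10 with hN | hN
  · have h2 := small_N a c f g L hL hf hg hfL hgL hgp N
    have h3 : 1 ≤ |a| ^ (1 - (N:ℝ) / 10) := by
      apply Real.one_le_rpow ha
      have : (N:ℝ) ≤ 10 := by exact_mod_cast hN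
      linarith
    have h4 : L ≤ L * |a| ^ (1 - (N:ℝ) / 10) := le_mul_of_one_le_right hL h3
    rw [e1]
    refine h2.trans ?_
    nlinarith
  · obtain ⟨n, m, hnm, hn4, hm4, hn1, hm1, hp⟩ := exists_mid hb hab c (show 11 ≤ N by omega)
    have h2 := mix hb hab c hn1 hm1 hL hf hg hfL hgL hgp
    rw [hnm] at h2
    have hb1 : 1 ≤ b := by linarith
    have pw : ∀ k : ℕ, N ≤ 4 * k → b ^ 2 / b ^ (7 * k) ≤ b ^ 10 / b ^ N := by
      intro k hk
      rw [div_le_div_iff₀ (by positivity) (by positivity), ← pow_add, ← pow_add]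
      exact pow_le_pow_right₀ hb1 (by omega)
    have q1 := pw n hn4
    have q2 := pw m hm4
    rw [← e2] at q1 q2
    have q3 : L * (b ^ 2 / b ^ (7 * n) + b ^ 2 / b ^ (7 * m)) ≤
        2 * (L * |a| ^ (1 - (N:ℝ) / 10)) := by
      have := mul_le_mul_of_nonneg_left (add_le_add q1 q2) hL
      linarith
    have q4 : 4 * (30 / b + 20 * (N * (4 * 4096 * Real.log |a| / |a| ^ 2))) =
        120 * (1 / b) + 1310720 * (N * Real.log |a| / |a| ^ 2) := by ring
    rw [q4] at hp
    rw [e1]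
    refine h2.trans ?_
    linarith

end Pool.Agent.Helper18.SG
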