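import Mathlib
import Pool.Agent.Helper18.SG.DetA
import Pool.Agent.Helper78.SM.Fin

/-! Block SG-TORUS: see the header of `DetA.lean`. Proof by helper8. -/

set_option autoImplicit false
open Real Set MeasureTheory

namespace Pool.Agent.Helper18.SG

open Pool.Agent.Helper78.SM (sq)

private theorem dist_mk_le8 (x y : ℝ) : dist (x : UnitAddCircle) (y : UnitAddCircle) ≤ dist x y := by
  rw [dist_eq_norm, dist_eq_norm, ← AddCircle.coe_sub]
  exact QuotientAddGroup.norm_mk_le_norm

private theorem dist_mk2_le8 (p q : ℝ × ℝ) :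
    dist (Pool.Agent.Helper78.SM.mk2 p) (Pool.Agent.Helper78.SM.mk2 q) ≤ dist p q := by
  rw [Prod.dist_eq, Prod.dist_eq]
  exact max_le_max (dist_mk_le8 _ _) (dist_mk_le8 _ _)

private theorem coe_add_int8 (x : ℝ) (i : ℤ) : ((x + i : ℝ) : UnitAddCircle) = (x : UnitAddCircle) := by
  rw [AddCircle.coe_add]
  have h : ((i : ℝ) : UnitAddCircle) = 0 := by
    rw [AddCircle.coe_eq_zero_iff]
    exact ⟨i, by simp⟩
  rw [h, add_zero]

private theorem iter8 (a : ℝ) (n : ℕ) (p : ℝ × ℝ) :
    (Pool.Agent.Helper78.SM.F a)^[n] p = st a (fun _ => 0) n p := by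
  induction n with
  | zero => 
    unfold st
    rw [Function.iterate_zero, id, Z_one, Z_zero]
  | succ n ih =>
    rw [Function.iterate_succ_apply', ih]
    unfold st Pool.Agent.Helper78.SM.F
    rw [Z_rec]
    unfold Pool.Agent.Helper78.SM.psi
    ext
    · simp only
      ring
    · rfl

private theorem int8 {f : UnitAddCircle × UnitAddCircle → ℝ} (hf : Measurable f) :
    ∫ p, f p = ∫ p in sq, f (Pool.Agent.Helper78.SM.mk2 p) := by
  have hm := Pool.Agent.Helper78.SM.mp_mk2
  rw [← hm.map_eq]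
  exact integral_map hm.measurable.aemeasurable hf.aestronglyMeasurable

private theorem meas8 {f : UnitAddCircle × UnitAddCircle → ℝ} {L : ℝ} (hL : 0 ≤ L)
    (h : ∀ p q, |f p - f q| ≤ L * dist p q) : Continuous f := by
  have h1 : LipschitzWith ⟨L, hL⟩ f := by
    refine LipschitzWith.of_dist_le_mul fun p q => ?_
    rw [Real.dist_eq]
    exact h p q
  exact h1.continuous

theorem mixing_torus :
    ∃ C : ℝ, 0 < C ∧ ∀ a : ℝ, 1 ≤ |a| →
      ∀ T : UnitAddCircle × UnitAddCircle → UnitAddCircle × UnitAddCircle,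
      (∀ x y : ℝ, T ((x : UnitAddCircle), (y : UnitAddCircle)) =
        (((2 * x - y + a * Real.sin (2 * π * x) : ℝ) : UnitAddCircle), (x : UnitAddCircle))) →
      ∀ (f g : UnitAddCircle × UnitAddCircle → ℝ) (L : ℝ), 0 ≤ L →
        (∀ p, |f p| ≤ 1) → (∀ p, |g p| ≤ 1) →
        (∀ p q, |f p - f q| ≤ L * dist p q) → (∀ p q, |g p - g q| ≤ L * dist p q) →
      ∀ n : ℕ, 1 ≤ n →
      |(∫ p, f p * g (T^[n] p)) - (∫ p, f p) * ∫ p, g p| ≤
        C * (|a| ^ (-(1:ℝ) / 10) + n * Real.log |a| / |a| ^ 2 + L * |a| ^ (1 - (n:ℝ) / 10)) := by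
  obtain ⟨C, hC, hmain⟩ := mixing_noise
  refine ⟨C, hC, ?_⟩
  intro a ha T hT f g L hL hf hg hfL hgL n hn
  have hTs : Pool.Agent.Helper53.SM.IsStd a T := hT
  have hfc : Continuous f := meas8 hL hfL
  have hgc : Continuous g := meas8 hL hgL
  have hTm : Measurable T := by
    have : T = Pool.Agent.Helper78.SM.std a := by
      funext p
      obtain ⟨x, hx⟩ := QuotientAddGroup.mk_surjective p.1
      obtain ⟨y, hy⟩ := QuotientAddGroup.mk_surjective p.2
      have hp : p = ((x : UnitAddCircle), (y : UnitAddCircle)) := Prod.ext hx.symm hy.symm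
      rw [hp, hTs x y, Pool.Agent.Helper78.SM.std_isStd a x y]
    rw [this]
    unfold Pool.Agent.Helper78.SM.std
    have hs : Continuous Pool.Agent.Helper78.SM.snn := by
      unfold Pool.Agent.Helper78.SM.snn
      exact Complex.continuous_im.comp (continuous_subtype_val.comp AddCircle.continuous_toCircle)
    have hc : Continuous (fun p : UnitAddCircle × UnitAddCircle =>
        (p.1 + p.1 - p.2 + ((a * Pool.Agent.Helper78.SM.snn p.1 : ℝ) : UnitAddCircle), p.1)) := by
      refine Continuous.prodMk ?_ continuous_fst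
      refine ((continuous_fst.add continuous_fst).sub continuous_snd).add ?_
      exact (AddCircle.continuous_mk' 1).comp (continuous_const.mul (hs.comp continuous_fst))
    exact hc.measurable
  have h1 := hmain a ha (fun _ => 0) (fun p => f (Pool.Agent.Helper78.SM.mk2 p))
    (fun p => g (Pool.Agent.Helper78.SM.mk2 p)) L hL (fun p => hf _) (fun p => hg _)
    (fun p q => (hfL _ _).trans (mul_le_mul_of_nonneg_left (dist_mk2_le8 p q) hL))
    (fun p q => (hgL _ _).trans (mul_le_mul_of_nonneg_left (dist_mk2_le8 p q) hL))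
    (fun p i j => by
      have : Pool.Agent.Helper78.SM.mk2 (p.1 + i, p.2 + j) = Pool.Agent.Helper78.SM.mk2 p := by
        unfold Pool.Agent.Helper78.SM.mk2
        simp only
        rw [coe_add_int8, coe_add_int8]
      show g _ = g _
      rw [this]) n hn
  have h2 : ∀ p : ℝ × ℝ, Pool.Agent.Helper78.SM.mk2 (st a (fun _ => 0) n p)
      = T^[n] (Pool.Agent.Helper78.SM.mk2 p) := by
    intro p
    rw [Pool.Agent.Helper78.SM.mk2_iter hTs, iter8]
  simp only [h2] at h1
  have e1 := int8 (f := fun p => f p * g (T^[n] p))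
    (hfc.measurable.mul (hgc.measurable.comp (hTm.iterate n)))
  have e2 := int8 hfc.measurable
  have e3 := int8 hgc.measurable
  rw [e1, e2, e3]
  exact h1

end Pool.Agent.Helper18.SG
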