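import Mathlib
import Pool.Agent.Helper18.SG.DetB
import Pool.Agent.Helper53.SM.FinalC

/-! Block SG-SCALE: eigenfunctions of the standard map are almost uncorrelated with all functions at
scales down to `exp (-|a| ^ α)`, for every `α < 2`.

Proof. `A = |a|`; for `A <= A0(α)` the left side is at most 2 (see the end of
`Results/MP_9ee088_an/ScaleWeakMixing.lean`) and the right side is at least 2 if `C` is large. For large
`A` put `β = (2 - α) / 4`, `N = ⌈A ^ β⌉`, `M = ⌈20 A ^ α⌉` and apply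
`Helper53.SM.eig_bound` with steps `j M`, `1 <= j < N`: by `mixing_torus` (with `L = exp (A ^ α)`,
`f = g`), as `A >= e`, `j M >= 20 A ^ α + ...`:
`L A ^ (1 - j M / 10) <= exp (A ^ α) A exp (-2 A ^ α) <= C(α) A ^ (-1/10)`, and
`j M log A / A ^ 2 <= 100 A ^ (β + α - 2) log A = 100 A ^ (-3 (2 - α) / 4) log A <= C(α) A ^ (-(2-α)/20)`.
So the square of the left side is at most `4 A ^ (-β) + C (...) <= C' A ^ (-(2 - α) / 20)`
(note `(2 - α) / 20 <= 1 / 10`); take the square root. -/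

set_option autoImplicit false
open Real Set MeasureTheory

namespace Pool.Agent.Helper18.SG

open Pool.Agent.Helper53.SM in
private theorem scale_sq {C₀ : ℝ} (hC₀ : 0 < C₀)
    (hmix : ∀ a : ℝ, 1 ≤ |a| →
      ∀ T : UnitAddCircle × UnitAddCircle → UnitAddCircle × UnitAddCircle,
      (∀ x y : ℝ, T ((x : UnitAddCircle), (y : UnitAddCircle)) =
        (((2 * x - y + a * Real.sin (2 * π * x) : ℝ) : UnitAddCircle), (x : UnitAddCircle))) →
      ∀ (f g : UnitAddCircle × UnitAddCircle → ℝ) (L : ℝ), 0 ≤ L →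
        (∀ p, |f p| ≤ 1) → (∀ p, |g p| ≤ 1) →
        (∀ p q, |f p - f q| ≤ L * dist p q) → (∀ p q, |g p - g q| ≤ L * dist p q) →
      ∀ n : ℕ, 1 ≤ n →
      |(∫ p, f p * g (T^[n] p)) - (∫ p, f p) * ∫ p, g p| ≤
        C₀ * (|a| ^ (-(1:ℝ) / 10) + n * Real.log |a| / |a| ^ 2 + L * |a| ^ (1 - (n:ℝ) / 10)))
    {α : ℝ} (hα : 0 < α) (hα2 : α < 2) {k : ℕ} (hk : 2 ≤ α * k)
    {a : ℝ} (ha : 3 ≤ |a|) {T : T2 → T2} (hT : IsStd a T) {ξ : ℂ} (hξ : ‖ξ‖ = 1)
    {h : T2 → ℂ} {f : T2 → ℝ} (hh : Measurable h)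
    (hh1 : ∀ p, ‖h p‖ ≤ 1) (hinv : h ∘ T =ᵐ[volume] fun p => ξ * h p) (hf1 : ∀ p, |f p| ≤ 1)
    (hfL : ∀ p q, |f p - f q| ≤ Real.exp (|a| ^ α) * dist p q) :
    ‖(∫ p, h p * (f p : ℂ)) - (∫ p, h p) * ((∫ p, f p : ℝ) : ℂ)‖ ^ 2 ≤
      (4 + C₀ * (1 + 168 / (2 - α) + (k.factorial : ℝ))) * |a| ^ (-((2 - α) / 20)) := by
  have hIs : ∀ x y : ℝ, T ((x : UnitAddCircle), (y : UnitAddCircle)) =
        (((2 * x - y + a * Real.sin (2 * π * x) : ℝ) : UnitAddCircle), (x : UnitAddCircle)) := hT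
  set A := |a| with hA
  have hA0 : 0 < A := by linarith
  have hA1 : 1 ≤ A := by linarith
  have hae : Real.exp 1 ≤ A := by
    have := Real.exp_one_lt_d9
    linarith
  set γ := 2 - α with hγ
  have hγ0 : 0 < γ := by rw [hγ]; linarith
  have hγ2 : γ < 2 := by rw [hγ]; linarith
  set β := γ / 4 with hβ
  have hβ0 : 0 < β := by rw [hβ]; linarith
  have hfc : Continuous f := by
    refine LipschitzWith.continuous (K := (Real.exp (A ^ α)).toNNReal)
      (LipschitzWith.of_dist_le_mul ?_)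
    intro p q
    rw [Real.dist_eq, Real.coe_toNNReal _ (Real.exp_pos _).le]
    exact hfL p q
  set N : ℕ := ⌈A ^ β⌉₊ with hN
  set m : ℕ := ⌈20 * A ^ α⌉₊ with hm
  have hAβ1 : 1 ≤ A ^ β := Real.one_le_rpow hA1 hβ0.le
  have hAα1 : 1 ≤ A ^ α := Real.one_le_rpow hA1 hα.le
  have hNpos : 0 < N := Nat.ceil_pos.2 (by linarith)
  have hN1 : A ^ β ≤ N := Nat.le_ceil _
  have hN2 : (N:ℝ) ≤ 2 * A ^ β := by
    have := Nat.ceil_lt_add_one (by linarith : 0 ≤ A ^ β)
    rw [← hN] at this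
    linarith
  have hm1 : 20 * A ^ α ≤ m := Nat.le_ceil _
  have hm2 : (m:ℝ) ≤ 21 * A ^ α := by
    have := Nat.ceil_lt_add_one (by linarith : 0 ≤ 20 * A ^ α)
    rw [← hm] at this
    linarith
  have hmpos : 0 < m := Nat.ceil_pos.2 (by linarith)
  set R := A ^ (-(γ / 20)) with hR
  have hR0 : 0 < R := Real.rpow_pos_of_pos hA0 _
  -- the three terms
  have t1 : A ^ (-(1:ℝ) / 10) ≤ R := by
    apply Real.rpow_le_rpow_of_exponent_le hA1
    linarith
  have hlog0 : 0 ≤ Real.log A := Real.log_nonneg hA1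
  have t2 : ∀ n : ℕ, n ≤ N * m → (n:ℝ) * Real.log A / A ^ 2 ≤ 168 / γ * R := by
    intro n hn
    have h1 : (n:ℝ) ≤ (N:ℝ) * m := by exact_mod_cast hn
    have h2 : (n:ℝ) ≤ (2 * A ^ β) * (21 * A ^ α) := by
      refine h1.trans ?_
      gcongr
    have h3 : Real.log A ≤ A ^ (γ / 4) / (γ / 4) := Real.log_le_rpow_div hA0.le (by linarith)
    have h4 : (n:ℝ) * Real.log A ≤ ((2 * A ^ β) * (21 * A ^ α)) * (A ^ (γ / 4) / (γ / 4)) := by
      gcongr
    have e1 : ((2 * A ^ β) * (21 * A ^ α)) * (A ^ (γ / 4) / (γ / 4)) / A ^ 2 =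
        168 / γ * (A ^ β * A ^ α * A ^ (γ / 4) * A ^ (-(2:ℝ))) := by
      rw [Real.rpow_neg hA0.le, show A ^ (2:ℝ) = A ^ 2 by
        rw [← Real.rpow_natCast]; norm_num]
      field_simp
      ring
    have e2 : A ^ β * A ^ α * A ^ (γ / 4) * A ^ (-(2:ℝ)) = A ^ (-(γ / 2)) := by
      rw [← Real.rpow_add hA0, ← Real.rpow_add hA0, ← Real.rpow_add hA0]
      congr 1
      rw [hβ, hγ]; ring
    have e3 : A ^ (-(γ / 2)) ≤ R := by
      apply Real.rpow_le_rpow_of_exponent_le hA1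
      linarith
    calc (n:ℝ) * Real.log A / A ^ 2 ≤ ((2 * A ^ β) * (21 * A ^ α)) * (A ^ (γ / 4) / (γ / 4)) / A ^ 2 := by
          gcongr
      _ = 168 / γ * A ^ (-(γ / 2)) := by rw [e1, e2]
      _ ≤ 168 / γ * R := by gcongr
  have t3 : ∀ n : ℕ, m ≤ n → Real.exp (A ^ α) * A ^ (1 - (n:ℝ) / 10) ≤ (k.factorial : ℝ) * R := by
    intro n hn
    have h1 : (m:ℝ) ≤ n := by exact_mod_cast hn
    have h2 : A ^ (1 - (n:ℝ) / 10) ≤ A ^ (1 - 2 * A ^ α) := by
      apply Real.rpow_le_rpow_of_exponent_le hA1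
      linarith
    have h3 : A ^ (1 - 2 * A ^ α) = A * A ^ (-(2 * A ^ α)) := by
      rw [sub_eq_add_neg, Real.rpow_add hA0, Real.rpow_one]
    have h4 : A ^ (-(2 * A ^ α)) ≤ Real.exp (-(2 * A ^ α)) := by
      rw [← Real.exp_one_rpow (-(2 * A ^ α))]
      exact Real.rpow_le_rpow_of_nonpos (Real.exp_pos _) hae (by linarith)
    have h5 : Real.exp (A ^ α) * (A * Real.exp (-(2 * A ^ α))) = A * Real.exp (-(A ^ α)) := by
      have : Real.exp (A ^ α) * Real.exp (-(2 * A ^ α)) = Real.exp (-(A ^ α)) := by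
        rw [← Real.exp_add]; ring_nf
      rw [← this]; ring
    have h6 := Real.pow_div_factorial_le_exp (A ^ α) (by linarith) k
    have h8 : 0 < (k.factorial : ℝ) := by exact_mod_cast k.factorial_pos
    have h7 : A ^ 2 ≤ (A ^ α) ^ k := by
      rw [← Real.rpow_natCast, ← Real.rpow_natCast, ← Real.rpow_mul hA0.le]
      apply Real.rpow_le_rpow_of_exponent_le hA1
      push_cast
      exact hk
    have h9 : A ^ 2 ≤ (k.factorial : ℝ) * Real.exp (A ^ α) := by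
      rw [div_le_iff₀ h8] at h6
      calc A ^ 2 ≤ (A ^ α) ^ k := h7
        _ ≤ _ := h6
        _ = _ := by ring
    have h10 : A * Real.exp (-(A ^ α)) ≤ (k.factorial : ℝ) * A ^ (-(1:ℝ)) := by
      rw [Real.exp_neg, Real.rpow_neg_one, ← div_eq_mul_inv, ← div_eq_mul_inv,
        div_le_div_iff₀ (Real.exp_pos _) hA0]
      nlinarith
    have h11 : A ^ (-(1:ℝ)) ≤ R := by
      apply Real.rpow_le_rpow_of_exponent_le hA1
      linarith
    calc Real.exp (A ^ α) * A ^ (1 - (n:ℝ) / 10) ≤ Real.exp (A ^ α) * (A * Real.exp (-(2 * A ^ α))) := by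
          rw [h3] at h2
          gcongr
          refine h2.trans ?_
          gcongr
      _ = A * Real.exp (-(A ^ α)) := h5
      _ ≤ (k.factorial : ℝ) * A ^ (-(1:ℝ)) := h10
      _ ≤ (k.factorial : ℝ) * R := by gcongr
  set E : ℝ := C₀ * (1 + 168 / γ + (k.factorial : ℝ)) * R with hE
  have hE0 : 0 ≤ E := by positivity
  have hcor : ∀ j, 1 ≤ j → j < N →
      |(∫ p, f p * f (T^[j * m] p)) - (∫ p, f p) * ∫ p, f p| ≤ E := by
    intro j hj1 hjN
    have h5 := hmix a (by linarith) T hIs f f (Real.exp (A ^ α)) (Real.exp_pos _).le hf1 hf1 hfL hfL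
      (j * m) (Nat.mul_pos hj1 hmpos)
    refine h5.trans ?_
    have u2 := t2 (j * m) (Nat.mul_le_mul_right m hjN.le)
    have u3 := t3 (j * m) (Nat.le_mul_of_pos_left m hj1)
    rw [hE, mul_assoc]
    apply mul_le_mul_of_nonneg_left _ hC₀.le
    rw [add_mul, add_mul, one_mul]
    linarith
  have hmain := eig_bound hT.continuous hT.measurePreserving hξ hh hh1 hinv hfc.measurable hf1
    hNpos hE0 hcor
  refine hmain.trans ?_
  have t4 : 4 / (N:ℝ) ≤ 4 * R := by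
    have e : A ^ (-β) ≤ R := by
      apply Real.rpow_le_rpow_of_exponent_le hA1
      rw [hβ]; linarith
    calc 4 / (N:ℝ) ≤ 4 / A ^ β := by gcongr
      _ = 4 * A ^ (-β) := by rw [Real.rpow_neg hA0.le]; ring
      _ ≤ 4 * R := by gcongr
  rw [hE, add_mul]
  linarith

theorem scale_weak_mixing :
    ∀ α : ℝ, 0 < α → α < 2 → ∃ C : ℝ, 0 < C ∧ ∀ a : ℝ, 1 ≤ |a| →
      ∀ T : UnitAddCircle × UnitAddCircle → UnitAddCircle × UnitAddCircle,
      (∀ x y : ℝ, T ((x : UnitAddCircle), (y : UnitAddCircle)) =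
        (((2 * x - y + a * Real.sin (2 * π * x) : ℝ) : UnitAddCircle), (x : UnitAddCircle))) →
      ∀ ξ : ℂ, ‖ξ‖ = 1 →
      ∀ h : UnitAddCircle × UnitAddCircle → ℂ, Measurable h → (∀ p, ‖h p‖ ≤ 1) →
        (h ∘ T =ᵐ[volume] fun p => ξ * h p) →
      ∀ f : UnitAddCircle × UnitAddCircle → ℝ, (∀ p, |f p| ≤ 1) →
        (∀ p q, |f p - f q| ≤ Real.exp (|a| ^ α) * dist p q) →
      ‖(∫ p, h p * (f p : ℂ)) - (∫ p, h p) * ((∫ p, f p : ℝ) : ℂ)‖ ≤
        C * |a| ^ (-((2 - α) / 40)) := by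
  intro α hα hα2
  obtain ⟨C₀, hC₀, hmix⟩ := mixing_torus
  obtain ⟨k, hk⟩ := exists_nat_ge (2 / α)
  have hk' : 2 ≤ α * k := by
    rw [div_le_iff₀ hα] at hk
    linarith
  have hγ0 : 0 < 2 - α := by linarith
  have hK0 : 0 < 4 + C₀ * (1 + 168 / (2 - α) + (k.factorial : ℝ)) := by positivity
  refine ⟨Real.sqrt (4 + C₀ * (1 + 168 / (2 - α) + (k.factorial : ℝ))) + 6, by positivity, ?_⟩
  intro a ha T hT ξ hξ h hh hh1 hinv f hf1 hfL
  have hA0 : (0:ℝ) < |a| := by linarith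
  have hpos : 0 < |a| ^ (-((2 - α) / 40)) := Real.rpow_pos_of_pos hA0 _
  rcases le_or_gt 3 |a| with h5 | h5
  · have hmain := scale_sq hC₀ hmix hα hα2 hk' h5 hT hξ hh hh1 hinv hf1 hfL
    have e : (4 + C₀ * (1 + 168 / (2 - α) + (k.factorial : ℝ))) * |a| ^ (-((2 - α) / 20)) =
        (Real.sqrt (4 + C₀ * (1 + 168 / (2 - α) + (k.factorial : ℝ))) *
          |a| ^ (-((2 - α) / 40))) ^ 2 := by
      rw [mul_pow, Real.sq_sqrt hK0.le, ← Real.rpow_natCast (|a| ^ _) 2,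
        ← Real.rpow_mul hA0.le]
      congr 2
      push_cast
      ring
    rw [e] at hmain
    have h6 := abs_le_of_sq_le_sq hmain (by positivity)
    rw [abs_norm] at h6
    refine h6.trans ?_
    gcongr
    linarith
  · have h6 : ‖(∫ p, h p * (f p : ℂ)) - (∫ p, h p) * ((∫ p, f p : ℝ) : ℂ)‖ ≤ 2 := by
      have b1 := norm_integral_le_of_norm_le_const
        (μ := (volume : Measure (UnitAddCircle × UnitAddCircle)))
        (f := fun p => h p * (f p : ℂ)) (C := 1) (Filter.Eventually.of_forall (fun p => by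
          rw [norm_mul, Complex.norm_real, Real.norm_eq_abs]
          calc _ ≤ (1:ℝ) * 1 := mul_le_mul (hh1 _) (hf1 _) (abs_nonneg _) (by norm_num)
            _ = 1 := by norm_num))
      have b2 := norm_integral_le_of_norm_le_const
        (μ := (volume : Measure (UnitAddCircle × UnitAddCircle)))
        (f := h) (C := 1) (Filter.Eventually.of_forall hh1)
      have b3 := norm_integral_le_of_norm_le_const
        (μ := (volume : Measure (UnitAddCircle × UnitAddCircle)))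
        (f := f) (C := 1) (Filter.Eventually.of_forall (fun p => by
          rw [Real.norm_eq_abs]; exact hf1 p))
      simp only [probReal_univ, mul_one] at b1 b2 b3
      have b4 : ‖(∫ p, h p) * ((∫ p, f p : ℝ) : ℂ)‖ ≤ 1 := by
        rw [norm_mul, Complex.norm_real]
        calc _ ≤ (1:ℝ) * 1 := mul_le_mul b2 b3 (norm_nonneg _) (by norm_num)
          _ = 1 := by norm_num
      have := norm_sub_le (∫ p, h p * (f p : ℂ)) ((∫ p, h p) * ((∫ p, f p : ℝ) : ℂ))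
      linarith
    have h7 : (1:ℝ) / 3 ≤ |a| ^ (-((2 - α) / 40)) := by
      have e : (3:ℝ) ^ (-(1:ℝ)) ≤ |a| ^ (-(1:ℝ)) := by
        rw [Real.rpow_neg_one, Real.rpow_neg_one]
        exact inv_anti₀ hA0 h5.le
      have e2 : |a| ^ (-(1:ℝ)) ≤ |a| ^ (-((2 - α) / 40)) :=
        Real.rpow_le_rpow_of_exponent_le ha (by linarith)
      rw [Real.rpow_neg_one] at e
      linarith
    have h8 : 0 ≤ Real.sqrt (4 + C₀ * (1 + 168 / (2 - α) + (k.factorial : ℝ))) :=
      Real.sqrt_nonneg _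
    nlinarith [mul_nonneg h8 hpos.le]

end Pool.Agent.Helper18.SG
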